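import Mathlib

/-!
Finite blocks in a two-colouring of the complete graph on the natural numbers: every large finite
set contains a homogeneous block of a prescribed size whose common neighbourhood in some colour
contains arbitrarily large cliques of that colour.
-/

namespace Pool.Agent.R66.RD

open Filter Set

/-- The set `X` contains arbitrarily large finite cliques of `G`. -/
def Large (G : SimpleGraph ℕ) (X : Set ℕ) : Prop :=
  ∀ m : ℕ, ∃ K : Finset ℕ, (K : Set ℕ) ⊆ X ∧ G.IsClique (K : Set ℕ) ∧ m ≤ K.card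

/-- Common neighbourhood. -/
def CN (G : SimpleGraph ℕ) (S : Finset ℕ) : Set ℕ := {v | ∀ s ∈ S, G.Adj s v}

/-- The common neighbourhood of `S` contains arbitrarily large cliques. -/
def Rich (G : SimpleGraph ℕ) (S : Finset ℕ) : Prop := Large G (CN G S)

theorem Large.mono {G : SimpleGraph ℕ} {X Y : Set ℕ} (h : Large G X) (hXY : X ⊆ Y) :
    Large G Y := by
  intro m
  obtain ⟨K, h1, h2, h3⟩ := h m
  exact ⟨K, h1.trans hXY, h2, h3⟩

theorem CN_anti {G : SimpleGraph ℕ} {S S' : Finset ℕ} (h : S ⊆ S') : CN G S' ⊆ CN G S :=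
  fun _ hv s hs => hv s (h hs)

theorem Rich.mono {G : SimpleGraph ℕ} {S S' : Finset ℕ} (h : S ⊆ S') (hR : Rich G S') :
    Rich G S := Large.mono hR (CN_anti h)

theorem Large.fresh {G : SimpleGraph ℕ} {X : Set ℕ} (h : Large G X) (U : Finset ℕ) (m : ℕ) :
    ∃ K : Finset ℕ, (K : Set ℕ) ⊆ X ∧ G.IsClique (K : Set ℕ) ∧ K.card = m ∧ Disjoint K U := by
  obtain ⟨K, h1, h2, h3⟩ := h (m + U.card)
  have h4 : m ≤ (K \ U).card := by
    have := Finset.le_card_sdiff U K
    omega
  obtain ⟨K', h5, h6⟩ := Finset.exists_subset_card_eq h4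
  refine ⟨K', ?_, ?_, h6, ?_⟩
  · intro x hx
    exact h1 (Finset.sdiff_subset (h5 hx))
  · exact h2.subset (fun x hx => Finset.sdiff_subset (h5 hx))
  · exact Finset.disjoint_of_subset_left h5 Finset.sdiff_disjoint

/-- Finite Ramsey theorem, off-diagonal. -/
theorem ramsey_fin (G : SimpleGraph ℕ) : ∀ s t : ℕ, ∃ N : ℕ, ∀ Y : Finset ℕ, N ≤ Y.card →
    (∃ S ⊆ Y, S.card = s ∧ G.IsClique (S : Set ℕ)) ∨
    (∃ S ⊆ Y, S.card = t ∧ Gᶜ.IsClique (S : Set ℕ)) := by
  classical
  intro s
  induction s with
  | zero =>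
    intro t
    exact ⟨0, fun Y _ => Or.inl ⟨∅, by simp, by simp, by simp⟩⟩
  | succ s ihs =>
    intro t
    induction t with
    | zero => exact ⟨0, fun Y _ => Or.inr ⟨∅, by simp, by simp, by simp⟩⟩
    | succ t iht =>
      obtain ⟨N1, h1⟩ := ihs (t + 1)
      obtain ⟨N2, h2⟩ := iht
      refine ⟨N1 + N2 + 1, fun Y hY => ?_⟩
      have hne : Y.Nonempty := by
        rw [← Finset.card_pos]; omega
      obtain ⟨v, hv⟩ := hne
      set Y1 := (Y.erase v).filter (fun w => G.Adj v w) with hY1
      set Y2 := (Y.erase v).filter (fun w => ¬ G.Adj v w) with hY2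
      have hsum : Y1.card + Y2.card = (Y.erase v).card :=
        Finset.card_filter_add_card_filter_not _
      rw [Finset.card_erase_of_mem hv] at hsum
      have hcase : N1 ≤ Y1.card ∨ N2 ≤ Y2.card := by omega
      rcases hcase with hc | hc
      · rcases h1 Y1 hc with ⟨S, hS, hcard, hcl⟩ | ⟨S, hS, hcard, hcl⟩
        · left
          have hvS : v ∉ S := by
            intro h
            have := hS h
            rw [hY1] at this
            simp at this
          refine ⟨insert v S, ?_, ?_, ?_⟩
          · intro x hx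
            rcases Finset.mem_insert.1 hx with rfl | hx
            · exact hv
            · have := hS hx
              rw [hY1] at this
              simp at this
              exact this.1.2
          · rw [Finset.card_insert_of_notMem hvS, hcard]
          · rw [Finset.coe_insert]
            refine hcl.insert ?_
            intro b hb _
            have := hS hb
            rw [hY1] at this
            simp at this
            exact this.2
        · right
          refine ⟨S, ?_, hcard, hcl⟩
          intro x hx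
          have := hS hx
          rw [hY1] at this
          simp at this
          exact this.1.2
      · rcases h2 Y2 hc with ⟨S, hS, hcard, hcl⟩ | ⟨S, hS, hcard, hcl⟩
        · left
          refine ⟨S, ?_, hcard, hcl⟩
          intro x hx
          have := hS hx
          rw [hY2] at this
          simp at this
          exact this.1.2
        · right
          have hvS : v ∉ S := by
            intro h
            have := hS h
            rw [hY2] at this
            simp at this
          refine ⟨insert v S, ?_, ?_, ?_⟩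
          · intro x hx
            rcases Finset.mem_insert.1 hx with rfl | hx
            · exact hv
            · have := hS hx
              rw [hY2] at this
              simp at this
              exact this.1.2
          · rw [Finset.card_insert_of_notMem hvS, hcard]
          · rw [Finset.coe_insert]
            refine hcl.insert ?_
            intro b hb hne
            have := hS hb
            rw [hY2] at this
            simp at this
            rw [SimpleGraph.compl_adj]
            exact ⟨hne, this.2⟩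

/-- The filter of sets that miss only boundedly many points of each `Y m`. -/
def bddFilter (Y : ℕ → Finset ℕ) : Filter ℕ where
  sets := {X | ∃ C : ℕ, ∀ m, ((Y m : Set ℕ) \ X).ncard ≤ C}
  univ_sets := ⟨0, by simp⟩
  sets_of_superset := by
    rintro X X' ⟨C, hC⟩ hXX'
    refine ⟨C, fun m => le_trans (Set.ncard_le_ncard ?_ ?_) (hC m)⟩
    · exact Set.diff_subset_diff_right hXX'
    · exact (Finset.finite_toSet _).subset Set.diff_subset
  inter_sets := by
    rintro X X' ⟨C, hC⟩ ⟨C', hC'⟩
    refine ⟨C + C', fun m => ?_⟩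
    rw [Set.diff_inter]
    exact (Set.ncard_union_le _ _).trans (Nat.add_le_add (hC m) (hC' m))

theorem mem_bddFilter {Y : ℕ → Finset ℕ} {X : Set ℕ} :
    X ∈ bddFilter Y ↔ ∃ C : ℕ, ∀ m, ((Y m : Set ℕ) \ X).ncard ≤ C := Iff.rfl

theorem bddFilter_neBot {Y : ℕ → Finset ℕ} (hY : ∀ m, m ≤ (Y m).card) : (bddFilter Y).NeBot := by
  rw [Filter.neBot_iff]
  intro h
  have : (∅ : Set ℕ) ∈ bddFilter Y := by rw [h]; exact Filter.mem_bot
  obtain ⟨C, hC⟩ := mem_bddFilter.1 this
  have := hC (C + 1)
  simp only [Set.diff_empty, Set.ncard_coe_finset] at this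
  have := hY (C + 1)
  omega

theorem large_of_mem (G : SimpleGraph ℕ) (p : Ultrafilter ℕ) :
    ∀ (m : ℕ) (X : Set ℕ), X ∈ p → (∀ v ∈ X, {w | G.Adj v w} ∈ p) →
      ∃ K : Finset ℕ, (K : Set ℕ) ⊆ X ∧ G.IsClique (K : Set ℕ) ∧ K.card = m := by
  classical
  intro m
  induction m with
  | zero => intro X _ _; exact ⟨∅, by simp, by simp, by simp⟩
  | succ m ih =>
    intro X hX hv
    obtain ⟨v, hvX⟩ := p.neBot'.nonempty_of_mem hX
    obtain ⟨K, hK, hcl, hcard⟩ := ih (X ∩ {w | G.Adj v w})
      (Filter.inter_mem hX (hv v hvX)) (fun w hw => hv w hw.1)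
    have hvK : v ∉ K := by
      intro h
      exact G.loopless.irrefl v (hK h).2
    refine ⟨insert v K, ?_, ?_, ?_⟩
    · intro x hx
      rw [Finset.coe_insert] at hx
      rcases hx with rfl | hx
      · exact hvX
      · exact (hK hx).1
    · rw [Finset.coe_insert]
      refine hcl.insert ?_
      intro b hb _
      exact (hK hb).2
    · rw [Finset.card_insert_of_notMem hvK, hcard]

theorem block_aux (G : SimpleGraph ℕ) (T : ℕ) (Y : ℕ → Finset ℕ) (p : Ultrafilter ℕ)
    (hmeet : ∀ X ∈ p, ∀ C : ℕ, ∃ m, C < ((Y m : Set ℕ) ∩ X).ncard)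
    (hp : {v | {w | G.Adj v w} ∈ p} ∈ p) :
    ∃ m, ∃ S ⊆ Y m, S.card = T ∧ (G.IsClique (S : Set ℕ) ∨ Gᶜ.IsClique (S : Set ℕ)) ∧
      Rich G S := by
  classical
  obtain ⟨N, hN⟩ := ramsey_fin G T T
  obtain ⟨m, hm⟩ := hmeet _ hp N
  set P : Set ℕ := {v | {w | G.Adj v w} ∈ p} with hP
  set Z : Finset ℕ := (Y m).filter (fun v => v ∈ P) with hZ
  have hZc : (Z : Set ℕ) = (Y m : Set ℕ) ∩ P := by
    ext x; simp [hZ]
  have hNZ : N ≤ Z.card := by
    rw [← hZc, Set.ncard_coe_finset] at hm
    exact hm.le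
  have key : ∀ S ⊆ Z, Rich G S := by
    intro S hS k
    have h1 : CN G S ∩ P ∈ p := by
      refine Filter.inter_mem ?_ hp
      have : CN G S = ⋂ s ∈ S, {w | G.Adj s w} := by
        ext w; simp [CN]
      rw [this]
      refine (Filter.biInter_finset_mem S).2 ?_
      intro s hs
      have := hS hs
      rw [hZ, Finset.mem_filter] at this
      exact this.2
    obtain ⟨K, hK1, hK2, hK3⟩ := large_of_mem G p k (CN G S ∩ P) h1 (fun v hv => hv.2)
    exact ⟨K, fun x hx => (hK1 hx).1, hK2, hK3.ge⟩
  have hZY : Z ⊆ Y m := Finset.filter_subset _ _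
  rcases hN Z hNZ with ⟨S, hS, hcard, hcl⟩ | ⟨S, hS, hcard, hcl⟩
  · exact ⟨m, S, hS.trans hZY, hcard, Or.inl hcl, key S hS⟩
  · exact ⟨m, S, hS.trans hZY, hcard, Or.inr hcl, key S hS⟩

/-- Block lemma. -/
theorem block (R : SimpleGraph ℕ) (T : ℕ) : ∃ N0 : ℕ, ∀ Y : Finset ℕ, N0 ≤ Y.card →
    ∃ S ⊆ Y, S.card = T ∧ (R.IsClique (S : Set ℕ) ∨ Rᶜ.IsClique (S : Set ℕ)) ∧
      (Rich R S ∨ Rich Rᶜ S) := by
  classical
  by_contra hcon
  push Not at hcon
  choose Y hY1 hY2 using hcon
  haveI := bddFilter_neBot hY1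
  set p : Ultrafilter ℕ := Ultrafilter.of (bddFilter Y) with hp
  have hple : (p : Filter ℕ) ≤ bddFilter Y := Ultrafilter.of_le _
  have hmeet : ∀ X ∈ p, ∀ C : ℕ, ∃ m, C < ((Y m : Set ℕ) ∩ X).ncard := by
    intro X hX C
    by_contra h
    push Not at h
    have h1 : Xᶜ ∈ bddFilter Y := by
      refine mem_bddFilter.2 ⟨C, fun m => ?_⟩
      rw [Set.diff_compl]
      exact h m
    have h2 : Xᶜ ∈ p := hple h1
    exact (Ultrafilter.compl_mem_iff_notMem.1 h2) hX
  have hsing : ∀ v : ℕ, ({v}ᶜ : Set ℕ) ∈ p := by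
    intro v
    apply hple
    refine mem_bddFilter.2 ⟨1, fun m => ?_⟩
    rw [Set.diff_compl]
    refine (Set.ncard_le_ncard Set.inter_subset_right).trans ?_
    simp
  have hdich : ∀ v : ℕ, {w | R.Adj v w} ∈ p ∨ {w | Rᶜ.Adj v w} ∈ p := by
    intro v
    rw [← Ultrafilter.union_mem_iff]
    refine Filter.mem_of_superset (hsing v) ?_
    intro w hw
    by_cases h : R.Adj v w
    · left; exact h
    · right
      show Rᶜ.Adj v w
      rw [SimpleGraph.compl_adj]
      exact ⟨fun h' => hw (by simp [h']), h⟩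
  have hunion : {v | {w | R.Adj v w} ∈ p} ∪ {v | {w | Rᶜ.Adj v w} ∈ p} ∈ p := by
    refine Filter.mem_of_superset Filter.univ_mem ?_
    intro v _
    exact hdich v
  rcases Ultrafilter.union_mem_iff.1 hunion with h | h
  · obtain ⟨m, S, hS, hcard, hcl, hrich⟩ := block_aux R T Y p hmeet h
    exact (hY2 m S hS hcard hcl).1 hrich
  · obtain ⟨m, S, hS, hcard, hcl, hrich⟩ := block_aux Rᶜ T Y p hmeet h
    rw [compl_compl] at hcl
    exact (hY2 m S hS hcard hcl.symm).2 hrich

end Pool.Agent.R66.RD
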