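import Mathlib
import Pool.Agent.R66.RD.Blocks

/-!
Copies of a finite graph inside a colour class, and the assembly of an infinite family of disjoint
copies from finite packings.
-/

namespace Pool.Agent.R66.RD

open Filter Set

variable {V : Type*}

/-- `φ` is an injective homomorphism from `F` to `G`. -/
def IsCopy (F : SimpleGraph V) (G : SimpleGraph ℕ) (φ : V → ℕ) : Prop :=
  Function.Injective φ ∧ ∀ x y, F.Adj x y → G.Adj (φ x) (φ y)

/-- `W` can be covered by a copy of `F` all of whose other vertices avoid a given finite set. -/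
def Doable (F : SimpleGraph V) (G : SimpleGraph ℕ) (W : Finset ℕ) : Prop :=
  ∀ U : Finset ℕ, ∃ φ : V → ℕ, IsCopy F G φ ∧ (W : Set ℕ) ⊆ Set.range φ ∧
    ∀ x, φ x ∉ W → φ x ∉ U

/-- General construction of copies. -/
theorem doable_of_parts [Fintype V] [DecidableEq V] (F : SimpleGraph V) (G : SimpleGraph ℕ)
    (P Q : Finset V) (J Y : Finset ℕ) (hPQ : Disjoint P Q) (hJY : Disjoint J Y)
    (hP : ∀ x ∈ P, ∀ y, F.Adj x y → y ∈ Q)
    (hJc : J.card = P.card) (hYc : Y.card = Q.card)
    (hYcl : G.IsClique (Y : Set ℕ)) (hadj : ∀ y ∈ Y, ∀ j ∈ J, G.Adj y j)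
    (hK : ∀ U : Finset ℕ, ∃ K : Finset ℕ, (K : Set ℕ) ⊆ CN G Y ∧ G.IsClique (K : Set ℕ) ∧
      K.card = (P ∪ Q)ᶜ.card ∧ Disjoint K U) :
    Doable F G (Y ∪ J) := by
  classical
  intro U
  obtain ⟨K, hK1, hK2, hK3, hK4⟩ := hK (U ∪ (Y ∪ J))
  have hKU : Disjoint K U := hK4.mono_right Finset.subset_union_left
  have hKYJ : Disjoint K (Y ∪ J) := hK4.mono_right Finset.subset_union_right
  let eP : P ≃ J := Finset.equivOfCardEq hJc.symm
  let eQ : Q ≃ Y := Finset.equivOfCardEq hYc.symm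
  let eK : ((P ∪ Q)ᶜ : Finset V) ≃ K := Finset.equivOfCardEq hK3.symm
  have hmem : ∀ x : V, x ∉ P → x ∉ Q → x ∈ (P ∪ Q)ᶜ := by
    intro x h1 h2
    simp [h1, h2]
  let φ : V → ℕ := fun x =>
    if h1 : x ∈ P then (eP ⟨x, h1⟩ : ℕ) else if h2 : x ∈ Q then (eQ ⟨x, h2⟩ : ℕ)
    else (eK ⟨x, hmem x h1 h2⟩ : ℕ)
  have φP : ∀ x (h : x ∈ P), φ x = eP ⟨x, h⟩ := fun x h => by simp only [φ, dif_pos h]
  have φQ : ∀ x (h : x ∈ Q), φ x = eQ ⟨x, h⟩ := fun x h => by
    have h' : x ∉ P := fun h1 => (Finset.disjoint_left.1 hPQ h1) h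
    simp only [φ, dif_neg h', dif_pos h]
  have φK : ∀ x (h1 : x ∉ P) (h2 : x ∉ Q), φ x = eK ⟨x, hmem x h1 h2⟩ := fun x h1 h2 => by
    simp only [φ, dif_neg h1, dif_neg h2]
  have φPJ : ∀ x, x ∈ P → φ x ∈ J := fun x h => by rw [φP x h]; exact (eP ⟨x, h⟩).2
  have φQY : ∀ x, x ∈ Q → φ x ∈ Y := fun x h => by rw [φQ x h]; exact (eQ ⟨x, h⟩).2
  have φKK : ∀ x, x ∉ P → x ∉ Q → φ x ∈ K := fun x h1 h2 => by
    rw [φK x h1 h2]; exact (eK _).2
  have hJY' : ∀ a, a ∈ J → a ∉ Y := fun a ha => Finset.disjoint_left.1 hJY ha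
  have hKY' : ∀ a, a ∈ K → a ∉ Y := fun a h1 h2 =>
    Finset.disjoint_left.1 hKYJ h1 (Finset.mem_union_left _ h2)
  have hKJ' : ∀ a, a ∈ K → a ∉ J := fun a h1 h2 =>
    Finset.disjoint_left.1 hKYJ h1 (Finset.mem_union_right _ h2)
  have hinj : Function.Injective φ := by
    intro x y hxy
    by_cases hx : x ∈ P
    · by_cases hy : y ∈ P
      · rw [φP x hx, φP y hy] at hxy
        have := eP.injective (Subtype.ext hxy)
        simpa using this
      · exfalso
        have h1 := φPJ x hx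
        by_cases hy2 : y ∈ Q
        · exact hJY' _ h1 (hxy ▸ φQY y hy2)
        · exact hKJ' _ (φKK y hy hy2) (hxy ▸ h1)
    · by_cases hx2 : x ∈ Q
      · by_cases hy : y ∈ P
        · exfalso
          exact hJY' _ (φPJ y hy) (hxy ▸ φQY x hx2)
        · by_cases hy2 : y ∈ Q
          · rw [φQ x hx2, φQ y hy2] at hxy
            have := eQ.injective (Subtype.ext hxy)
            simpa using this
          · exfalso
            exact hKY' _ (φKK y hy hy2) (hxy ▸ φQY x hx2)
      · by_cases hy : y ∈ P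
        · exfalso
          exact hKJ' _ (φKK x hx hx2) (hxy ▸ φPJ y hy)
        · by_cases hy2 : y ∈ Q
          · exfalso
            exact hKY' _ (φKK x hx hx2) (hxy ▸ φQY y hy2)
          · rw [φK x hx hx2, φK y hy hy2] at hxy
            have := eK.injective (Subtype.ext hxy)
            simpa using this
  have hhom : ∀ x y, F.Adj x y → G.Adj (φ x) (φ y) := by
    intro x y hxy
    have hne : φ x ≠ φ y := fun h => hxy.ne (hinj h)
    by_cases hx : x ∈ P
    · have hy : y ∈ Q := hP x hx y hxy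
      exact (hadj _ (φQY y hy) _ (φPJ x hx)).symm
    · by_cases hy : y ∈ P
      · have hx' : x ∈ Q := hP y hy x hxy.symm
        exact hadj _ (φQY x hx') _ (φPJ y hy)
      · by_cases hx2 : x ∈ Q
        · by_cases hy2 : y ∈ Q
          · exact hYcl (φQY x hx2) (φQY y hy2) hne
          · exact hK1 (φKK y hy hy2) _ (φQY x hx2)
        · by_cases hy2 : y ∈ Q
          · exact (hK1 (φKK x hx hx2) _ (φQY y hy2)).symm
          · exact hK2 (φKK x hx hx2) (φKK y hy hy2) hne
  refine ⟨φ, ⟨hinj, hhom⟩, ?_, ?_⟩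
  · intro w hw
    rw [Finset.coe_union] at hw
    rcases hw with hw | hw
    · refine ⟨(eQ.symm ⟨w, hw⟩ : V), ?_⟩
      rw [φQ _ (eQ.symm ⟨w, hw⟩).2]
      simp
    · refine ⟨(eP.symm ⟨w, hw⟩ : V), ?_⟩
      rw [φP _ (eP.symm ⟨w, hw⟩).2]
      simp
  · intro x hx hxU
    by_cases h1 : x ∈ P
    · exact hx (Finset.mem_union_right _ (φPJ x h1))
    · by_cases h2 : x ∈ Q
      · exact hx (Finset.mem_union_left _ (φQY x h2))
      · exact Finset.disjoint_left.1 hKU (φKK x h1 h2) hxU

/-- A single vertex of a rich block can be covered. -/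
theorem doable_singleton [Fintype V] [Nonempty V] (F : SimpleGraph V) (G : SimpleGraph ℕ)
    {S : Finset ℕ} (hS : Rich G S) {v : ℕ} (hv : v ∈ S) : Doable F G {v} := by
  classical
  obtain ⟨x0⟩ := ‹Nonempty V›
  have h := doable_of_parts F G ∅ {x0} ∅ {v} (by simp) (by simp) (by simp) (by simp) (by simp)
    (by simp) (by simp) (by
      intro U
      have h1 : Large G (CN G {v}) := Rich.mono (by simpa using hv) hS
      exact h1.fresh U _)
  simpa using h

/-- A clique of size `|V|` can be covered. -/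
theorem doable_clique [Fintype V] (F : SimpleGraph V) (G : SimpleGraph ℕ)
    {S : Finset ℕ} (hS : G.IsClique (S : Set ℕ)) (hc : S.card = Fintype.card V) :
    Doable F G S := by
  classical
  have h := doable_of_parts F G ∅ Finset.univ ∅ S (by simp) (by simp) (by simp) (by simp)
    (by rw [hc, Finset.card_univ]) hS (by simp) (by
      intro U
      exact ⟨∅, by simp, by simp, by simp, by simp⟩)
  simpa using h

/-- Every vertex can be covered when `F` has an isolated vertex. -/
theorem doable_isolated [Fintype V] (F : SimpleGraph V) (G : SimpleGraph ℕ)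
    (hG : Large G Set.univ) (x0 : V) (hx0 : ∀ y, ¬ F.Adj x0 y) (v : ℕ) : Doable F G {v} := by
  classical
  have h := doable_of_parts F G {x0} ∅ {v} ∅ (by simp) (by simp)
    (by
      intro x hx y hxy
      rw [Finset.mem_singleton] at hx
      subst hx
      exact absurd hxy (hx0 y)) (by simp) (by simp)
    (by simp) (by simp) (by
      intro U
      have : CN G ∅ = Set.univ := by
        ext w; simp [CN]
      rw [this]
      exact hG.fresh U _)
  simpa using h

/-- A configuration `(Y, J)` can be covered. -/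
theorem doable_config [Fintype V] [DecidableEq V] (F : SimpleGraph V) (G : SimpleGraph ℕ)
    {P Q : Finset V} (hPQ : Disjoint P Q) (hP : ∀ x ∈ P, ∀ y, F.Adj x y → y ∈ Q)
    {S Y J : Finset ℕ} (hSR : Rich G S) (hScl : G.IsClique (S : Set ℕ)) (hYS : Y ⊆ S)
    (hJY : Disjoint J Y) (hJc : J.card = P.card) (hYc : Y.card = Q.card)
    (hadj : ∀ y ∈ Y, ∀ j ∈ J, G.Adj y j) : Doable F G (Y ∪ J) := by
  refine doable_of_parts F G P Q J Y hPQ hJY hP hJc hYc (hScl.subset (by exact_mod_cast hYS)) hadj ?_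
  intro U
  have h1 : Large G (CN G Y) := Rich.mono hYS hSR
  exact h1.fresh U _

/-- A set of copies of `F` in `G` with disjoint ranges. -/
def Valid (F : SimpleGraph V) (G : SimpleGraph ℕ) (C : Set (V → ℕ)) : Prop :=
  (∀ φ ∈ C, IsCopy F G φ) ∧ C.PairwiseDisjoint (fun φ => Set.range φ)

/-- The vertices used by a set of maps. -/
def used (C : Set (V → ℕ)) : Set ℕ := ⋃ φ ∈ C, Set.range φ

theorem used_mono {C C' : Set (V → ℕ)} (h : C ⊆ C') : used C ⊆ used C' :=
  Set.biUnion_subset_biUnion_left h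

theorem used_finite [Finite V] {C : Set (V → ℕ)} (hC : C.Finite) : (used C).Finite :=
  hC.biUnion (fun φ _ => Set.finite_range φ)

theorem add_tasks [Finite V] (F : SimpleGraph V) (G : SimpleGraph ℕ) (C : Set (V → ℕ))
    (hC : Valid F G C) (hCf : C.Finite) (𝒲 : Finset (Finset ℕ)) :
    (∀ W ∈ 𝒲, Doable F G W) → ((𝒲 : Set (Finset ℕ)).PairwiseDisjoint id) →
    (∀ W ∈ 𝒲, Disjoint (W : Set ℕ) (used C)) →
    ∀ U : Finset ℕ, ∃ C' : Set (V → ℕ), C ⊆ C' ∧ C'.Finite ∧ Valid F G C' ∧
      (∀ W ∈ 𝒲, (W : Set ℕ) ⊆ used C') ∧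
      (∀ u ∈ used C', u ∈ used C ∨ (∃ W ∈ 𝒲, u ∈ W) ∨ u ∉ U) := by
  classical
  induction 𝒲 using Finset.induction_on with
  | empty =>
    intro _ _ _ U
    exact ⟨C, le_rfl, hCf, hC, by simp, fun u hu => Or.inl hu⟩
  | insert W 𝒲 hW ih =>
    intro h1 h2 h3 U
    obtain ⟨C1, hC1, hf1, hv1, hcov1, hav1⟩ := ih
      (fun W' hW' => h1 W' (Finset.mem_insert_of_mem hW'))
      (h2.subset (by intro x hx; exact Finset.mem_insert_of_mem hx))
      (fun W' hW' => h3 W' (Finset.mem_insert_of_mem hW')) (U ∪ W)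
    have hWd : Disjoint (W : Set ℕ) (used C1) := by
      rw [Set.disjoint_left]
      intro u huW huC
      rcases hav1 u huC with h | ⟨W', hW', h⟩ | h
      · exact Set.disjoint_left.1 (h3 W (Finset.mem_insert_self _ _)) huW h
      · have hne : W ≠ W' := by
          rintro rfl
          exact hW hW'
        have := h2 (Finset.mem_coe.2 (Finset.mem_insert_self _ _))
          (Finset.mem_coe.2 (Finset.mem_insert_of_mem hW')) hne
        exact Finset.disjoint_left.1 this huW h
      · exact h (Finset.mem_union_right _ huW)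
    have hfu : (used C1).Finite := used_finite hf1
    obtain ⟨φ, hφ, hφW, hφU⟩ := h1 W (Finset.mem_insert_self _ _) (U ∪ hfu.toFinset)
    have hφd : Disjoint (Set.range φ) (used C1) := by
      rw [Set.disjoint_left]
      rintro _ ⟨x, rfl⟩ hx
      by_cases hxW : φ x ∈ W
      · exact Set.disjoint_left.1 hWd hxW hx
      · exact hφU x hxW (Finset.mem_union_right _ (by simpa using hx))
    refine ⟨insert φ C1, hC1.trans (Set.subset_insert _ _), hf1.insert _, ⟨?_, ?_⟩, ?_, ?_⟩
    · intro ψ hψ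
      rcases hψ with rfl | hψ
      · exact hφ
      · exact hv1.1 ψ hψ
    · refine hv1.2.insert ?_
      intro ψ hψ _
      refine hφd.mono_right ?_
      exact Set.subset_biUnion_of_mem (u := fun φ : V → ℕ => Set.range φ) hψ
    · intro W' hW'
      rcases Finset.mem_insert.1 hW' with rfl | hW'
      · refine hφW.trans ?_
        exact Set.subset_biUnion_of_mem (u := fun φ : V → ℕ => Set.range φ)
          (Set.mem_insert _ _)
      · exact (hcov1 W' hW').trans (used_mono (Set.subset_insert _ _))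
    · intro u hu
      rw [used, Set.biUnion_insert] at hu
      rcases hu with ⟨x, rfl⟩ | hu
      · by_cases hxW : φ x ∈ W
        · exact Or.inr (Or.inl ⟨W, Finset.mem_insert_self _ _, hxW⟩)
        · refine Or.inr (Or.inr ?_)
          intro h
          exact hφU x hxW (Finset.mem_union_left _ h)
      · rcases hav1 u hu with h | ⟨W', hW', h⟩ | h
        · exact Or.inl h
        · exact Or.inr (Or.inl ⟨W', Finset.mem_insert_of_mem hW', h⟩)
        · exact Or.inr (Or.inr (fun h' => h (Finset.mem_union_left _ h')))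

/-- One stage of the construction. -/
theorem stage [Fintype V] (F : SimpleGraph V) (G : SimpleGraph ℕ) (μ μ' : ℝ) (hμ : μ' < μ)
    (hG : ∀ c : ℕ, ∃ n ≥ c, ∃ 𝒲 : Finset (Finset ℕ), (𝒲 : Set (Finset ℕ)).PairwiseDisjoint id ∧
      (∀ W ∈ 𝒲, Doable F G W ∧ W.card ≤ Fintype.card V) ∧
      μ * n ≤ ((𝒲.biUnion id ∩ Finset.range n).card : ℝ))
    (C : Set (V → ℕ)) (hC : Valid F G C) (hCf : C.Finite) (c : ℕ) :
    ∃ n ≥ c, ∃ C' : Set (V → ℕ), C ⊆ C' ∧ C'.Finite ∧ Valid F G C' ∧
      μ' * n ≤ ((used C' ∩ Set.Iio n).ncard : ℝ) := by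
  classical
  have hfu : (used C).Finite := used_finite hCf
  set U : Finset ℕ := hfu.toFinset with hU
  have hpos : 0 < μ - μ' := by linarith
  obtain ⟨c1, hc1⟩ := exists_nat_ge ((U.card * Fintype.card V : ℕ) / (μ - μ'))
  obtain ⟨n, hn, 𝒲, hd, hW, hcov⟩ := hG (max c c1)
  have hnc : c ≤ n := (le_max_left _ _).trans hn
  have hnc1 : c1 ≤ n := (le_max_right _ _).trans hn
  set 𝒲1 := 𝒲.filter (fun W => Disjoint W U) with h𝒲1
  set 𝒲2 := 𝒲.filter (fun W => ¬ Disjoint W U) with h𝒲2
  have hcard2 : 𝒲2.card ≤ U.card := by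
    have hex : ∀ W ∈ 𝒲2, ∃ u, u ∈ W ∧ u ∈ U := by
      intro W hW
      rw [h𝒲2, Finset.mem_filter, Finset.not_disjoint_iff] at hW
      exact hW.2
    choose! f hf1 hf2 using hex
    refine Finset.card_le_card_of_injOn f hf2 ?_
    intro W hW W' hW' heq
    by_contra hne
    have h1 : W ∈ 𝒲 := (Finset.mem_filter.1 hW).1
    have h2 : W' ∈ 𝒲 := (Finset.mem_filter.1 hW').1
    have := hd h1 h2 hne
    exact Finset.disjoint_left.1 this (hf1 W hW) (heq ▸ hf1 W' hW')
  have hbig2 : (𝒲2.biUnion id).card ≤ U.card * Fintype.card V := by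
    refine (Finset.card_biUnion_le_card_mul _ _ (Fintype.card V) ?_).trans ?_
    · intro W hW'
      exact (hW W (Finset.mem_filter.1 hW').1).2
    · exact Nat.mul_le_mul_right _ hcard2
  have hsplit : (𝒲.biUnion id ∩ Finset.range n).card ≤
      (𝒲1.biUnion id ∩ Finset.range n).card + U.card * Fintype.card V := by
    have hsub : 𝒲.biUnion id ∩ Finset.range n ⊆
        (𝒲1.biUnion id ∩ Finset.range n) ∪ 𝒲2.biUnion id := by
      intro u hu
      rw [Finset.mem_inter, Finset.mem_biUnion] at hu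
      obtain ⟨⟨W, hW1, hW2⟩, hu2⟩ := hu
      rw [Finset.mem_union]
      by_cases h : Disjoint W U
      · left
        rw [Finset.mem_inter]
        exact ⟨Finset.mem_biUnion.2 ⟨W, Finset.mem_filter.2 ⟨hW1, h⟩, hW2⟩, hu2⟩
      · right
        exact Finset.mem_biUnion.2 ⟨W, Finset.mem_filter.2 ⟨hW1, h⟩, hW2⟩
    refine (Finset.card_le_card hsub).trans ((Finset.card_union_le _ _).trans ?_)
    exact Nat.add_le_add_left hbig2 _
  obtain ⟨C', hC', hf', hv', hcov', _⟩ := add_tasks F G C hC hCf 𝒲1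
    (fun W hW' => (hW W (Finset.mem_filter.1 hW').1).1)
    (hd.subset (by intro W hW'; exact (Finset.mem_filter.1 hW').1))
    (by
      intro W hW'
      have h1 := (Finset.mem_filter.1 hW').2
      rw [Set.disjoint_left]
      intro u hu hu'
      exact Finset.disjoint_left.1 h1 hu (by rw [hU]; simpa using hu')) ∅
  refine ⟨n, hnc, C', hC', hf', hv', ?_⟩
  have h1 : ((𝒲1.biUnion id ∩ Finset.range n : Finset ℕ) : Set ℕ) ⊆ used C' ∩ Set.Iio n := by
    intro u hu
    rw [Finset.mem_coe, Finset.mem_inter, Finset.mem_biUnion, Finset.mem_range] at hu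
    obtain ⟨⟨W, hW1, hW2⟩, hu2⟩ := hu
    exact ⟨hcov' W hW1 hW2, hu2⟩
  have h2 : (𝒲1.biUnion id ∩ Finset.range n).card ≤ (used C' ∩ Set.Iio n).ncard := by
    rw [← Set.ncard_coe_finset]
    exact Set.ncard_le_ncard h1 ((Set.finite_Iio n).subset Set.inter_subset_right)
  have h3 : ((𝒲.biUnion id ∩ Finset.range n).card : ℝ) ≤
      ((used C' ∩ Set.Iio n).ncard : ℝ) + (U.card * Fintype.card V : ℕ) := by
    have : (𝒲.biUnion id ∩ Finset.range n).card ≤
      (used C' ∩ Set.Iio n).ncard + U.card * Fintype.card V := by omega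
    exact_mod_cast this
  have h4 : ((U.card * Fintype.card V : ℕ) : ℝ) ≤ (μ - μ') * n := by
    rw [div_le_iff₀ hpos] at hc1
    have : (c1 : ℝ) ≤ n := by exact_mod_cast hnc1
    nlinarith
  linarith

end Pool.Agent.R66.RD
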