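import Mathlib

/-!
Definitions for the Ramsey upper density of infinite graph factors.

The vertices of the complete graph on the natural numbers are `0, 1, 2, …`, so that the first `t`
vertices are `0, …, t - 1`. A red/blue colouring is a graph `R` (the red edges); the blue edges are
those of the complement `Rᶜ`.
-/

namespace Pool.Agent.R66.RD

open Filter

/-- The upper density of a set of vertices. -/
noncomputable def upperDensity (S : Set ℕ) : ℝ :=
  limsup (fun t : ℕ => ((S ∩ Set.Iio t).ncard : ℝ) / t) atTop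

/-- The disjoint union of countably infinitely many copies of `F`. -/
def omegaFactor {V : Type*} (F : SimpleGraph V) : SimpleGraph (ℕ × V) where
  Adj p q := p.1 = q.1 ∧ F.Adj p.2 q.2
  symm := ⟨fun _ _ h => ⟨h.1.symm, h.2.symm⟩⟩
  loopless := ⟨fun _ h => h.2.ne rfl⟩

/-- `φ` embeds `H` as a monochromatic subgraph of the complete graph coloured by `R`: it is
injective, and it maps all edges of `H` to red edges or all edges of `H` to blue edges. The
vertex set of the copy is the range of `φ`. -/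
def IsMonoCopy {W : Type*} (H : SimpleGraph W) (R : SimpleGraph ℕ) (φ : W → ℕ) : Prop :=
  Function.Injective φ ∧
    ((∀ x y, H.Adj x y → R.Adj (φ x) (φ y)) ∨ (∀ x y, H.Adj x y → Rᶜ.Adj (φ x) (φ y)))

/-- The Ramsey upper density of `H`. -/
noncomputable def ramseyUpperDensity {W : Type*} (H : SimpleGraph W) : ℝ :=
  sSup {l : ℝ | ∀ R : SimpleGraph ℕ, ∃ φ : W → ℕ, IsMonoCopy H R φ ∧
    l ≤ upperDensity (Set.range φ)}

/-- The set of vertices adjacent to at least one vertex of `I`. -/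
def nbhd {V : Type*} (F : SimpleGraph V) (I : Finset V) : Set V := {v | ∃ u ∈ I, F.Adj u v}

/-- `m(F)`: the minimum of `|N(I)| / |I|` over nonempty independent sets `I`. -/
noncomputable def minRatio {V : Type*} (F : SimpleGraph V) : ℝ :=
  sInf {q : ℝ | ∃ I : Finset V, I.Nonempty ∧ (∀ u ∈ I, ∀ v ∈ I, ¬ F.Adj u v) ∧
    q = ((nbhd F I).ncard : ℝ) / (I.card : ℝ)}

/-- The least `x ≥ 0` with `γ x + g x ≥ t`, or infinity. -/
noncomputable def gammaPlus (γ : ℝ) (g : ℝ → ℝ) (t : ℝ) : ENNReal :=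
  ⨅ x : {x : ℝ // 0 ≤ x ∧ t ≤ γ * x + g x}, ENNReal.ofReal x

/-- The least `x ≥ 0` with `γ x - g x ≥ t`, or infinity. -/
noncomputable def gammaMinus (γ : ℝ) (g : ℝ → ℝ) (t : ℝ) : ENNReal :=
  ⨅ x : {x : ℝ // 0 ≤ x ∧ t ≤ γ * x - g x}, ENNReal.ofReal x

/-- The function `h(γ)`: the infimum over all 1-Lipschitz `g` on `[0, ∞)` with `g 0 = 0`. -/
noncomputable def hFun (γ : ℝ) : ENNReal :=
  ⨅ g : {g : ℝ → ℝ // LipschitzOnWith 1 g (Set.Ici 0) ∧ g 0 = 0},
    limsup (fun t : ℝ => (gammaPlus γ g t + gammaMinus γ g t) / ENNReal.ofReal t) atTop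

/-- The function `f(λ)`. -/
noncomputable def fFun (l : ℝ) : ℝ :=
  if l = 0 then 1 else
    1 - ((ENNReal.ofReal (2 * l / (1 + l) ^ 2) * hFun ((l - 1) / (l + 1)) +
      ENNReal.ofReal (2 * l / (1 + l)))⁻¹).toReal

end Pool.Agent.R66.RD
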