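import Mathlib
import Pool.Agent.R66.RD.Copies
import Pool.Agent.R66.RD.Defs

namespace Pool.Agent.R66.RD

open Filter Set

variable {V : Type*}

theorem density_bdd (S : Set ℕ) (t : ℕ) : ((S ∩ Set.Iio t).ncard : ℝ) / t ≤ 1 := by
  have h1 : (S ∩ Set.Iio t).ncard ≤ t := by
    refine (Set.ncard_le_ncard Set.inter_subset_right (Set.finite_Iio t)).trans ?_
    rw [← Finset.coe_Iio, Set.ncard_coe_finset]
    simp
  rcases Nat.eq_zero_or_pos t with h | h
  · simp [h]
  · rw [div_le_one (by exact_mod_cast h)]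
    exact_mod_cast h1

theorem le_upperDensity {S : Set ℕ} {μ : ℝ}
    (h : ∀ c : ℕ, ∃ n ≥ c, μ * n ≤ ((S ∩ Set.Iio n).ncard : ℝ)) : μ ≤ upperDensity S := by
  unfold upperDensity
  refine le_limsup_of_frequently_le ?_ ?_
  · rw [Filter.frequently_atTop]
    intro c
    obtain ⟨n, hn, hμ⟩ := h (c + 1)
    refine ⟨n, by omega, ?_⟩
    have hpos : (0 : ℝ) < n := by
      have : 0 < n := by omega
      exact_mod_cast this
    rw [le_div_iff₀ hpos]
    exact hμ
  · exact ⟨1, by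
      rw [Filter.eventually_map]
      exact Filter.Eventually.of_forall (fun t => density_bdd S t)⟩

theorem upperDensity_le_one (S : Set ℕ) : upperDensity S ≤ 1 := by
  unfold upperDensity
  refine limsup_le_of_le ?_ (Filter.Eventually.of_forall (fun t => density_bdd S t))
  refine ⟨0, fun a ha => ?_⟩
  rw [Filter.eventually_map] at ha
  obtain ⟨t, ht⟩ := ha.exists
  exact le_trans (by positivity) ht

/-- Assembling the finite stages. -/
theorem assemble [Fintype V] [Nonempty V] (F : SimpleGraph V) (G : SimpleGraph ℕ) (μ μ' : ℝ)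
    (hμ0 : 0 < μ') (hμ : μ' < μ)
    (hG : ∀ c : ℕ, ∃ n ≥ c, ∃ 𝒲 : Finset (Finset ℕ), (𝒲 : Set (Finset ℕ)).PairwiseDisjoint id ∧
      (∀ W ∈ 𝒲, Doable F G W ∧ W.card ≤ Fintype.card V) ∧
      μ * n ≤ ((𝒲.biUnion id ∩ Finset.range n).card : ℝ)) :
    ∃ φ : ℕ × V → ℕ, Function.Injective φ ∧
      (∀ x y, (omegaFactor F).Adj x y → G.Adj (φ x) (φ y)) ∧
      μ' ≤ upperDensity (Set.range φ) := by
  classical
  let X := {C : Set (V → ℕ) // Valid F G C ∧ C.Finite}
  have hstep : ∀ (C : X) (c : ℕ), ∃ (n : ℕ) (C' : X), c ≤ n ∧ C.1 ⊆ C'.1 ∧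
      μ' * n ≤ ((used C'.1 ∩ Set.Iio n).ncard : ℝ) := by
    intro C c
    obtain ⟨n, hn, C', h1, h2, h3, h4⟩ := stage F G μ μ' hμ hG C.1 C.2.1 C.2.2 c
    exact ⟨n, ⟨C', h3, h2⟩, hn, h1, h4⟩
  choose N nxt hN hsub hdens using hstep
  let seq : ℕ → X := fun k => Nat.rec ⟨∅, ⟨by simp, by simp⟩, Set.finite_empty⟩
    (fun k C => nxt C k) k
  have hseq : ∀ k, seq (k + 1) = nxt (seq k) k := fun k => rfl
  have hmono : Monotone (fun k => (seq k).1) := by
    refine monotone_nat_of_le_succ ?_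
    intro k
    show (seq k).1 ⊆ (seq (k + 1)).1
    rw [hseq]
    exact hsub _ _
  set C : Set (V → ℕ) := ⋃ k, (seq k).1 with hC
  have hCk : ∀ k, (seq k).1 ⊆ C := fun k => Set.subset_iUnion (fun k => (seq k).1) k
  have hvalid : Valid F G C := by
    refine ⟨?_, ?_⟩
    · intro φ hφ
      obtain ⟨k, hk⟩ := Set.mem_iUnion.1 hφ
      exact (seq k).2.1.1 φ hk
    · intro φ hφ ψ hψ hne
      obtain ⟨k, hk⟩ := Set.mem_iUnion.1 hφ
      obtain ⟨k', hk'⟩ := Set.mem_iUnion.1 hψ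
      have h1 : φ ∈ (seq (max k k')).1 := hmono (le_max_left _ _) hk
      have h2 : ψ ∈ (seq (max k k')).1 := hmono (le_max_right _ _) hk'
      exact (seq (max k k')).2.1.2 h1 h2 hne
  have hdensC : ∀ c : ℕ, ∃ n ≥ c, μ' * n ≤ ((used C ∩ Set.Iio n).ncard : ℝ) := by
    intro c
    refine ⟨N (seq c) c, hN _ _, ?_⟩
    refine (hdens (seq c) c).trans ?_
    have h1 : used (nxt (seq c) c).1 ⊆ used C := by
      rw [← hseq]
      exact used_mono (hCk (c + 1))
    have h2 : (used (nxt (seq c) c).1 ∩ Set.Iio (N (seq c) c)).ncard ≤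
        (used C ∩ Set.Iio (N (seq c) c)).ncard :=
      Set.ncard_le_ncard (Set.inter_subset_inter_left _ h1)
        ((Set.finite_Iio _).subset Set.inter_subset_right)
    exact_mod_cast h2
  have hinf : C.Infinite := by
    intro hfin
    have hfu : (used C).Finite := used_finite hfin
    obtain ⟨c, hc⟩ := exists_nat_gt ((used C).ncard / μ')
    obtain ⟨n, hn, hμn⟩ := hdensC c
    rw [div_lt_iff₀ hμ0] at hc
    have h1 : (used C ∩ Set.Iio n).ncard ≤ (used C).ncard :=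
      Set.ncard_le_ncard Set.inter_subset_left hfu
    have h2 : ((used C ∩ Set.Iio n).ncard : ℝ) ≤ (used C).ncard := by exact_mod_cast h1
    have h3 : (c : ℝ) ≤ n := by exact_mod_cast hn
    nlinarith
  have hcount : C.Countable := by
    rw [hC]
    exact Set.countable_iUnion (fun k => (seq k).2.2.countable)
  haveI : Infinite C := hinf.to_subtype
  haveI : Countable C := hcount.to_subtype
  obtain ⟨hden⟩ := nonempty_denumerable C
  let e : ℕ ≃ C := (Denumerable.eqv C).symm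
  refine ⟨fun p => (e p.1 : V → ℕ) p.2, ?_, ?_, ?_⟩
  · rintro ⟨i, x⟩ ⟨j, y⟩ hxy
    simp only at hxy
    by_cases hij : i = j
    · subst hij
      have := (hvalid.1 _ (e i).2).1 hxy
      rw [this]
    · exfalso
      have hne : (e i : V → ℕ) ≠ (e j : V → ℕ) := fun h => hij (e.injective (Subtype.ext h))
      have := hvalid.2 (e i).2 (e j).2 hne
      exact Set.disjoint_left.1 this ⟨x, rfl⟩ ⟨y, hxy.symm⟩
  · rintro ⟨i, x⟩ ⟨j, y⟩ ⟨h1, h2⟩
    simp only at h1 h2 ⊢
    subst h1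
    exact (hvalid.1 _ (e i).2).2 x y h2
  · have hr : Set.range (fun p : ℕ × V => (e p.1 : V → ℕ) p.2) = used C := by
      ext u
      constructor
      · rintro ⟨⟨i, x⟩, rfl⟩
        exact Set.mem_biUnion (e i).2 ⟨x, rfl⟩
      · intro hu
        obtain ⟨ψ, hψ, x, rfl⟩ := Set.mem_iUnion₂.1 hu
        refine ⟨(e.symm ⟨ψ, hψ⟩, x), ?_⟩
        simp
    rw [hr]
    exact le_upperDensity hdensC

end Pool.Agent.R66.RD
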