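import Mathlib
import Pool.Agent.R66.RD.Defs

/-!
Compactness: if `η < h(γ)` then finitely many levels already witness it.
-/

namespace Pool.Agent.R66.RD

open Filter Set Topology

theorem compactness (γ η : ℝ) (hη0 : 0 ≤ η) (hη : ENNReal.ofReal η < hFun γ) :
    ∃ 𝒯 : Finset ℝ, (∀ t ∈ 𝒯, 0 < t) ∧ ∀ g : ℝ → ℝ, LipschitzOnWith 1 g (Set.Ici 0) → g 0 = 0 →
      ∃ t ∈ 𝒯, ∀ x y : ℝ, 0 ≤ x → 0 ≤ y → t ≤ γ * x + g x → t ≤ γ * y - g y → η * t < x + y := by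
  classical
  by_contra hcon
  push Not at hcon
  -- counterexamples indexed by finite sets of positive reals
  let P := {t : ℝ // 0 < t}
  have hcon' : ∀ 𝒯 : Finset P, ∃ g : ℝ → ℝ, LipschitzOnWith 1 g (Set.Ici 0) ∧ g 0 = 0 ∧
      ∀ t ∈ 𝒯, ∃ x y : ℝ, 0 ≤ x ∧ 0 ≤ y ∧ (t : ℝ) ≤ γ * x + g x ∧ (t : ℝ) ≤ γ * y - g y ∧
        x + y ≤ η * t := by
    intro 𝒯
    obtain ⟨g, h1, h2, h3⟩ := hcon (𝒯.image Subtype.val) (by
      intro t ht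
      rw [Finset.mem_image] at ht
      obtain ⟨t', _, rfl⟩ := ht
      exact t'.2)
    exact ⟨g, h1, h2, fun t ht => h3 t (Finset.mem_image_of_mem _ ht)⟩
  choose g hgL hg0 hgt using hcon'
  have hgt' : ∀ (𝒯 : Finset P) (t : P), ∃ x y : ℝ, t ∈ 𝒯 → (0 ≤ x ∧ 0 ≤ y ∧
      (t : ℝ) ≤ γ * x + g 𝒯 x ∧ (t : ℝ) ≤ γ * y - g 𝒯 y ∧ x + y ≤ η * t) := by
    intro 𝒯 t
    by_cases h : t ∈ 𝒯
    · obtain ⟨x, y, hxy⟩ := hgt 𝒯 t h
      exact ⟨x, y, fun _ => hxy⟩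
    · exact ⟨0, 0, fun h' => absurd h' h⟩
  choose X Y hXY using hgt'
  set U : Ultrafilter (Finset P) := Ultrafilter.of atTop with hU
  have hUle : (U : Filter (Finset P)) ≤ atTop := Ultrafilter.of_le _
  have hLip : ∀ (𝒯 : Finset P) (x y : ℝ), 0 ≤ x → 0 ≤ y → |g 𝒯 x - g 𝒯 y| ≤ |x - y| := by
    intro 𝒯 x y hx hy
    have := (hgL 𝒯).dist_le_mul x hx y hy
    simpa [Real.dist_eq] using this
  have hbd : ∀ (𝒯 : Finset P) (x : ℝ), 0 ≤ x → g 𝒯 x ∈ Set.Icc (-x) x := by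
    intro 𝒯 x hx
    have := hLip 𝒯 x 0 hx le_rfl
    rw [hg0 𝒯, sub_zero, sub_zero, abs_of_nonneg hx] at this
    exact abs_le.1 this
  have hlim : ∀ x : ℝ, ∃ l : ℝ, 0 ≤ x → Tendsto (fun 𝒯 => g 𝒯 x) U (𝓝 l) := by
    intro x
    by_cases hx : 0 ≤ x
    · have h1 : (U.map (fun 𝒯 => g 𝒯 x) : Filter ℝ) ≤ 𝓟 (Set.Icc (-x) x) := by
        rw [le_principal_iff, Ultrafilter.coe_map, Filter.mem_map]
        exact Filter.mem_of_superset univ_mem (fun 𝒯 _ => hbd 𝒯 x hx)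
      obtain ⟨l, _, hl⟩ := isCompact_Icc.ultrafilter_le_nhds (U.map (fun 𝒯 => g 𝒯 x)) h1
      exact ⟨l, fun _ => hl⟩
    · exact ⟨0, fun h => absurd h hx⟩
  choose G hG using hlim
  have hGL : LipschitzOnWith 1 G (Set.Ici 0) := by
    refine LipschitzOnWith.of_dist_le_mul ?_
    intro x hx y hy
    rw [NNReal.coe_one, one_mul, Real.dist_eq, Real.dist_eq]
    have h1 : Tendsto (fun 𝒯 => |g 𝒯 x - g 𝒯 y|) U (𝓝 |G x - G y|) :=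
      ((hG x hx).sub (hG y hy)).abs
    exact le_of_tendsto h1 (Filter.Eventually.of_forall (fun 𝒯 => hLip 𝒯 x y hx hy))
  have hG0 : G 0 = 0 := by
    have h1 := hG 0 le_rfl
    have h2 : Tendsto (fun 𝒯 => g 𝒯 0) U (𝓝 0) := by
      simp only [hg0]
      exact tendsto_const_nhds
    exact tendsto_nhds_unique h1 h2
  -- levels
  have hlev : ∀ t : ℝ, 0 < t → ∃ x y : ℝ, 0 ≤ x ∧ 0 ≤ y ∧ t ≤ γ * x + G x ∧ t ≤ γ * y - G y ∧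
      x + y ≤ η * t := by
    intro t ht
    have hev : ∀ᶠ 𝒯 in (U : Filter (Finset P)), (⟨t, ht⟩ : P) ∈ 𝒯 := by
      apply hUle
      filter_upwards [Filter.eventually_ge_atTop ({⟨t, ht⟩} : Finset P)] with 𝒯 h𝒯
      exact h𝒯 (Finset.mem_singleton_self _)
    have hgood : ∀ᶠ 𝒯 in (U : Filter (Finset P)), (0 ≤ X 𝒯 ⟨t, ht⟩ ∧ 0 ≤ Y 𝒯 ⟨t, ht⟩ ∧
      t ≤ γ * X 𝒯 ⟨t, ht⟩ + g 𝒯 (X 𝒯 ⟨t, ht⟩) ∧ t ≤ γ * Y 𝒯 ⟨t, ht⟩ - g 𝒯 (Y 𝒯 ⟨t, ht⟩) ∧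
        X 𝒯 ⟨t, ht⟩ + Y 𝒯 ⟨t, ht⟩ ≤ η * t) := by
      filter_upwards [hev] with 𝒯 h𝒯
      exact hXY 𝒯 ⟨t, ht⟩ h𝒯
    have hXlim : ∃ x : ℝ, Tendsto (fun 𝒯 => X 𝒯 ⟨t, ht⟩) U (𝓝 x) := by
      have h1 : (U.map (fun 𝒯 => X 𝒯 ⟨t, ht⟩) : Filter ℝ) ≤ 𝓟 (Set.Icc 0 (η * t)) := by
        rw [le_principal_iff, Ultrafilter.coe_map, Filter.mem_map]
        filter_upwards [hgood] with 𝒯 h
        exact ⟨h.1, by linarith [h.2.1, h.2.2.2.2]⟩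
      obtain ⟨l, _, hl⟩ := isCompact_Icc.ultrafilter_le_nhds _ h1
      exact ⟨l, hl⟩
    have hYlim : ∃ y : ℝ, Tendsto (fun 𝒯 => Y 𝒯 ⟨t, ht⟩) U (𝓝 y) := by
      have h1 : (U.map (fun 𝒯 => Y 𝒯 ⟨t, ht⟩) : Filter ℝ) ≤ 𝓟 (Set.Icc 0 (η * t)) := by
        rw [le_principal_iff, Ultrafilter.coe_map, Filter.mem_map]
        filter_upwards [hgood] with 𝒯 h
        exact ⟨h.2.1, by linarith [h.1, h.2.2.2.2]⟩
      obtain ⟨l, _, hl⟩ := isCompact_Icc.ultrafilter_le_nhds _ h1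
      exact ⟨l, hl⟩
    obtain ⟨x, hx⟩ := hXlim
    obtain ⟨y, hy⟩ := hYlim
    have hx0 : 0 ≤ x := ge_of_tendsto hx (hgood.mono fun _ h => h.1)
    have hy0 : 0 ≤ y := ge_of_tendsto hy (hgood.mono fun _ h => h.2.1)
    have hconv : ∀ (Q : Finset P → ℝ) (q : ℝ), Tendsto Q U (𝓝 q) → 0 ≤ q →
        (∀ᶠ 𝒯 in (U : Filter (Finset P)), 0 ≤ Q 𝒯) →
        Tendsto (fun 𝒯 => g 𝒯 (Q 𝒯)) U (𝓝 (G q)) := by
      intro Q q hQ hq hQ0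
      have h1 : Tendsto (fun 𝒯 => g 𝒯 (Q 𝒯) - g 𝒯 q) U (𝓝 0) := by
        refine squeeze_zero_norm' (a := fun 𝒯 => |Q 𝒯 - q|) ?_ ?_
        · filter_upwards [hQ0] with 𝒯 h
          rw [Real.norm_eq_abs]
          exact hLip 𝒯 _ _ h hq
        · have h2 : Tendsto (fun 𝒯 => |Q 𝒯 - q|) U (𝓝 |q - q|) := (hQ.sub_const q).abs
          simpa using h2
      have h2 := h1.add (hG q hq)
      simpa using h2
    have hgx := hconv _ x hx hx0 (hgood.mono fun _ h => h.1)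
    have hgy := hconv _ y hy hy0 (hgood.mono fun _ h => h.2.1)
    refine ⟨x, y, hx0, hy0, ?_, ?_, ?_⟩
    · exact ge_of_tendsto ((hx.const_mul γ).add hgx) (hgood.mono fun _ h => h.2.2.1)
    · exact ge_of_tendsto ((hy.const_mul γ).sub hgy) (hgood.mono fun _ h => h.2.2.2.1)
    · exact le_of_tendsto (hx.add hy) (hgood.mono fun _ h => h.2.2.2.2)
  -- contradiction
  have hle : hFun γ ≤ ENNReal.ofReal η := by
    unfold hFun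
    refine (iInf_le _ (⟨G, hGL, hG0⟩ : {g : ℝ → ℝ // LipschitzOnWith 1 g (Set.Ici 0) ∧ g 0 = 0})).trans ?_
    refine limsup_le_of_le (by isBoundedDefault) ?_
    filter_upwards [Filter.eventually_gt_atTop (0 : ℝ)] with t ht
    obtain ⟨x, y, hx, hy, h1, h2, h3⟩ := hlev t ht
    have e1 : gammaPlus γ G t ≤ ENNReal.ofReal x :=
      iInf_le (fun z : {x : ℝ // 0 ≤ x ∧ t ≤ γ * x + G x} => ENNReal.ofReal z) ⟨x, hx, h1⟩
    have e2 : gammaMinus γ G t ≤ ENNReal.ofReal y :=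
      iInf_le (fun z : {x : ℝ // 0 ≤ x ∧ t ≤ γ * x - G x} => ENNReal.ofReal z) ⟨y, hy, h2⟩
    have ht' : ENNReal.ofReal t ≠ 0 := by
      rw [Ne, ENNReal.ofReal_eq_zero, not_le]; exact ht
    rw [ENNReal.div_le_iff ht' ENNReal.ofReal_ne_top, ← ENNReal.ofReal_mul hη0]
    calc gammaPlus γ G t + gammaMinus γ G t ≤ ENNReal.ofReal x + ENNReal.ofReal y :=
          add_le_add e1 e2
      _ = ENNReal.ofReal (x + y) := (ENNReal.ofReal_add hx hy).symm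
      _ ≤ ENNReal.ofReal (η * t) := ENNReal.ofReal_le_ofReal h3
  exact absurd hη (not_lt.2 hle)

end Pool.Agent.R66.RD
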