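import Mathlib

/-!
Packing of configurations: existence of one configuration in a dense pair, and a maximal packing
compared with a fractional matching given by Hall's theorem.
-/

namespace Pool.Agent.R66.RD

open Finset

open Classical in
/-- A dense pair contains a configuration. -/
theorem config_exists (G : SimpleGraph ℕ) (a b T M : ℕ) (H : Finset (Finset ℕ))
    (hdisj : (H : Set (Finset ℕ)).PairwiseDisjoint id) (hT : ∀ S ∈ H, S.card = T)
    (hM : ∀ S ∈ H, S ⊆ range M) (X Z : Finset ℕ) (hX : X ⊆ H.biUnion id)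
    (E : Finset (ℕ × ℕ)) (hE : E ⊆ X ×ˢ Z) (hadj : ∀ p ∈ E, G.Adj p.1 p.2)
    (hEc : ((X.card : ℝ) * Z.card) / 4 ≤ E.card) (hXs : 8 * b * M < T * X.card)
    (hZs : T * 2 ^ T * a ≤ b * Z.card) (hZ : 0 < Z.card) :
    ∃ S ∈ H, ∃ Y ⊆ S ∩ X, ∃ J ⊆ Z, Y.card = b ∧ J.card = a ∧ ∀ y ∈ Y, ∀ j ∈ J, G.Adj y j := by
  by_contra hcon
  push Not at hcon
  -- neighbourhoods
  have hN : ∀ S ∈ H, ((E.filter (fun p => p.1 ∈ S)).card) ≤ 2 * b * Z.card := by
    intro S hS
    set N : ℕ → Finset ℕ := fun v => (S ∩ X).filter (fun u => (u, v) ∈ E) with hNdef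
    have h1 : (E.filter (fun p => p.1 ∈ S)).card = ∑ v ∈ Z, (N v).card := by
      rw [Finset.card_eq_sum_card_fiberwise (f := Prod.snd) (t := Z)]
      · refine Finset.sum_congr rfl fun v _ => ?_
        refine Finset.card_bij (fun p _ => p.1) ?_ ?_ ?_
        · rintro ⟨u, w⟩ hp
          simp only [Finset.mem_filter] at hp
          obtain ⟨⟨h1, h2⟩, h3⟩ := hp
          subst h3
          simp only [hNdef, Finset.mem_filter, Finset.mem_inter]
          exact ⟨⟨h2, (Finset.mem_product.1 (hE h1)).1⟩, h1⟩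
        · rintro ⟨u, w⟩ hp ⟨u', w'⟩ hp' h
          simp only [Finset.mem_filter] at hp hp'
          simp only at h
          rw [Prod.mk.injEq]
          exact ⟨h, hp.2.trans hp'.2.symm⟩
        · intro u hu
          simp only [hNdef, Finset.mem_filter, Finset.mem_inter] at hu
          exact ⟨(u, v), by simp [hu.1.1, hu.2], rfl⟩
      · intro p hp
        rw [Finset.mem_coe, Finset.mem_filter] at hp
        exact (Finset.mem_product.1 (hE hp.1)).2
    rw [h1]
    have hNT : ∀ v, (N v).card ≤ T := by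
      intro v
      rw [← hT S hS]
      exact Finset.card_le_card ((Finset.filter_subset _ _).trans Finset.inter_subset_left)
    set Zb := Z.filter (fun v => b ≤ (N v).card) with hZb
    have h2 : ∑ v ∈ Z, (N v).card ≤ b * Z.card + T * Zb.card := by
      have h3 : ∀ v ∈ Z, (N v).card ≤ b + (if b ≤ (N v).card then T else 0) := by
        intro v _
        split_ifs with h
        · have := hNT v; omega
        · omega
      refine (Finset.sum_le_sum h3).trans ?_
      rw [Finset.sum_add_distrib, Finset.sum_const, smul_eq_mul, ← Finset.sum_filter,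
        Finset.sum_const, smul_eq_mul, mul_comm b, mul_comm T]
    have h4 : Zb.card ≤ 2 ^ T * a := by
      have h5 : Zb ⊆ (Finset.powersetCard b (S ∩ X)).biUnion
          (fun Y => Z.filter (fun v => Y ⊆ N v)) := by
        intro v hv
        rw [hZb, Finset.mem_filter] at hv
        obtain ⟨Y, hY1, hY2⟩ := Finset.exists_subset_card_eq hv.2
        rw [Finset.mem_biUnion]
        refine ⟨Y, ?_, ?_⟩
        · rw [Finset.mem_powersetCard]
          exact ⟨hY1.trans (Finset.filter_subset _ _), hY2⟩
        · rw [Finset.mem_filter]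
          exact ⟨hv.1, hY1⟩
      refine (Finset.card_le_card h5).trans ?_
      refine (Finset.card_biUnion_le_card_mul _ _ a ?_).trans ?_
      · intro Y hY
        rw [Finset.mem_powersetCard] at hY
        by_contra hlt
        push Not at hlt
        obtain ⟨J, hJ1, hJ2⟩ := Finset.exists_subset_card_eq hlt.le
        obtain ⟨y, hy, j, hj, hyj⟩ := hcon S hS Y hY.1 J
          (hJ1.trans (Finset.filter_subset _ _)) hY.2 hJ2
        have hj' := hJ1 hj
        rw [Finset.mem_filter] at hj'
        have hy' := hj'.2 hy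
        simp only [hNdef, Finset.mem_filter] at hy'
        exact hyj (hadj _ hy'.2)
      · refine Nat.mul_le_mul_right _ ?_
        rw [Finset.card_powersetCard]
        refine (Nat.choose_le_two_pow _ _).trans ?_
        refine Nat.pow_le_pow_right (by norm_num) ?_
        rw [← hT S hS]
        exact Finset.card_le_card Finset.inter_subset_left
    have h6 : T * Zb.card ≤ b * Z.card := by
      calc T * Zb.card ≤ T * (2 ^ T * a) := Nat.mul_le_mul_left _ h4
        _ = T * 2 ^ T * a := by ring
        _ ≤ b * Z.card := hZs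
    calc ∑ v ∈ Z, (N v).card ≤ b * Z.card + T * Zb.card := h2
      _ ≤ b * Z.card + b * Z.card := Nat.add_le_add_left h6 _
      _ = 2 * b * Z.card := by ring
  have hEle : E.card ≤ H.card * (2 * b * Z.card) := by
    have h1 : E ⊆ H.biUnion (fun S => E.filter (fun p => p.1 ∈ S)) := by
      intro p hp
      have h2 := hX (Finset.mem_product.1 (hE hp)).1
      rw [Finset.mem_biUnion] at h2
      obtain ⟨S, hS, h3⟩ := h2
      rw [Finset.mem_biUnion]
      exact ⟨S, hS, Finset.mem_filter.2 ⟨hp, h3⟩⟩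
    exact (Finset.card_le_card h1).trans (Finset.card_biUnion_le_card_mul _ _ _ hN)
  have hHT : H.card * T ≤ M := by
    have h1 : (H.biUnion id).card = H.card * T := by
      rw [Finset.card_biUnion]
      · have h2 : ∀ S ∈ H, (id S : Finset ℕ).card = T := fun S hS => hT S hS
        rw [Finset.sum_congr rfl h2, Finset.sum_const, smul_eq_mul]
      · intro S hS S' hS' hne
        exact hdisj hS hS' hne
    rw [← h1, ← Finset.card_range M]
    refine Finset.card_le_card ?_
    intro x hx
    rw [Finset.mem_biUnion] at hx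
    obtain ⟨S, hS, hx⟩ := hx
    exact hM S hS hx
  have h7 : (X.card : ℝ) * Z.card ≤ 4 * (H.card * (2 * b * Z.card) : ℕ) := by
    have : (E.card : ℝ) ≤ (H.card * (2 * b * Z.card) : ℕ) := by exact_mod_cast hEle
    linarith
  have h8 : X.card * Z.card ≤ 4 * (H.card * (2 * b * Z.card)) := by exact_mod_cast h7
  have h9 : T * X.card * Z.card ≤ 8 * b * M * Z.card := by
    calc T * X.card * Z.card = T * (X.card * Z.card) := by ring
      _ ≤ T * (4 * (H.card * (2 * b * Z.card))) := Nat.mul_le_mul_left _ h8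
      _ = 8 * b * (H.card * T) * Z.card := by ring
      _ ≤ 8 * b * M * Z.card := by
        refine Nat.mul_le_mul_right _ (Nat.mul_le_mul_left _ hHT)
  have h10 := Nat.le_of_mul_le_mul_right h9 hZ
  omega

/-- A purely numerical lemma on matrices. -/
theorem delta_sum {ι : Type} (P : Finset ι) (δ : ι → ι → ℝ) (A B : ι → Prop)
    (sa sb : ℝ) (hsa : 0 ≤ sa) (hsb : 0 ≤ sb)
    (h1 : ∀ κ ∈ P, A κ → ∑ κ' ∈ P, δ κ κ' ≤ sa)
    (h2 : ∀ κ' ∈ P, B κ' → ∑ κ ∈ P, δ κ κ' ≤ sb)
    (h3 : ∀ κ ∈ P, ∀ κ' ∈ P, -1 ≤ δ κ κ')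
    (h4 : ∀ κ ∈ P, ∀ κ' ∈ P, ¬ A κ → ¬ B κ' → δ κ κ' ≤ 0) :
    ∑ κ ∈ P, ∑ κ' ∈ P, δ κ κ' ≤ P.card * sa + P.card * sb + (P.card : ℝ) ^ 2 := by
  classical
  rw [← Finset.sum_filter_add_sum_filter_not P A]
  have e1 : ∑ κ ∈ P.filter A, ∑ κ' ∈ P, δ κ κ' ≤ P.card * sa := by
    calc ∑ κ ∈ P.filter A, ∑ κ' ∈ P, δ κ κ' ≤ ∑ κ ∈ P.filter A, sa := by
          refine Finset.sum_le_sum fun κ hκ => ?_
          rw [Finset.mem_filter] at hκ
          exact h1 κ hκ.1 hκ.2
      _ = (P.filter A).card * sa := by rw [Finset.sum_const, nsmul_eq_mul]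
      _ ≤ P.card * sa := by
          refine mul_le_mul_of_nonneg_right ?_ hsa
          exact_mod_cast Finset.card_filter_le _ _
  have e2 : ∑ κ ∈ P.filter (fun κ => ¬ A κ), ∑ κ' ∈ P, δ κ κ' ≤ P.card * (sb + P.card) := by
    rw [Finset.sum_comm]
    calc ∑ κ' ∈ P, ∑ κ ∈ P.filter (fun κ => ¬ A κ), δ κ κ' ≤ ∑ κ' ∈ P, (sb + P.card) := by
          refine Finset.sum_le_sum fun κ' hκ' => ?_
          by_cases hB : B κ'
          · have h5 := h2 κ' hκ' hB
            rw [← Finset.sum_filter_add_sum_filter_not P A] at h5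
            have h6 : -(P.card : ℝ) ≤ ∑ κ ∈ P.filter A, δ κ κ' := by
              calc -(P.card : ℝ) ≤ -((P.filter A).card : ℝ) := by
                    refine neg_le_neg ?_
                    exact_mod_cast Finset.card_filter_le _ _
                _ = ∑ κ ∈ P.filter A, (-1 : ℝ) := by
                    rw [Finset.sum_const, nsmul_eq_mul]; ring
                _ ≤ ∑ κ ∈ P.filter A, δ κ κ' := by
                    refine Finset.sum_le_sum fun κ hκ => ?_
                    rw [Finset.mem_filter] at hκ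
                    exact h3 κ hκ.1 κ' hκ'
            linarith
          · have h6 : ∑ κ ∈ P.filter (fun κ => ¬ A κ), δ κ κ' ≤ 0 := by
              refine Finset.sum_nonpos fun κ hκ => ?_
              rw [Finset.mem_filter] at hκ
              exact h4 κ hκ.1 κ' hκ' hκ.2 hB
            have h7 : (0 : ℝ) ≤ P.card := Nat.cast_nonneg _
            linarith
      _ = P.card * (sb + P.card) := by rw [Finset.sum_const, nsmul_eq_mul]
  nlinarith

end Pool.Agent.R66.RD
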