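import Mathlib
import Pool.Agent.R66.RD.Pack

namespace Pool.Agent.R66.RD

open Finset

open Classical in
/-- Hall's theorem with deficiency, in the form of a transport plan between clusters. -/
theorem hall_plan {ι : Type} (P : Finset ι) (cl : ℕ → ι) (rel : ι → ι → Prop)
    (a b : ℕ) (X Z : Finset ℕ) (hclX : ∀ u ∈ X, cl u ∈ P) (hclZ : ∀ v ∈ Z, cl v ∈ P) :
    ∃ S ⊆ Z, ∃ w : ι → ι → ℕ,
      (∀ κ κ', w κ κ' ≠ 0 → rel κ κ') ∧
      (∀ κ, ∑ κ' ∈ P, w κ κ' ≤ a * (X.filter (fun u => cl u = κ)).card) ∧
      (∀ κ', ∑ κ ∈ P, w κ κ' ≤ b * (Z.filter (fun v => cl v = κ')).card) ∧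
      (b * Z.card : ℤ) ≤ (∑ κ ∈ P, ∑ κ' ∈ P, w κ κ' : ℕ) +
        ((b : ℤ) * S.card - a * (X.filter (fun u => ∃ v ∈ S, rel (cl u) (cl v))).card) := by
  set N : Finset ℕ → Finset ℕ := fun S => X.filter (fun u => ∃ v ∈ S, rel (cl u) (cl v)) with hN
  obtain ⟨S0, hS0, hmax⟩ := Finset.exists_max_image Z.powerset
    (fun S => (b : ℤ) * S.card - a * (N S).card) ⟨∅, Finset.empty_mem_powerset _⟩
  rw [Finset.mem_powerset] at hS0
  have hD0 : (0 : ℤ) ≤ (b : ℤ) * S0.card - a * (N S0).card := by
    have := hmax ∅ (Finset.empty_mem_powerset _)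
    have hN0 : N ∅ = ∅ := by simp [hN]
    rw [hN0] at this
    simpa using this
  obtain ⟨D, hD⟩ := Int.eq_ofNat_of_zero_le hD0
  have hSD : ∀ S ⊆ Z, b * S.card ≤ a * (N S).card + D := by
    intro S hS
    have := hmax S (Finset.mem_powerset.2 hS)
    rw [hD] at this
    have h2 : (b : ℤ) * S.card ≤ a * (N S).card + D := by linarith
    exact_mod_cast h2
  -- Hall
  let I := {z // z ∈ Z} × Fin b
  let t : I → Finset ((ℕ × Fin a) ⊕ Fin D) := fun p =>
    ((X.filter (fun u => rel (cl u) (cl p.1.1))) ×ˢ (univ : Finset (Fin a))).disjSum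
      (univ : Finset (Fin D))
  have hall : ∀ s : Finset I, s.card ≤ (s.biUnion t).card := by
    intro s
    rcases s.eq_empty_or_nonempty with hs | ⟨p0, hp0⟩
    · subst hs; simp
    · set S := s.image (fun p => p.1.1) with hS
      have hSZ : S ⊆ Z := by
        intro z hz
        rw [hS, Finset.mem_image] at hz
        obtain ⟨p, _, rfl⟩ := hz
        exact p.1.2
      have h1 : s.card ≤ S.card * b := by
        have h2 : s.card ≤ (S ×ˢ (univ : Finset (Fin b))).card := by
          refine Finset.card_le_card_of_injOn (fun p => (p.1.1, p.2)) ?_ ?_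
          · intro p hp
            simp only [Finset.coe_product, Set.mem_prod, Finset.mem_coe, Finset.mem_univ, and_true]
            exact Finset.mem_image_of_mem _ hp
          · rintro ⟨⟨z, hz⟩, i⟩ _ ⟨⟨z', hz'⟩, i'⟩ _ h
            simp only [Prod.mk.injEq] at h
            obtain ⟨h1, h2⟩ := h
            subst h1; subst h2
            rfl
        rwa [Finset.card_product, Finset.card_univ, Fintype.card_fin] at h2
      have h3 : ((N S) ×ˢ (univ : Finset (Fin a))).disjSum (univ : Finset (Fin D)) ⊆
          s.biUnion t := by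
        intro x hx
        rw [Finset.mem_disjSum] at hx
        rcases hx with ⟨⟨u, i⟩, hu, rfl⟩ | ⟨d, _, rfl⟩
        · rw [Finset.mem_product] at hu
          have hu1 := hu.1
          simp only [hN, Finset.mem_filter] at hu1
          obtain ⟨huX, v, hvS, hrel⟩ := hu1
          rw [hS, Finset.mem_image] at hvS
          obtain ⟨p, hp, rfl⟩ := hvS
          rw [Finset.mem_biUnion]
          refine ⟨p, hp, ?_⟩
          simp only [t, Finset.inl_mem_disjSum, Finset.mem_product, Finset.mem_filter,
            Finset.mem_univ, and_true]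
          exact ⟨huX, hrel⟩
        · rw [Finset.mem_biUnion]
          refine ⟨p0, hp0, ?_⟩
          simp only [t, Finset.inr_mem_disjSum, Finset.mem_univ]
      have h4 := Finset.card_le_card h3
      rw [Finset.card_disjSum, Finset.card_product, Finset.card_univ, Fintype.card_fin,
        Finset.card_univ, Fintype.card_fin] at h4
      have h5 := hSD S hSZ
      calc s.card ≤ S.card * b := h1
        _ = b * S.card := by ring
        _ ≤ a * (N S).card + D := h5
        _ = (N S).card * a + D := by ring
        _ ≤ _ := h4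
  obtain ⟨f, hfinj, hft⟩ := (Finset.all_card_le_biUnion_card_iff_exists_injective t).1 hall
  -- the plan
  let Q : ι → ι → Finset I := fun κ κ' => univ.filter (fun p =>
    cl p.1.1 = κ' ∧ ∃ u i, f p = Sum.inl (u, i) ∧ cl u = κ)
  refine ⟨S0, hS0, fun κ κ' => (Q κ κ').card, ?_, ?_, ?_, ?_⟩
  · intro κ κ' hne
    rw [Finset.card_ne_zero] at hne
    obtain ⟨p, hp⟩ := hne
    simp only [Q, Finset.mem_filter, Finset.mem_univ, true_and] at hp
    obtain ⟨h1, u, i, h2, h3⟩ := hp
    have h4 := hft p
    rw [h2] at h4
    simp only [t, Finset.inl_mem_disjSum, Finset.mem_product, Finset.mem_filter,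
      Finset.mem_univ, and_true] at h4
    rw [← h1, ← h3]
    exact h4.2
  · intro κ
    rw [← Finset.card_biUnion]
    · have h1 : ((P.biUnion (fun κ' => Q κ κ')).card) ≤
          ((X.filter (fun u => cl u = κ)) ×ˢ (univ : Finset (Fin a))).card := by
        have h2 : ∀ p ∈ P.biUnion (fun κ' => Q κ κ'), ∃ u i, f p = Sum.inl (u, i) ∧ cl u = κ := by
          intro p hp
          rw [Finset.mem_biUnion] at hp
          obtain ⟨κ', _, hp⟩ := hp
          simp only [Q, Finset.mem_filter, Finset.mem_univ, true_and] at hp
          exact hp.2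
        have h6 : (P.biUnion (fun κ' => Q κ κ')).image f ⊆
            (((X.filter (fun u => cl u = κ)) ×ˢ (univ : Finset (Fin a))).map
              Function.Embedding.inl : Finset ((ℕ × Fin a) ⊕ Fin D)) := by
          intro x hx
          rw [Finset.mem_image] at hx
          obtain ⟨p, hp, rfl⟩ := hx
          obtain ⟨u, i, h3, h4⟩ := h2 p hp
          rw [h3, Finset.mem_map]
          refine ⟨(u, i), ?_, rfl⟩
          have h5 := hft p
          rw [h3] at h5
          simp only [t, Finset.inl_mem_disjSum, Finset.mem_product, Finset.mem_filter,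
            Finset.mem_univ, and_true] at h5
          simp only [Finset.mem_product, Finset.mem_filter, Finset.mem_univ, and_true]
          exact ⟨h5.1, h4⟩
        have h7 := Finset.card_le_card h6
        rwa [Finset.card_image_of_injective _ hfinj, Finset.card_map] at h7
      rw [Finset.card_product, Finset.card_univ, Fintype.card_fin] at h1
      rw [mul_comm]
      exact h1
    · intro κ1 _ κ2 _ hne
      rw [Function.onFun, Finset.disjoint_left]
      intro p hp1 hp2
      simp only [Q, Finset.mem_filter, Finset.mem_univ, true_and] at hp1 hp2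
      exact hne (hp1.1.symm.trans hp2.1)
  · intro κ'
    rw [← Finset.card_biUnion]
    · have h1 : ((P.biUnion (fun κ => Q κ κ')).card) ≤
          ((Z.filter (fun v => cl v = κ')) ×ˢ (univ : Finset (Fin b))).card := by
        refine Finset.card_le_card_of_injOn (fun p => (p.1.1, p.2)) ?_ ?_
        · intro p hp
          rw [Finset.mem_coe, Finset.mem_biUnion] at hp
          obtain ⟨κ, _, hp⟩ := hp
          simp only [Q, Finset.mem_filter, Finset.mem_univ, true_and] at hp
          rw [Finset.mem_coe, Finset.mem_product, Finset.mem_filter]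
          exact ⟨⟨p.1.2, hp.1⟩, Finset.mem_univ _⟩
        · rintro ⟨⟨z, hz⟩, i⟩ _ ⟨⟨z', hz'⟩, i'⟩ _ h
          simp only [Prod.mk.injEq] at h
          obtain ⟨h1, h2⟩ := h
          subst h1; subst h2
          rfl
      rw [Finset.card_product, Finset.card_univ, Fintype.card_fin] at h1
      rw [mul_comm]
      exact h1
    · intro κ1 _ κ2 _ hne
      rw [Function.onFun, Finset.disjoint_left]
      intro p hp1 hp2
      simp only [Q, Finset.mem_filter, Finset.mem_univ, true_and] at hp1 hp2
      obtain ⟨_, u1, i1, h1, h2⟩ := hp1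
      obtain ⟨_, u2, i2, h3, h4⟩ := hp2
      rw [h1] at h3
      have h5 := Sum.inl_injective h3
      rw [Prod.mk.injEq] at h5
      rw [← h5.1] at h4
      exact hne (h2.symm.trans h4)
  · -- total
    have hD' : ((b : ℤ) * S0.card - a * (X.filter (fun u => ∃ v ∈ S0, rel (cl u) (cl v))).card) = D :=
      hD
    rw [hD']
    have h1 : b * Z.card ≤ ∑ κ ∈ P, ∑ κ' ∈ P, (Q κ κ').card + D := by
      have hI : (univ : Finset I).card = b * Z.card := by
        rw [Finset.card_univ]
        simp only [I, Fintype.card_prod, Fintype.card_coe, Fintype.card_fin]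
        ring
      rw [← hI]
      set L := univ.filter (fun p : I => ∃ u i, f p = Sum.inl (u, i)) with hL
      set Rr := univ.filter (fun p : I => ¬ ∃ u i, f p = Sum.inl (u, i)) with hRr
      have h2 : L.card + Rr.card = (univ : Finset I).card :=
        Finset.card_filter_add_card_filter_not _
      have h3 : Rr.card ≤ D := by
        have h4 : Rr.card ≤ ((univ : Finset (Fin D)).map Function.Embedding.inr :
            Finset ((ℕ × Fin a) ⊕ Fin D)).card := by
          rw [← Finset.card_image_of_injective Rr hfinj]
          refine Finset.card_le_card ?_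
          intro x hx
          rw [Finset.mem_image] at hx
          obtain ⟨p, hp, rfl⟩ := hx
          rw [hRr, Finset.mem_filter] at hp
          rw [Finset.mem_map]
          rcases hfp : f p with ⟨u, i⟩ | d
          · exact absurd ⟨u, i, hfp⟩ hp.2
          · exact ⟨d, Finset.mem_univ _, rfl⟩
        rwa [Finset.card_map, Finset.card_univ, Fintype.card_fin] at h4
      have h5 : L.card ≤ ∑ κ ∈ P, ∑ κ' ∈ P, (Q κ κ').card := by
        have h6 : L ⊆ P.biUnion (fun κ => P.biUnion (fun κ' => Q κ κ')) := by
          intro p hp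
          rw [hL, Finset.mem_filter] at hp
          obtain ⟨_, u, i, hfp⟩ := hp
          have h7 := hft p
          rw [hfp] at h7
          simp only [t, Finset.inl_mem_disjSum, Finset.mem_product, Finset.mem_filter,
            Finset.mem_univ, and_true] at h7
          rw [Finset.mem_biUnion]
          refine ⟨cl u, hclX u h7.1, ?_⟩
          rw [Finset.mem_biUnion]
          refine ⟨cl p.1.1, hclZ _ p.1.2, ?_⟩
          simp only [Q, Finset.mem_filter, Finset.mem_univ, true_and]
          exact ⟨u, i, hfp, rfl⟩
        refine (Finset.card_le_card h6).trans ?_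
        refine Finset.card_biUnion_le.trans ?_
        exact Finset.sum_le_sum fun κ _ => Finset.card_biUnion_le
      omega
    exact_mod_cast h1

end Pool.Agent.R66.RD
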