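import Mathlib
import Pool.Agent.R66.RD.Hall

namespace Pool.Agent.R66.RD

open Finset

open Classical in
/-- Packing of configurations, with a dual witness for the number of uncovered guests. -/
theorem pack (G : SimpleGraph ℕ) {ι : Type} (P : Finset ι) (cl : ℕ → ι) (rel : ι → ι → Prop)
    (a b s : ℕ) (ha : 0 < a) (hb : 0 < b) (H : Finset (Finset ℕ)) (Z : Finset ℕ)
    (hclX : ∀ u ∈ H.biUnion id, cl u ∈ P) (hclZ : ∀ v ∈ Z, cl v ∈ P)
    (hconf : ∀ κ κ', rel κ κ' → ∀ X' Z' : Finset ℕ, X' ⊆ H.biUnion id → Z' ⊆ Z →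
      (∀ u ∈ X', cl u = κ) → (∀ v ∈ Z', cl v = κ') → s ≤ X'.card → s ≤ Z'.card →
      ∃ S ∈ H, ∃ Y ⊆ S ∩ X', ∃ J ⊆ Z', Y.card = b ∧ J.card = a ∧
        ∀ y ∈ Y, ∀ j ∈ J, G.Adj y j) :
    ∃ 𝒦 : Finset (Finset ℕ × Finset ℕ),
      (∀ p ∈ 𝒦, (∃ S ∈ H, p.1 ⊆ S) ∧ p.2 ⊆ Z ∧ p.1.card = b ∧ p.2.card = a ∧
        ∀ y ∈ p.1, ∀ j ∈ p.2, G.Adj y j) ∧
      (∀ p ∈ 𝒦, ∀ q ∈ 𝒦, p ≠ q → Disjoint p.1 q.1 ∧ Disjoint p.2 q.2) ∧
      ∃ S ⊆ Z, (b : ℝ) * Z.card ≤ a * b * 𝒦.card +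
        ((b : ℝ) * S.card -
          a * ((H.biUnion id).filter (fun u => ∃ v ∈ S, rel (cl u) (cl v))).card) +
        (((a : ℝ) + b) * P.card * s + a * b * (P.card : ℝ) ^ 2) := by
  set X := H.biUnion id with hX
  obtain ⟨S0, hS0, w, hw1, hw2, hw3, hw4⟩ := hall_plan P cl rel a b X Z hclX hclZ
  set ty : ι → ι → (Finset ℕ × Finset ℕ) → Prop := fun κ κ' p =>
    (∀ u ∈ p.1, cl u = κ) ∧ (∀ v ∈ p.2, cl v = κ') with hty
  set cap : ι → ι → ℕ := fun κ κ' => w κ κ' / (a * b) + 1 with hcap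
  set IsFam : Finset (Finset ℕ × Finset ℕ) → Prop := fun 𝒦 =>
    (∀ p ∈ 𝒦, (∃ S ∈ H, p.1 ⊆ S) ∧ p.2 ⊆ Z ∧ p.1.card = b ∧ p.2.card = a ∧
        (∀ y ∈ p.1, ∀ j ∈ p.2, G.Adj y j) ∧ ∃ κ κ', rel κ κ' ∧ ty κ κ' p) ∧
    (∀ p ∈ 𝒦, ∀ q ∈ 𝒦, p ≠ q → Disjoint p.1 q.1 ∧ Disjoint p.2 q.2) ∧
    (∀ κ κ', (𝒦.filter (ty κ κ')).card ≤ cap κ κ') with hIsFam
  set 𝒰 : Finset (Finset ℕ × Finset ℕ) := (powersetCard b X) ×ˢ (powersetCard a Z) with h𝒰
  have hFam𝒰 : ∀ 𝒦, IsFam 𝒦 → 𝒦 ⊆ 𝒰 := by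
    intro 𝒦 hK p hp
    obtain ⟨⟨S, hS, hpS⟩, h2, h3, h4, _, _⟩ := hK.1 p hp
    rw [h𝒰, Finset.mem_product, Finset.mem_powersetCard, Finset.mem_powersetCard]
    refine ⟨⟨?_, h3⟩, h2, h4⟩
    intro u hu
    rw [hX, Finset.mem_biUnion]
    exact ⟨S, hS, hpS hu⟩
  have hempty : IsFam ∅ := by
    refine ⟨by simp, by simp, by simp⟩
  obtain ⟨𝒦, h𝒦, hmax⟩ := Finset.exists_max_image (𝒰.powerset.filter IsFam) Finset.card
    ⟨∅, by rw [Finset.mem_filter]; exact ⟨Finset.empty_mem_powerset _, hempty⟩⟩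
  rw [Finset.mem_filter, Finset.mem_powerset] at h𝒦
  obtain ⟨h𝒦𝒰, hK1, hK2, hK3⟩ := h𝒦
  set c : ι → ι → ℕ := fun κ κ' => (𝒦.filter (ty κ κ')).card with hc
  set remX : ι → Finset ℕ := fun κ => X.filter (fun u => cl u = κ ∧ ∀ p ∈ 𝒦, u ∉ p.1) with hremX
  set remZ : ι → Finset ℕ := fun κ' => Z.filter (fun v => cl v = κ' ∧ ∀ p ∈ 𝒦, v ∉ p.2)
    with hremZ
  have hne1 : ∀ p ∈ 𝒦, p.1.Nonempty := fun p hp => by
    rw [← Finset.card_pos, (hK1 p hp).2.2.1]; exact hb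
  have hne2 : ∀ p ∈ 𝒦, p.2.Nonempty := fun p hp => by
    rw [← Finset.card_pos, (hK1 p hp).2.2.2.1]; exact ha
  -- maximality
  have hmaxi : ∀ κ κ', rel κ κ' → s ≤ (remX κ).card → s ≤ (remZ κ').card →
      cap κ κ' ≤ c κ κ' := by
    intro κ κ' hrel hsX hsZ
    by_contra hlt
    push Not at hlt
    obtain ⟨S, hS, Y, hY, J, hJ, hYc, hJc, hYJ⟩ := hconf κ κ' hrel (remX κ) (remZ κ')
      (Finset.filter_subset _ _) (Finset.filter_subset _ _)
      (fun u hu => (Finset.mem_filter.1 hu).2.1) (fun v hv => (Finset.mem_filter.1 hv).2.1)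
      hsX hsZ
    have hY1 : ∀ u ∈ Y, cl u = κ ∧ ∀ p ∈ 𝒦, u ∉ p.1 := fun u hu =>
      (Finset.mem_filter.1 (Finset.mem_inter.1 (hY hu)).2).2
    have hJ1 : ∀ v ∈ J, cl v = κ' ∧ ∀ p ∈ 𝒦, v ∉ p.2 := fun v hv =>
      (Finset.mem_filter.1 (hJ hv)).2
    have hYne : Y.Nonempty := by rw [← Finset.card_pos, hYc]; exact hb
    have hJne : J.Nonempty := by rw [← Finset.card_pos, hJc]; exact ha
    have hnotin : (Y, J) ∉ 𝒦 := by
      intro h
      obtain ⟨y, hy⟩ := hYne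
      exact (hY1 y hy).2 _ h hy
    have hfam : IsFam (insert (Y, J) 𝒦) := by
      refine ⟨?_, ?_, ?_⟩
      · intro p hp
        rcases Finset.mem_insert.1 hp with rfl | hp
        · refine ⟨⟨S, hS, fun y hy => (Finset.mem_inter.1 (hY hy)).1⟩,
            hJ.trans (Finset.filter_subset _ _), hYc, hJc, hYJ, κ, κ', hrel,
            fun u hu => (hY1 u hu).1, fun v hv => (hJ1 v hv).1⟩
        · exact hK1 p hp
      · intro p hp q hq hpq
        rcases Finset.mem_insert.1 hp with rfl | hp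
        · rcases Finset.mem_insert.1 hq with rfl | hq
          · exact absurd rfl hpq
          · refine ⟨?_, ?_⟩
            · rw [Finset.disjoint_left]
              intro y hy
              exact (hY1 y hy).2 q hq
            · rw [Finset.disjoint_left]
              intro y hy
              exact (hJ1 y hy).2 q hq
        · rcases Finset.mem_insert.1 hq with rfl | hq
          · refine ⟨?_, ?_⟩
            · rw [Finset.disjoint_right]
              intro y hy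
              exact (hY1 y hy).2 p hp
            · rw [Finset.disjoint_right]
              intro y hy
              exact (hJ1 y hy).2 p hp
          · exact hK2 p hp q hq hpq
      · intro κ1 κ1'
        rw [Finset.filter_insert]
        split_ifs with hif
        · obtain ⟨y, hy⟩ := hYne
          obtain ⟨j, hj⟩ := hJne
          have e1 : κ1 = κ := (hif.1 y hy).symm.trans (hY1 y hy).1
          have e2 : κ1' = κ' := (hif.2 j hj).symm.trans (hJ1 j hj).1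
          subst e1; subst e2
          rw [Finset.card_insert_of_notMem (by
            intro h
            exact hnotin (Finset.mem_filter.1 h).1)]
          exact hlt
        · exact hK3 κ1 κ1'
    have := hmax (insert (Y, J) 𝒦) (by
      rw [Finset.mem_filter, Finset.mem_powerset]
      exact ⟨hFam𝒰 _ hfam, hfam⟩)
    rw [Finset.card_insert_of_notMem hnotin] at this
    omega
  -- counting
  have htype : ∀ p ∈ 𝒦, ∃ κ ∈ P, ∃ κ' ∈ P, ty κ κ' p := by
    intro p hp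
    obtain ⟨⟨S, hS, hpS⟩, h2, h3, h4, _, κ, κ', hrel, hty1, hty2⟩ := hK1 p hp
    obtain ⟨y, hy⟩ := hne1 p hp
    obtain ⟨j, hj⟩ := hne2 p hp
    refine ⟨κ, ?_, κ', ?_, hty1, hty2⟩
    · rw [← hty1 y hy]
      apply hclX
      rw [hX, Finset.mem_biUnion]
      exact ⟨S, hS, hpS hy⟩
    · rw [← hty2 j hj]
      exact hclZ _ (h2 hj)
  have hcountX : ∀ κ, (X.filter (fun u => cl u = κ)).card ≤
      (remX κ).card + b * ∑ κ' ∈ P, c κ κ' := by
    intro κ
    have hsub : X.filter (fun u => cl u = κ) ⊆ remX κ ∪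
        P.biUnion (fun κ' => (𝒦.filter (ty κ κ')).biUnion Prod.fst) := by
      intro u hu
      rw [Finset.mem_filter] at hu
      rw [Finset.mem_union]
      by_cases h : ∀ p ∈ 𝒦, u ∉ p.1
      · left
        rw [hremX, Finset.mem_filter]
        exact ⟨hu.1, hu.2, h⟩
      · right
        push Not at h
        obtain ⟨p, hp, hup⟩ := h
        obtain ⟨κ1, hκ1, κ', hκ', hty1, hty2⟩ := htype p hp
        rw [Finset.mem_biUnion]
        refine ⟨κ', hκ', ?_⟩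
        rw [Finset.mem_biUnion]
        refine ⟨p, ?_, hup⟩
        rw [Finset.mem_filter]
        refine ⟨hp, ?_, hty2⟩
        have : κ1 = κ := (hty1 u hup).symm.trans hu.2
        rw [← this]
        exact hty1
    refine (Finset.card_le_card hsub).trans ((Finset.card_union_le _ _).trans ?_)
    refine Nat.add_le_add_left ?_ _
    refine Finset.card_biUnion_le.trans ?_
    rw [Finset.mul_sum]
    refine Finset.sum_le_sum fun κ' _ => ?_
    rw [mul_comm]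
    refine Finset.card_biUnion_le_card_mul _ _ _ ?_
    intro p hp
    exact (hK1 p (Finset.mem_filter.1 hp).1).2.2.1.le
  have hcountZ : ∀ κ', (Z.filter (fun v => cl v = κ')).card ≤
      (remZ κ').card + a * ∑ κ ∈ P, c κ κ' := by
    intro κ'
    have hsub : Z.filter (fun v => cl v = κ') ⊆ remZ κ' ∪
        P.biUnion (fun κ => (𝒦.filter (ty κ κ')).biUnion Prod.snd) := by
      intro v hv
      rw [Finset.mem_filter] at hv
      rw [Finset.mem_union]
      by_cases h : ∀ p ∈ 𝒦, v ∉ p.2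
      · left
        rw [hremZ, Finset.mem_filter]
        exact ⟨hv.1, hv.2, h⟩
      · right
        push Not at h
        obtain ⟨p, hp, hup⟩ := h
        obtain ⟨κ, hκ, κ1, hκ1, hty1, hty2⟩ := htype p hp
        rw [Finset.mem_biUnion]
        refine ⟨κ, hκ, ?_⟩
        rw [Finset.mem_biUnion]
        refine ⟨p, ?_, hup⟩
        rw [Finset.mem_filter]
        refine ⟨hp, hty1, ?_⟩
        have : κ1 = κ' := (hty2 v hup).symm.trans hv.2
        rw [← this]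
        exact hty2
    refine (Finset.card_le_card hsub).trans ((Finset.card_union_le _ _).trans ?_)
    refine Nat.add_le_add_left ?_ _
    refine Finset.card_biUnion_le.trans ?_
    rw [Finset.mul_sum]
    refine Finset.sum_le_sum fun κ _ => ?_
    rw [mul_comm]
    refine Finset.card_biUnion_le_card_mul _ _ _ ?_
    intro p hp
    exact (hK1 p (Finset.mem_filter.1 hp).1).2.2.2.1.le
  have hcsum : ∑ κ ∈ P, ∑ κ' ∈ P, c κ κ' ≤ 𝒦.card := by
    have e1 : ∀ κ ∈ P, ∑ κ' ∈ P, c κ κ' = (P.biUnion (fun κ' => 𝒦.filter (ty κ κ'))).card := by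
      intro κ _
      rw [Finset.card_biUnion]
      intro κ1 _ κ2 _ hne
      rw [Function.onFun, Finset.disjoint_left]
      intro p hp1 hp2
      rw [Finset.mem_filter] at hp1 hp2
      obtain ⟨j, hj⟩ := hne2 p hp1.1
      exact hne ((hp1.2.2 j hj).symm.trans (hp2.2.2 j hj))
    rw [Finset.sum_congr rfl e1, ← Finset.card_biUnion]
    · refine Finset.card_le_card ?_
      intro p hp
      rw [Finset.mem_biUnion] at hp
      obtain ⟨κ, _, hp⟩ := hp
      rw [Finset.mem_biUnion] at hp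
      obtain ⟨κ', _, hp⟩ := hp
      exact (Finset.mem_filter.1 hp).1
    · intro κ1 _ κ2 _ hne
      rw [Function.onFun, Finset.disjoint_left]
      intro p hp1 hp2
      rw [Finset.mem_biUnion] at hp1 hp2
      obtain ⟨κ', _, hp1⟩ := hp1
      obtain ⟨κ'', _, hp2⟩ := hp2
      rw [Finset.mem_filter] at hp1 hp2
      obtain ⟨j, hj⟩ := hne1 p hp1.1
      exact hne ((hp1.2.1 j hj).symm.trans (hp2.2.1 j hj))
  have haR : (0 : ℝ) < a := by exact_mod_cast ha
  have hbR : (0 : ℝ) < b := by exact_mod_cast hb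
  have habR : (0 : ℝ) < a * b := mul_pos haR hbR
  set δ : ι → ι → ℝ := fun κ κ' => (w κ κ' : ℝ) / (a * b) - c κ κ' with hδ
  have hdelta := delta_sum P δ (fun κ => (remX κ).card < s) (fun κ' => (remZ κ').card < s)
    ((s : ℝ) / b) ((s : ℝ) / a) (by positivity) (by positivity) ?_ ?_ ?_ ?_
  · -- conclusion
    refine ⟨𝒦, ?_, hK2, S0, hS0, ?_⟩
    · intro p hp
      obtain ⟨h1, h2, h3, h4, h5, _⟩ := hK1 p hp
      exact ⟨h1, h2, h3, h4, h5⟩
    · have hw4' : (b : ℝ) * Z.card ≤ ∑ κ ∈ P, ∑ κ' ∈ P, (w κ κ' : ℝ) +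
          ((b : ℝ) * S0.card - a * (X.filter (fun u => ∃ v ∈ S0, rel (cl u) (cl v))).card) := by
        exact_mod_cast hw4
      have hsumδ : ∑ κ ∈ P, ∑ κ' ∈ P, (w κ κ' : ℝ) =
          a * b * (∑ κ ∈ P, ∑ κ' ∈ P, δ κ κ') + a * b * (∑ κ ∈ P, ∑ κ' ∈ P, (c κ κ' : ℝ)) := by
        rw [← mul_add, ← Finset.sum_add_distrib, Finset.mul_sum]
        refine Finset.sum_congr rfl fun κ _ => ?_
        rw [← Finset.sum_add_distrib, Finset.mul_sum]
        refine Finset.sum_congr rfl fun κ' _ => ?_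
        simp only [hδ]
        field_simp
        ring
      have hcsumR : ∑ κ ∈ P, ∑ κ' ∈ P, (c κ κ' : ℝ) ≤ 𝒦.card := by exact_mod_cast hcsum
      have h1 : a * b * (∑ κ ∈ P, ∑ κ' ∈ P, δ κ κ') ≤
          a * b * (P.card * ((s : ℝ) / b) + P.card * ((s : ℝ) / a) + (P.card : ℝ) ^ 2) :=
        mul_le_mul_of_nonneg_left hdelta habR.le
      have h2 : a * b * (P.card * ((s : ℝ) / b) + P.card * ((s : ℝ) / a) + (P.card : ℝ) ^ 2) =
          ((a : ℝ) + b) * P.card * s + a * b * (P.card : ℝ) ^ 2 := by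
        field_simp
      have h3 : (a : ℝ) * b * (∑ κ ∈ P, ∑ κ' ∈ P, (c κ κ' : ℝ)) ≤ a * b * 𝒦.card :=
        mul_le_mul_of_nonneg_left hcsumR habR.le
      linarith
  · intro κ _ hA
    have h1 := hcountX κ
    have h2 := hw2 κ
    have h3 : ∑ κ' ∈ P, w κ κ' ≤ a * (s + b * ∑ κ' ∈ P, c κ κ') := by
      refine h2.trans (Nat.mul_le_mul_left _ ?_)
      have hA' : (remX κ).card < s := hA
      omega
    have h4 : ∑ κ' ∈ P, (w κ κ' : ℝ) ≤ a * (s + b * ∑ κ' ∈ P, (c κ κ' : ℝ)) := by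
      exact_mod_cast h3
    have h5 : ∑ κ' ∈ P, δ κ κ' = (∑ κ' ∈ P, (w κ κ' : ℝ)) / (a * b) - ∑ κ' ∈ P, (c κ κ' : ℝ) := by
      simp only [hδ]
      rw [Finset.sum_sub_distrib, Finset.sum_div]
    rw [h5, sub_le_iff_le_add, div_le_iff₀ habR]
    calc ∑ κ' ∈ P, (w κ κ' : ℝ) ≤ a * (s + b * ∑ κ' ∈ P, (c κ κ' : ℝ)) := h4
      _ = ((s : ℝ) / b + ∑ κ' ∈ P, (c κ κ' : ℝ)) * (a * b) := by
        field_simp
  · intro κ' _ hB
    have h1 := hcountZ κ'
    have h2 := hw3 κ'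
    have h3 : ∑ κ ∈ P, w κ κ' ≤ b * (s + a * ∑ κ ∈ P, c κ κ') := by
      refine h2.trans (Nat.mul_le_mul_left _ ?_)
      have hB' : (remZ κ').card < s := hB
      omega
    have h4 : ∑ κ ∈ P, (w κ κ' : ℝ) ≤ b * (s + a * ∑ κ ∈ P, (c κ κ' : ℝ)) := by
      exact_mod_cast h3
    have h5 : ∑ κ ∈ P, δ κ κ' = (∑ κ ∈ P, (w κ κ' : ℝ)) / (a * b) - ∑ κ ∈ P, (c κ κ' : ℝ) := by
      simp only [hδ]
      rw [Finset.sum_sub_distrib, Finset.sum_div]
    rw [h5, sub_le_iff_le_add, div_le_iff₀ habR]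
    calc ∑ κ ∈ P, (w κ κ' : ℝ) ≤ b * (s + a * ∑ κ ∈ P, (c κ κ' : ℝ)) := h4
      _ = ((s : ℝ) / a + ∑ κ ∈ P, (c κ κ' : ℝ)) * (a * b) := by
        field_simp
  · intro κ _ κ' _
    have h1 : c κ κ' ≤ w κ κ' / (a * b) + 1 := hK3 κ κ'
    have h2 : ((w κ κ' / (a * b) : ℕ) : ℝ) ≤ (w κ κ' : ℝ) / (a * b) := by
      have := @Nat.cast_div_le ℝ _ _ _ (w κ κ') (a * b)
      push_cast at this
      exact this
    have h3 : (c κ κ' : ℝ) ≤ ((w κ κ' / (a * b) : ℕ) : ℝ) + 1 := by exact_mod_cast h1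
    simp only [hδ]
    linarith
  · intro κ _ κ' _ hA hB
    simp only [hδ]
    by_cases hrel : rel κ κ'
    · have h1 := hmaxi κ κ' hrel (not_lt.1 hA) (not_lt.1 hB)
      have h2 : w κ κ' < (w κ κ' / (a * b) + 1) * (a * b) := by
        have h3 := Nat.div_add_mod (w κ κ') (a * b)
        have h4 := Nat.mod_lt (w κ κ') (Nat.mul_pos ha hb)
        calc w κ κ' = (a * b) * (w κ κ' / (a * b)) + w κ κ' % (a * b) := h3.symm
          _ < (a * b) * (w κ κ' / (a * b)) + a * b := Nat.add_lt_add_left h4 _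
          _ = (w κ κ' / (a * b) + 1) * (a * b) := by ring
      have h3 : w κ κ' ≤ c κ κ' * (a * b) :=
        h2.le.trans (Nat.mul_le_mul_right _ h1)
      have h4 : (w κ κ' : ℝ) ≤ c κ κ' * (a * b) := by exact_mod_cast h3
      rw [sub_nonpos, div_le_iff₀ habR]
      exact h4
    · have h1 : w κ κ' = 0 := by
        by_contra h
        exact hrel (hw1 κ κ' h)
      rw [h1]
      simp

end Pool.Agent.R66.RD
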