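import Mathlib

/-!
A two-coloured form of the regularity lemma: the first `M` vertices are split into boundedly many
clusters; almost all pairs of vertices lie in pairs of clusters that are related in red or in blue,
and large subsets of related clusters span many edges of that colour.
-/

namespace Pool.Agent.R66.RD

open Finset

/-- Conclusion of the regularity lemma for one colour. -/
def DensePairs {ι : Type} (G : SimpleGraph ℕ) (M : ℕ) (cl : ℕ → ι) (rel : ι → ι → Prop)
    (s : ℝ) : Prop :=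
  ∀ κ κ', rel κ κ' → ∀ X Z : Finset ℕ, X ⊆ range M → Z ⊆ range M →
    (∀ u ∈ X, cl u = κ) → (∀ v ∈ Z, cl v = κ') → s ≤ X.card → s ≤ Z.card →
    ∃ E : Finset (ℕ × ℕ), E ⊆ X ×ˢ Z ∧ (∀ p ∈ E, G.Adj p.1 p.2) ∧
      ((X.card : ℝ) * Z.card) / 4 ≤ E.card

open Classical in
theorem reg (ε : ℝ) (hε : 0 < ε) (hε1 : ε ≤ 1) : ∃ K : ℕ, 0 < K ∧
    ∀ (R : SimpleGraph ℕ) (M : ℕ), K ≤ M →
    ∃ (ι : Type) (P : Finset ι) (cl : ℕ → ι) (rR rB : ι → ι → Prop),
      0 < P.card ∧ P.card ≤ K ∧ (∀ v < M, cl v ∈ P) ∧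
      (∀ X Z : Finset ℕ, X ⊆ range M → Z ⊆ range M →
        (∀ u ∈ X, ∀ v ∈ Z, ¬ rR (cl u) (cl v) ∧ ¬ rB (cl u) (cl v)) →
        (X.card : ℝ) * Z.card ≤ ε * (M : ℝ) ^ 2) ∧
      (∀ κ κ', rR κ κ' → rR κ' κ) ∧ (∀ κ κ', rB κ κ' → rB κ' κ) ∧
      DensePairs R M cl rR (ε * M / P.card) ∧ DensePairs Rᶜ M cl rB (ε * M / P.card) := by
  obtain ⟨l, hl⟩ : ∃ l : ℕ, 8 / ε ≤ l := ⟨_, Nat.le_ceil _⟩
  set ε' : ℝ := ε / 8 with hε'
  have hε'pos : 0 < ε' := by positivity
  refine ⟨SzemerediRegularity.bound ε' l, SzemerediRegularity.bound_pos _ _, ?_⟩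
  intro R M hM
  have hlM : l ≤ M := (SzemerediRegularity.le_bound _ _).trans hM
  have hlpos : 0 < (l : ℝ) := lt_of_lt_of_le (by positivity) hl
  have hlpos' : 0 < l := by exact_mod_cast hlpos
  have hMpos : 0 < M := lt_of_lt_of_le hlpos' hlM
  have hMpos' : (0 : ℝ) < M := by exact_mod_cast hMpos
  set G : SimpleGraph (Fin M) := R.comap (fun v : Fin M => (v : ℕ)) with hG
  have hGadj : ∀ u v : Fin M, G.Adj u v ↔ R.Adj u v := fun u v => by
    rw [hG, SimpleGraph.comap_adj]
  obtain ⟨P, hP1, hP2, hP3, hP4⟩ := szemeredi_regularity G hε'pos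
    (l := l) (by rw [Fintype.card_fin]; exact hlM)
  set k : ℕ := P.parts.card with hk
  have hkpos : 0 < k := lt_of_lt_of_le hlpos' hP2
  have hkpos' : (0 : ℝ) < k := by exact_mod_cast hkpos
  have hkM : k ≤ M := by
    have := P.card_parts_le_card
    rwa [Finset.card_univ, Fintype.card_fin] at this
  have hkM' : (k : ℝ) ≤ M := by exact_mod_cast hkM
  have hklarge : 8 / ε ≤ k := hl.trans (by exact_mod_cast hP2)
  have hne : (univ : Finset (Fin M)).Nonempty := by
    rw [← Finset.card_pos, Finset.card_univ, Fintype.card_fin]; exact hMpos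
  have hmax : ∀ A ∈ P.parts, (A.card : ℝ) ≤ M / k + 1 := by
    intro A hA
    have h1 := hP1.card_part_le_average_add_one hA
    rw [Finset.card_univ, Fintype.card_fin] at h1
    have h2 : ((M / k : ℕ) : ℝ) ≤ (M : ℝ) / k := Nat.cast_div_le
    have h3 : (A.card : ℝ) ≤ ((M / k : ℕ) : ℝ) + 1 := by exact_mod_cast h1
    linarith
  have hsum : ∑ A ∈ P.parts, (A.card : ℝ) = M := by
    have h1 := P.sum_card_parts
    rw [Finset.card_univ, Fintype.card_fin] at h1
    rw [← Nat.cast_sum]
    exact_mod_cast h1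
  have h1k : (1 : ℝ) ≤ M / k := by rw [le_div_iff₀ hkpos']; linarith
  have hmax2 : ∀ A ∈ P.parts, (A.card : ℝ) ≤ 2 * (M / k) := by
    intro A hA
    have := hmax A hA
    linarith
  set cl : ℕ → Finset (Fin M) := fun v => if h : v < M then P.part ⟨v, h⟩ else ∅ with hcl
  have hclv : ∀ (v : ℕ) (h : v < M), cl v = P.part ⟨v, h⟩ := fun v h => by
    simp only [hcl, dif_pos h]
  set rR : Finset (Fin M) → Finset (Fin M) → Prop := fun A B =>
    (A ∈ P.parts ∧ B ∈ P.parts) ∧ A ≠ B ∧ G.IsUniform ε' A B ∧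
      (1 / 2 : ℝ) ≤ (G.edgeDensity A B : ℝ) with hrR
  set rB : Finset (Fin M) → Finset (Fin M) → Prop := fun A B =>
    (A ∈ P.parts ∧ B ∈ P.parts) ∧ A ≠ B ∧ G.IsUniform ε' A B ∧
      ¬ (1 / 2 : ℝ) ≤ (G.edgeDensity A B : ℝ) with hrB
  -- lifting finsets of naturals to `Fin M`
  set lift : Finset ℕ → Finset (Fin M) := fun X => univ.filter (fun v => (v : ℕ) ∈ X) with hlift
  have hliftcard : ∀ X : Finset ℕ, X ⊆ range M → (lift X).card = X.card := by
    intro X hX
    have h1 : (lift X).map Fin.valEmbedding = X := by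
      ext x
      simp only [hlift, Finset.mem_map, Finset.mem_filter, Finset.mem_univ, true_and,
        Fin.valEmbedding_apply]
      constructor
      · rintro ⟨a, ha, rfl⟩; exact ha
      · intro hx
        exact ⟨⟨x, Finset.mem_range.1 (hX hx)⟩, hx, rfl⟩
    rw [← Finset.card_map Fin.valEmbedding, h1]
  have hliftmem : ∀ (X : Finset ℕ) (v : Fin M), v ∈ lift X ↔ (v : ℕ) ∈ X := by
    intro X v
    simp [hlift]
  have hdens : ∀ A B : Finset (Fin M), ((G.edgeDensity A B : ℚ) : ℝ) * ((A.card : ℝ) * B.card) =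
      ((G.interedges A B).card : ℝ) := by
    intro A B
    rcases A.eq_empty_or_nonempty with hA | hA
    · subst hA
      simp [SimpleGraph.interedges, Rel.interedges]
    rcases B.eq_empty_or_nonempty with hB | hB
    · subst hB
      simp [SimpleGraph.interedges, Rel.interedges]
    have hA' : (A.card : ℝ) ≠ 0 := by exact_mod_cast hA.card_pos.ne'
    have hB' : (B.card : ℝ) ≠ 0 := by exact_mod_cast hB.card_pos.ne'
    rw [SimpleGraph.edgeDensity_def]
    push_cast
    field_simp
  refine ⟨Finset (Fin M), P.parts, cl, rR, rB, hkpos, hP3, ?_, ?_, ?_, ?_, ?_, ?_⟩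
  · intro v hv
    rw [hclv v hv, P.part_mem]
    exact Finset.mem_univ _
  · -- few unrelated pairs
    intro X Z hX hZ hun
    have hXc : ((lift X).card : ℝ) = ∑ A ∈ P.parts, (((lift X).filter (fun v => P.part v = A)).card : ℝ) := by
      rw [← Nat.cast_sum]
      congr 1
      exact Finset.card_eq_sum_card_fiberwise (fun v _ => P.part_mem.2 (Finset.mem_univ v))
    have hZc : ((lift Z).card : ℝ) = ∑ A ∈ P.parts, (((lift Z).filter (fun v => P.part v = A)).card : ℝ) := by
      rw [← Nat.cast_sum]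
      congr 1
      exact Finset.card_eq_sum_card_fiberwise (fun v _ => P.part_mem.2 (Finset.mem_univ v))
    have hfib : ∀ (W : Finset (Fin M)) (A : Finset (Fin M)), A ∈ P.parts →
        ((W.filter (fun v => P.part v = A)).card : ℝ) ≤ A.card := by
      intro W A hA
      have : W.filter (fun v => P.part v = A) ⊆ A := by
        intro v hv
        exact (P.part_eq_iff_mem hA).1 (Finset.mem_filter.1 hv).2
      exact_mod_cast Finset.card_le_card this
    have hterm : ∀ A ∈ P.parts, ∀ B ∈ P.parts,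
        (((lift X).filter (fun v => P.part v = A)).card : ℝ) *
          (((lift Z).filter (fun v => P.part v = B)).card : ℝ) ≤
        (if A = B then (A.card : ℝ) ^ 2 else 0) +
        (if A ≠ B ∧ ¬ G.IsUniform ε' A B then (A.card : ℝ) * B.card else 0) := by
      intro A hA B hB
      have hprod : (((lift X).filter (fun v => P.part v = A)).card : ℝ) *
          (((lift Z).filter (fun v => P.part v = B)).card : ℝ) ≤ (A.card : ℝ) * B.card :=
        mul_le_mul (hfib _ A hA) (hfib _ B hB) (by positivity) (by positivity)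
      by_cases h1 : A = B
      · rw [if_pos h1, if_neg (by tauto)]
        rw [← h1] at hprod ⊢
        nlinarith
      · by_cases h2 : G.IsUniform ε' A B
        · rw [if_neg h1, if_neg (by tauto)]
          have hzero : (((lift X).filter (fun v => P.part v = A)) = ∅) ∨
              (((lift Z).filter (fun v => P.part v = B)) = ∅) := by
            by_contra hcon
            push Not at hcon
            obtain ⟨⟨u, hu⟩, ⟨v, hv⟩⟩ := hcon
            rw [Finset.mem_filter, hliftmem] at hu hv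
            have h3 := hun u hu.1 v hv.1
            rw [hclv u u.2, hclv v v.2] at h3
            simp only [Fin.eta] at h3
            rw [hu.2, hv.2] at h3
            by_cases h4 : (1 / 2 : ℝ) ≤ (G.edgeDensity A B : ℝ)
            · exact h3.1 ⟨⟨hA, hB⟩, h1, h2, h4⟩
            · exact h3.2 ⟨⟨hA, hB⟩, h1, h2, h4⟩
          rcases hzero with h | h
          · rw [h]; simp
          · rw [h]; simp
        · rw [if_neg h1, if_pos ⟨h1, h2⟩]
          linarith
    have htot : (X.card : ℝ) * Z.card ≤ ∑ A ∈ P.parts, ∑ B ∈ P.parts,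
        ((if A = B then (A.card : ℝ) ^ 2 else 0) +
        (if A ≠ B ∧ ¬ G.IsUniform ε' A B then (A.card : ℝ) * B.card else 0)) := by
      rw [← hliftcard X hX, ← hliftcard Z hZ, hXc, hZc, Finset.sum_mul_sum]
      exact Finset.sum_le_sum fun A hA => Finset.sum_le_sum fun B hB => hterm A hA B hB
    refine htot.trans ?_
    simp_rw [Finset.sum_add_distrib]
    have t1 : ∑ A ∈ P.parts, ∑ B ∈ P.parts, (if A = B then (A.card : ℝ) ^ 2 else 0) ≤
        ε / 4 * (M : ℝ) ^ 2 := by
      have e1 : ∑ A ∈ P.parts, ∑ B ∈ P.parts, (if A = B then (A.card : ℝ) ^ 2 else 0) =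
          ∑ A ∈ P.parts, (A.card : ℝ) ^ 2 := by
        refine Finset.sum_congr rfl fun A hA => ?_
        rw [Finset.sum_ite_eq, if_pos hA]
      rw [e1]
      have e2 : ∑ A ∈ P.parts, (A.card : ℝ) ^ 2 ≤ ∑ A ∈ P.parts, (2 * (M / k)) * (A.card : ℝ) := by
        refine Finset.sum_le_sum fun A hA => ?_
        rw [sq]
        exact mul_le_mul_of_nonneg_right (hmax2 A hA) (Nat.cast_nonneg _)
      rw [← Finset.mul_sum, hsum] at e2
      have e3 : (M : ℝ) / k ≤ ε / 8 * M := by
        rw [div_le_iff₀ hkpos']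
        have : 8 ≤ ε * k := by
          rw [div_le_iff₀ hε] at hklarge
          linarith
        nlinarith
      nlinarith
    have t2 : ∑ A ∈ P.parts, ∑ B ∈ P.parts,
        (if A ≠ B ∧ ¬ G.IsUniform ε' A B then (A.card : ℝ) * B.card else 0) ≤
        ε / 2 * (M : ℝ) ^ 2 := by
      have e1 : ∑ A ∈ P.parts, ∑ B ∈ P.parts,
          (if A ≠ B ∧ ¬ G.IsUniform ε' A B then (A.card : ℝ) * B.card else 0) =
          ∑ i ∈ P.nonUniforms G ε', ((i.1.card : ℝ) * i.2.card) := by
        rw [← Finset.sum_product', ← Finset.sum_filter]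
        refine Finset.sum_congr ?_ fun _ _ => rfl
        ext ⟨A, B⟩
        rw [Finpartition.mk_mem_nonUniforms]
        simp only [mem_filter, mem_product]
        tauto
      rw [e1]
      have e2 := hP1.sum_nonUniforms_lt' hne hε'pos hP4
      rw [Finset.card_univ, Fintype.card_fin] at e2
      refine e2.le.trans ?_
      have e3 : ((M : ℝ) + k) ^ 2 ≤ (2 * (M : ℝ)) ^ 2 := by
        apply pow_le_pow_left₀ (by positivity)
        linarith
      have e4 : ε' * ((M : ℝ) + k) ^ 2 ≤ ε' * (2 * (M : ℝ)) ^ 2 :=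
        mul_le_mul_of_nonneg_left e3 hε'pos.le
      calc ε' * ((M : ℝ) + k) ^ 2 ≤ ε' * (2 * (M : ℝ)) ^ 2 := e4
        _ = ε / 2 * (M : ℝ) ^ 2 := by rw [hε']; ring
    nlinarith [mul_pos hε (pow_pos hMpos' 2)]
  · rintro A B ⟨⟨hA, hB⟩, h1, h2, h3⟩
    exact ⟨⟨hB, hA⟩, h1.symm, h2.symm, by rwa [G.edgeDensity_comm]⟩
  · rintro A B ⟨⟨hA, hB⟩, h1, h2, h3⟩
    exact ⟨⟨hB, hA⟩, h1.symm, h2.symm, by rwa [G.edgeDensity_comm]⟩
  · -- red pairs
    rintro A B ⟨⟨hA, hB⟩, h1, h2, h3⟩ X Z hX hZ hXA hZB hXs hZs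
    have hXA' : lift X ⊆ A := by
      intro v hv
      rw [hliftmem] at hv
      have := hXA v hv
      rw [hclv v v.2] at this
      exact (P.part_eq_iff_mem hA).1 this
    have hZB' : lift Z ⊆ B := by
      intro v hv
      rw [hliftmem] at hv
      have := hZB v hv
      rw [hclv v v.2] at this
      exact (P.part_eq_iff_mem hB).1 this
    have hthr : ∀ A ∈ P.parts, (A.card : ℝ) * ε' ≤ ε * M / k := by
      intro A hA
      have h4 := hmax2 A hA
      have h5 : (A.card : ℝ) * ε' ≤ (2 * (M / k)) * ε' := mul_le_mul_of_nonneg_right h4 hε'pos.le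
      have h6 : (2 * ((M : ℝ) / k)) * ε' = (ε * M / k) / 4 := by rw [hε']; ring
      have h7 : 0 ≤ ε * M / k := by positivity
      linarith
    have h4 := h2 hXA' hZB' ((hthr A hA).trans (by rw [hliftcard X hX]; exact hXs))
      ((hthr B hB).trans (by rw [hliftcard Z hZ]; exact hZs))
    rw [abs_lt] at h4
    have h5 : (1 / 4 : ℝ) ≤ (G.edgeDensity (lift X) (lift Z) : ℝ) := by
      have : ε' ≤ 1 / 8 := by rw [hε']; linarith
      linarith [h4.1]
    refine ⟨(G.interedges (lift X) (lift Z)).map (Fin.valEmbedding.prodMap Fin.valEmbedding),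
      ?_, ?_, ?_⟩
    · intro p hp
      rw [Finset.mem_map] at hp
      obtain ⟨⟨u, v⟩, huv, rfl⟩ := hp
      rw [SimpleGraph.mk_mem_interedges_iff, hliftmem, hliftmem] at huv
      exact Finset.mem_product.2 ⟨huv.1, huv.2.1⟩
    · intro p hp
      rw [Finset.mem_map] at hp
      obtain ⟨⟨u, v⟩, huv, rfl⟩ := hp
      rw [SimpleGraph.mk_mem_interedges_iff] at huv
      exact (hGadj u v).1 huv.2.2
    · rw [Finset.card_map, ← hdens, hliftcard X hX, hliftcard Z hZ]
      have h8 : 0 ≤ (X.card : ℝ) * Z.card := by positivity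
      have h9 := mul_le_mul_of_nonneg_right h5 h8
      linarith
  · -- blue pairs
    rintro A B ⟨⟨hA, hB⟩, h1, h2, h3⟩ X Z hX hZ hXA hZB hXs hZs
    have hXA' : lift X ⊆ A := by
      intro v hv
      rw [hliftmem] at hv
      have := hXA v hv
      rw [hclv v v.2] at this
      exact (P.part_eq_iff_mem hA).1 this
    have hZB' : lift Z ⊆ B := by
      intro v hv
      rw [hliftmem] at hv
      have := hZB v hv
      rw [hclv v v.2] at this
      exact (P.part_eq_iff_mem hB).1 this
    have hthr : ∀ A ∈ P.parts, (A.card : ℝ) * ε' ≤ ε * M / k := by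
      intro A hA
      have h4 := hmax2 A hA
      have h5 : (A.card : ℝ) * ε' ≤ (2 * (M / k)) * ε' := mul_le_mul_of_nonneg_right h4 hε'pos.le
      have h6 : (2 * ((M : ℝ) / k)) * ε' = (ε * M / k) / 4 := by rw [hε']; ring
      have h7 : 0 ≤ ε * M / k := by positivity
      linarith
    have h4 := h2 hXA' hZB' ((hthr A hA).trans (by rw [hliftcard X hX]; exact hXs))
      ((hthr B hB).trans (by rw [hliftcard Z hZ]; exact hZs))
    rw [abs_lt] at h4
    have h5 : (G.edgeDensity (lift X) (lift Z) : ℝ) ≤ 3 / 4 := by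
      have h6 : ε' ≤ 1 / 8 := by rw [hε']; linarith
      have h7 := not_le.1 h3
      linarith [h4.2]
    have hdAB : Disjoint A B := P.disjoint hA hB h1
    set E := ((lift X) ×ˢ (lift Z)).filter (fun p => ¬ G.Adj p.1 p.2) with hE
    have hEc : (E.card : ℝ) + ((G.interedges (lift X) (lift Z)).card : ℝ) =
        (X.card : ℝ) * Z.card := by
      have : E.card + (G.interedges (lift X) (lift Z)).card = (lift X).card * (lift Z).card := by
        rw [← Finset.card_product, add_comm, SimpleGraph.interedges, Rel.interedges, hE]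
        exact Finset.card_filter_add_card_filter_not _
      rw [← hliftcard X hX, ← hliftcard Z hZ]
      exact_mod_cast this
    refine ⟨E.map (Fin.valEmbedding.prodMap Fin.valEmbedding), ?_, ?_, ?_⟩
    · intro p hp
      rw [Finset.mem_map] at hp
      obtain ⟨⟨u, v⟩, huv, rfl⟩ := hp
      rw [hE, Finset.mem_filter, Finset.mem_product, hliftmem, hliftmem] at huv
      exact Finset.mem_product.2 ⟨huv.1.1, huv.1.2⟩
    · intro p hp
      rw [Finset.mem_map] at hp
      obtain ⟨⟨u, v⟩, huv, rfl⟩ := hp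
      rw [hE, Finset.mem_filter, Finset.mem_product] at huv
      show Rᶜ.Adj (u : ℕ) (v : ℕ)
      rw [SimpleGraph.compl_adj]
      refine ⟨?_, fun h => huv.2 ((hGadj u v).2 h)⟩
      intro h
      have h8 : u = v := Fin.ext h
      subst h8
      exact Finset.disjoint_left.1 hdAB (hXA' huv.1.1) (hZB' huv.1.2)
    · rw [Finset.card_map]
      rw [← hdens, hliftcard X hX, hliftcard Z hZ] at hEc
      have h8 : 0 ≤ (X.card : ℝ) * Z.card := by positivity
      have h9 := mul_le_mul_of_nonneg_right h5 h8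
      linarith

end Pool.Agent.R66.RD
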