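import Mathlib
import Pool.Agent.R66.RD.Copies
import Pool.Agent.R66.RD.Reg
import Pool.Agent.R66.RD.PackMain

/-!
Coverable finite sets, and the coverage achieved in one colour.
-/

namespace Pool.Agent.R66.RD

open Finset

variable {V : Type*}

/-- The finite set `A` is the union of a family of disjoint small sets that can be covered. -/
def Cov [Fintype V] (F : SimpleGraph V) (G : SimpleGraph ℕ) (A : Finset ℕ) : Prop :=
  ∃ 𝒲 : Finset (Finset ℕ), (𝒲 : Set (Finset ℕ)).PairwiseDisjoint id ∧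
    (∀ W ∈ 𝒲, Doable F G W ∧ W.card ≤ Fintype.card V) ∧ 𝒲.biUnion id = A

theorem cov_empty [Fintype V] (F : SimpleGraph V) (G : SimpleGraph ℕ) : Cov F G ∅ :=
  ⟨∅, by simp, by simp, by simp⟩

theorem cov_one [Fintype V] {F : SimpleGraph V} {G : SimpleGraph ℕ} {W : Finset ℕ}
    (h : Doable F G W) (hc : W.card ≤ Fintype.card V) : Cov F G W :=
  ⟨{W}, by simp, by simp [h, hc], by simp⟩

theorem cov_union [Fintype V] {F : SimpleGraph V} {G : SimpleGraph ℕ} {A B : Finset ℕ}
    (hA : Cov F G A) (hB : Cov F G B) (hAB : Disjoint A B) : Cov F G (A ∪ B) := by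
  classical
  obtain ⟨𝒲1, h1, h2, h3⟩ := hA
  obtain ⟨𝒲2, h4, h5, h6⟩ := hB
  have hsub1 : ∀ W ∈ 𝒲1, W ⊆ A := fun W hW x hx => by
    rw [← h3]; exact Finset.mem_biUnion.2 ⟨W, hW, hx⟩
  have hsub2 : ∀ W ∈ 𝒲2, W ⊆ B := fun W hW x hx => by
    rw [← h6]; exact Finset.mem_biUnion.2 ⟨W, hW, hx⟩
  refine ⟨𝒲1 ∪ 𝒲2, ?_, ?_, ?_⟩
  · intro W hW W' hW' hne
    rw [Finset.mem_coe, Finset.mem_union] at hW hW'
    rcases hW with hW | hW
    · rcases hW' with hW' | hW'
      · exact h1 hW hW' hne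
      · exact Finset.disjoint_of_subset_left (hsub1 W hW)
          (Finset.disjoint_of_subset_right (hsub2 W' hW') hAB)
    · rcases hW' with hW' | hW'
      · exact (Finset.disjoint_of_subset_left (hsub1 W' hW')
          (Finset.disjoint_of_subset_right (hsub2 W hW) hAB)).symm
      · exact h4 hW hW' hne
  · intro W hW
    rw [Finset.mem_union] at hW
    rcases hW with hW | hW
    · exact h2 W hW
    · exact h5 W hW
  · rw [Finset.union_biUnion, h3, h6]

theorem cov_biUnion [Fintype V] {F : SimpleGraph V} {G : SimpleGraph ℕ} {α : Type*}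
    (s : Finset α) (f : α → Finset ℕ) :
    (∀ i ∈ s, Cov F G (f i)) → (∀ i ∈ s, ∀ j ∈ s, i ≠ j → Disjoint (f i) (f j)) →
    Cov F G (s.biUnion f) := by
  classical
  induction s using Finset.induction_on with
  | empty => intro _ _; simpa using cov_empty F G
  | insert i s hi ih =>
    intro h1 h2
    rw [Finset.biUnion_insert]
    refine cov_union (h1 i (Finset.mem_insert_self _ _))
      (ih (fun j hj => h1 j (Finset.mem_insert_of_mem hj))
        (fun j hj k hk => h2 j (Finset.mem_insert_of_mem hj) k (Finset.mem_insert_of_mem hk))) ?_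
    rw [Finset.disjoint_biUnion_right]
    intro j hj
    refine h2 i (Finset.mem_insert_self _ _) j (Finset.mem_insert_of_mem hj) ?_
    rintro rfl
    exact hi hj

theorem cov_singles [Fintype V] [Nonempty V] {F : SimpleGraph V} {G : SimpleGraph ℕ}
    (A : Finset ℕ) (h : ∀ v ∈ A, Doable F G {v}) : Cov F G A := by
  classical
  have h1 : A.biUnion (fun v => ({v} : Finset ℕ)) = A := Finset.biUnion_singleton_eq_self
  rw [← h1]
  refine cov_biUnion A _ (fun v hv => cov_one (h v hv) ?_) ?_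
  · rw [Finset.card_singleton]
    exact Fintype.card_pos
  · intro i _ j _ hij
    rw [Finset.disjoint_singleton]
    exact hij

theorem cov_clique [Fintype V] {F : SimpleGraph V} {G : SimpleGraph ℕ} :
    ∀ (k : ℕ) (S : Finset ℕ), S.card = k * Fintype.card V → G.IsClique (S : Set ℕ) →
      Cov F G S := by
  classical
  intro k
  induction k with
  | zero =>
    intro S hS _
    rw [zero_mul, Finset.card_eq_zero] at hS
    subst hS
    exact cov_empty F G
  | succ k ih =>
    intro S hS hcl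
    obtain ⟨W, hW, hWc⟩ := Finset.exists_subset_card_eq
      (show Fintype.card V ≤ S.card by rw [hS]; nlinarith)
    have h1 : Cov F G (W ∪ (S \ W)) := by
      refine cov_union (cov_one (doable_clique F G (hcl.subset (by exact_mod_cast hW)) hWc) hWc.le)
        (ih (S \ W) ?_ (hcl.subset (by exact_mod_cast Finset.sdiff_subset))) Finset.disjoint_sdiff
      rw [Finset.card_sdiff_of_subset hW, hS, hWc, Nat.succ_mul]
      omega
    rwa [Finset.union_sdiff_of_subset hW] at h1

theorem cov_free [Fintype V] [Nonempty V] {F : SimpleGraph V} {G : SimpleGraph ℕ}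
    {S : Finset ℕ} (h : G.IsClique (S : Set ℕ) ∨ Rich G S) (hS : Fintype.card V ∣ S.card) :
    Cov F G S := by
  rcases h with h | h
  · obtain ⟨k, hk⟩ := hS
    exact cov_clique k S (by rw [hk, mul_comm]) h
  · exact cov_singles S (fun v hv => doable_singleton F G h hv)

open Classical in
/-- Coverage in one colour. Hosts are the blocks of `H`, guests are the elements of `B`, and `C` is
covered anyway. -/
theorem cover_colour [Fintype V] [Nonempty V] (F : SimpleGraph V) (G : SimpleGraph ℕ)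
    (I N : Finset V) (hIN : Disjoint I N) (hI : ∀ x ∈ I, ∀ y, F.Adj x y → y ∈ N)
    (hIpos : 0 < I.card) (hNpos : 0 < N.card)
    {ι : Type} (P : Finset ι) (cl : ℕ → ι) (rel : ι → ι → Prop) (M T : ℕ) (σ : ℝ)
    (hclP : ∀ v < M, cl v ∈ P)
    (hdense : DensePairs G M cl rel σ) (hσ0 : 0 < σ)
    (hT1 : 8 * (N.card : ℝ) * M < T * σ) (hT2 : (T : ℝ) * 2 ^ T * I.card ≤ N.card * σ)
    (H : Finset (Finset ℕ)) (hHd : (H : Set (Finset ℕ)).PairwiseDisjoint id)
    (hHT : ∀ S ∈ H, S.card = T) (hHM : ∀ S ∈ H, S ⊆ range M)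
    (hHcl : ∀ S ∈ H, G.IsClique (S : Set ℕ)) (hHr : ∀ S ∈ H, Rich G S)
    (B C : Finset ℕ) (hBM : B ⊆ range M) (hHB : Disjoint (H.biUnion id) B)
    (hC : Cov F G C) (hHC : Disjoint (H.biUnion id) C) (hBC : Disjoint B C) (n : ℕ) :
    ∃ S ⊆ B ∩ range n, ∃ 𝒲 : Finset (Finset ℕ), (𝒲 : Set (Finset ℕ)).PairwiseDisjoint id ∧
      (∀ W ∈ 𝒲, Doable F G W ∧ W.card ≤ Fintype.card V) ∧
      (((H.biUnion id ∪ B ∪ C) ∩ range n).card : ℝ) -
        ((S.card : ℝ) - (I.card : ℝ) / N.card *
          ((H.biUnion id).filter (fun u => ∃ v ∈ S, rel (cl u) (cl v))).card) -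
        (((I.card : ℝ) + N.card) * P.card * (σ + 1) + I.card * N.card * (P.card : ℝ) ^ 2) ≤
      ((𝒲.biUnion id ∩ range n).card : ℝ) := by
  set a := I.card with ha
  set b := N.card with hb
  set X := H.biUnion id with hX
  set Z := B ∩ range n with hZ
  set s := ⌈σ⌉₊ with hs
  have hsσ : σ ≤ s := Nat.le_ceil σ
  have hsσ' : (s : ℝ) ≤ σ + 1 := (Nat.ceil_lt_add_one hσ0.le).le
  have hXM : X ⊆ range M := by
    intro u hu
    rw [hX, Finset.mem_biUnion] at hu
    obtain ⟨S, hS, hu⟩ := hu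
    exact hHM S hS hu
  have hZB : Z ⊆ B := Finset.inter_subset_left
  have hZM : Z ⊆ range M := hZB.trans hBM
  obtain ⟨𝒦, hK1, hK2, S, hS, hK3⟩ := pack G P cl rel a b s hIpos hNpos H Z
    (fun u hu => hclP u (Finset.mem_range.1 (hXM hu)))
    (fun v hv => hclP v (Finset.mem_range.1 (hZM hv))) (by
      intro κ κ' hrel X' Z' hX' hZ' hX'c hZ'c hsX hsZ
      have hsX' : σ ≤ X'.card := hsσ.trans (by exact_mod_cast hsX)
      have hsZ' : σ ≤ Z'.card := hsσ.trans (by exact_mod_cast hsZ)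
      obtain ⟨E, hE1, hE2, hE3⟩ := hdense κ κ' hrel X' Z' (hX'.trans hXM) (hZ'.trans hZM)
        hX'c hZ'c hsX' hsZ'
      refine config_exists G a b T M H hHd hHT hHM X' Z' hX' E hE1 hE2 hE3 ?_ ?_ ?_
      · have h1 : 8 * (b : ℝ) * M < T * X'.card := by
          have hT0 : (0 : ℝ) ≤ T := Nat.cast_nonneg _
          have := mul_le_mul_of_nonneg_left hsX' hT0
          linarith
        exact_mod_cast h1
      · have h1 : (T : ℝ) * 2 ^ T * a ≤ b * Z'.card := by
          have hb0 : (0 : ℝ) ≤ b := Nat.cast_nonneg _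
          have := mul_le_mul_of_nonneg_left hsZ' hb0
          linarith
        exact_mod_cast h1
      · have h1 : (0 : ℝ) < Z'.card := lt_of_lt_of_le hσ0 hsZ'
        exact_mod_cast h1)
  refine ⟨S, hS, ?_⟩
  set Y1 := 𝒦.biUnion Prod.fst with hY1
  set J1 := 𝒦.biUnion Prod.snd with hJ1
  have hp1 : ∀ p ∈ 𝒦, p.1 ⊆ X := by
    intro p hp y hy
    obtain ⟨⟨S', hS', hpS⟩, _⟩ := hK1 p hp
    rw [hX, Finset.mem_biUnion]
    exact ⟨S', hS', hpS hy⟩
  have hp2 : ∀ p ∈ 𝒦, p.2 ⊆ Z := fun p hp => (hK1 p hp).2.1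
  have hXZ : Disjoint X Z := Finset.disjoint_of_subset_right hZB hHB
  have hp12 : ∀ p ∈ 𝒦, ∀ q ∈ 𝒦, Disjoint p.1 q.2 := by
    intro p hp q hq
    exact Finset.disjoint_of_subset_left (hp1 p hp) (Finset.disjoint_of_subset_right (hp2 q hq) hXZ)
  -- the covered set
  have hcovK : Cov F G (𝒦.biUnion (fun p => p.1 ∪ p.2)) := by
    refine cov_biUnion 𝒦 _ ?_ ?_
    · intro p hp
      obtain ⟨⟨S', hS', hpS⟩, h2, h3, h4, h5⟩ := hK1 p hp
      have hd : Disjoint p.2 p.1 := (hp12 p hp p hp).symm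
      refine cov_one (doable_config F G hIN hI (hHr S' hS') (hHcl S' hS') hpS hd
        (by rw [h4]) (by rw [h3]) h5) ?_
      refine (Finset.card_union_le _ _).trans ?_
      rw [h3, h4, ha, hb, add_comm, ← Finset.card_union_of_disjoint hIN]
      exact Finset.card_le_univ _
    · intro p hp q hq hpq
      obtain ⟨h1, h2⟩ := hK2 p hp q hq hpq
      rw [Finset.disjoint_union_left, Finset.disjoint_union_right, Finset.disjoint_union_right]
      exact ⟨⟨h1, hp12 p hp q hq⟩, (hp12 q hq p hp).symm, h2⟩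
  have hcovX : Cov F G (X \ Y1) := by
    refine cov_singles _ ?_
    intro v hv
    rw [Finset.mem_sdiff, hX, Finset.mem_biUnion] at hv
    obtain ⟨⟨S', hS', hv⟩, _⟩ := hv
    exact doable_singleton F G (hHr S' hS') hv
  have hd1 : Disjoint (𝒦.biUnion (fun p => p.1 ∪ p.2)) (X \ Y1) := by
    rw [Finset.disjoint_left]
    intro v hv hv'
    rw [Finset.mem_biUnion] at hv
    obtain ⟨p, hp, hv⟩ := hv
    rw [Finset.mem_sdiff] at hv'
    rcases Finset.mem_union.1 hv with hv | hv
    · exact hv'.2 (Finset.mem_biUnion.2 ⟨p, hp, hv⟩)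
    · exact Finset.disjoint_left.1 hXZ hv'.1 (hp2 p hp hv)
  have hd2 : Disjoint (𝒦.biUnion (fun p => p.1 ∪ p.2) ∪ (X \ Y1)) C := by
    rw [Finset.disjoint_left]
    intro v hv hvC
    rcases Finset.mem_union.1 hv with hv | hv
    · rw [Finset.mem_biUnion] at hv
      obtain ⟨p, hp, hv⟩ := hv
      rcases Finset.mem_union.1 hv with hv | hv
      · exact Finset.disjoint_left.1 hHC (hp1 p hp hv) hvC
      · exact Finset.disjoint_left.1 hBC (hZB (hp2 p hp hv)) hvC
    · exact Finset.disjoint_left.1 hHC (Finset.mem_sdiff.1 hv).1 hvC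
  obtain ⟨𝒲, hW1, hW2, hW3⟩ := cov_union (cov_union hcovK hcovX hd1) hC hd2
  refine ⟨𝒲, hW1, hW2, ?_⟩
  rw [hW3]
  set A := (𝒦.biUnion (fun p => p.1 ∪ p.2) ∪ (X \ Y1)) ∪ C with hA
  -- count
  have hJ1c : J1.card = 𝒦.card * a := by
    rw [hJ1, Finset.card_biUnion (fun p hp q hq hpq => (hK2 p hp q hq hpq).2)]
    rw [Finset.sum_congr rfl (fun p hp => (hK1 p hp).2.2.2.1), Finset.sum_const, smul_eq_mul]
  have hJ1Z : J1 ⊆ Z := by
    intro v hv
    rw [hJ1, Finset.mem_biUnion] at hv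
    obtain ⟨p, hp, hv⟩ := hv
    exact hp2 p hp hv
  have hcount : ((X ∪ B ∪ C) ∩ range n).card + 𝒦.card * a ≤ (A ∩ range n).card + Z.card := by
    have h1 : (X ∪ B ∪ C) ∩ range n ⊆ (A ∩ range n) ∪ (Z \ J1) := by
      intro v hv
      rw [Finset.mem_inter, Finset.mem_union, Finset.mem_union] at hv
      obtain ⟨hv, hvn⟩ := hv
      rw [Finset.mem_union]
      rcases hv with (hv | hv) | hv
      · left
        rw [Finset.mem_inter]
        refine ⟨?_, hvn⟩
        rw [hA, Finset.mem_union, Finset.mem_union]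
        left
        by_cases h : v ∈ Y1
        · left
          rw [hY1, Finset.mem_biUnion] at h
          obtain ⟨p, hp, hvp⟩ := h
          exact Finset.mem_biUnion.2 ⟨p, hp, Finset.mem_union_left _ hvp⟩
        · right
          exact Finset.mem_sdiff.2 ⟨hv, h⟩
      · by_cases h : v ∈ J1
        · left
          rw [Finset.mem_inter]
          refine ⟨?_, hvn⟩
          rw [hA, Finset.mem_union, Finset.mem_union]
          left; left
          rw [hJ1, Finset.mem_biUnion] at h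
          obtain ⟨p, hp, hvp⟩ := h
          exact Finset.mem_biUnion.2 ⟨p, hp, Finset.mem_union_right _ hvp⟩
        · right
          rw [Finset.mem_sdiff, hZ, Finset.mem_inter]
          exact ⟨⟨hv, hvn⟩, h⟩
      · left
        rw [Finset.mem_inter]
        exact ⟨Finset.mem_union_right _ hv, hvn⟩
    have h2 := (Finset.card_le_card h1).trans (Finset.card_union_le _ _)
    rw [Finset.card_sdiff_of_subset hJ1Z, hJ1c] at h2
    have h3 := Finset.card_le_card hJ1Z
    rw [hJ1c] at h3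
    omega
  have hcountR : (((X ∪ B ∪ C) ∩ range n).card : ℝ) + 𝒦.card * a ≤
      ((A ∩ range n).card : ℝ) + Z.card := by exact_mod_cast hcount
  have haR : (0 : ℝ) < a := by exact_mod_cast hIpos
  have hbR : (0 : ℝ) < b := by exact_mod_cast hNpos
  have hb1 : (1 : ℝ) ≤ b := by exact_mod_cast hNpos
  set Nn : ℝ := ((X.filter (fun u => ∃ v ∈ S, rel (cl u) (cl v))).card : ℝ) with hNn
  -- divide the packing inequality by b
  have hL : ((a : ℝ) + b) * P.card * s + a * b * (P.card : ℝ) ^ 2 ≤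
      ((a : ℝ) + b) * P.card * (σ + 1) + a * b * (P.card : ℝ) ^ 2 := by
    have : ((a : ℝ) + b) * P.card * s ≤ ((a : ℝ) + b) * P.card * (σ + 1) :=
      mul_le_mul_of_nonneg_left hsσ' (by positivity)
    linarith
  set L : ℝ := ((a : ℝ) + b) * P.card * (σ + 1) + a * b * (P.card : ℝ) ^ 2 with hLdef
  have hL0 : 0 ≤ L := by positivity
  have hdiv : (Z.card : ℝ) ≤ a * 𝒦.card + ((S.card : ℝ) - (a : ℝ) / b * Nn) + L / b := by
    have h1 : (b : ℝ) * Z.card ≤ a * b * 𝒦.card + ((b : ℝ) * S.card - a * Nn) + L := by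
      linarith
    have h2 : (a : ℝ) * 𝒦.card + ((S.card : ℝ) - (a : ℝ) / b * Nn) + L / b =
        (a * b * 𝒦.card + ((b : ℝ) * S.card - a * Nn) + L) / b := by
      field_simp
    rw [h2, le_div_iff₀ hbR, mul_comm]
    exact h1
  have hLb : L / b ≤ L := div_le_self hL0 hb1
  linarith

end Pool.Agent.R66.RD
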