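import Mathlib
import Pool.Agent.R66.RD.Cover

/-!
The key lemma: simultaneous coverage in both colours with correlated dual witnesses.
-/

namespace Pool.Agent.R66.RD

open Finset

theorem decompose (Q : Finset ℕ → Prop) (T N0 : ℕ) (hT : 0 < T)
    (h : ∀ Y : Finset ℕ, N0 ≤ Y.card → ∃ S ⊆ Y, S.card = T ∧ Q S) :
    ∀ (m : ℕ) (Y : Finset ℕ), Y.card ≤ m → ∃ 𝓑 : Finset (Finset ℕ),
      (𝓑 : Set (Finset ℕ)).PairwiseDisjoint id ∧ (∀ S ∈ 𝓑, S ⊆ Y ∧ S.card = T ∧ Q S) ∧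
      (Y \ 𝓑.biUnion id).card ≤ N0 := by
  classical
  intro m
  induction m with
  | zero =>
    intro Y hY
    refine ⟨∅, by simp, by simp, ?_⟩
    simp only [Finset.biUnion_empty, Finset.sdiff_empty]
    omega
  | succ m ih =>
    intro Y hY
    by_cases hN : N0 ≤ Y.card
    · obtain ⟨S, hS, hSc, hSQ⟩ := h Y hN
      have hlt : (Y \ S).card ≤ m := by
        rw [Finset.card_sdiff_of_subset hS, hSc]
        omega
      obtain ⟨𝓑, h1, h2, h3⟩ := ih (Y \ S) hlt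
      refine ⟨insert S 𝓑, ?_, ?_, ?_⟩
      · rw [Finset.coe_insert]
        refine h1.insert ?_
        intro S' hS' _
        have := (h2 S' hS').1
        exact Finset.disjoint_of_subset_right this Finset.disjoint_sdiff
      · intro S' hS'
        rcases Finset.mem_insert.1 hS' with rfl | hS'
        · exact ⟨hS, hSc, hSQ⟩
        · obtain ⟨h4, h5⟩ := h2 S' hS'
          exact ⟨h4.trans Finset.sdiff_subset, h5⟩
      · rw [Finset.biUnion_insert]
        have : Y \ (id S ∪ 𝓑.biUnion id) = (Y \ S) \ 𝓑.biUnion id := by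
          ext x
          simp only [Finset.mem_sdiff, Finset.mem_union, id]
          tauto
        rw [this]
        exact h3
    · refine ⟨∅, by simp, by simp, ?_⟩
      simp only [Finset.biUnion_empty, Finset.sdiff_empty]
      omega

variable {V : Type*}

/-- Coverage statement for one colour at one place. -/
def Covers [Fintype V] (F : SimpleGraph V) (G : SimpleGraph ℕ) (n : ℕ) (x : ℝ) : Prop :=
  ∃ 𝒲 : Finset (Finset ℕ), (𝒲 : Set (Finset ℕ)).PairwiseDisjoint id ∧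
    (∀ W ∈ 𝒲, Doable F G W ∧ W.card ≤ Fintype.card V) ∧
    x ≤ ((𝒲.biUnion id ∩ range n).card : ℝ)

open Classical in
theorem key [Fintype V] [Nonempty V] (F : SimpleGraph V) (R : SimpleGraph ℕ)
    (I N : Finset V) (hIN : Disjoint I N) (hI : ∀ x ∈ I, ∀ y, F.Adj x y → y ∈ N)
    (hIpos : 0 < I.card) (hNpos : 0 < N.card) (δ : ℝ) (hδ : 0 < δ) (hδ1 : δ ≤ 1) :
    ∃ M0 : ℕ, ∀ M ≥ M0, ∃ jp ip im jm : ℕ → ℝ,
      (∀ n, 0 ≤ jp n ∧ 0 ≤ ip n ∧ 0 ≤ im n ∧ 0 ≤ jm n) ∧
      (∀ n, jp n + im n ≤ n) ∧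
      (∀ n n', im n' ≤ ip n + δ * M ∨ jp n ≤ jm n' + δ * M) ∧
      (∀ n ≤ M, Covers F R n (n - (jp n - (I.card : ℝ) / N.card * ip n) - δ * M)) ∧
      (∀ n ≤ M, Covers F Rᶜ n (n - (im n - (I.card : ℝ) / N.card * jm n) - δ * M)) := by
  set a := I.card with ha
  set b := N.card with hb
  have haR : (0 : ℝ) < a := by exact_mod_cast hIpos
  have hbR : (0 : ℝ) < b := by exact_mod_cast hNpos
  have hb1 : (1 : ℝ) ≤ b := by exact_mod_cast hNpos
  set ε₂ : ℝ := min (δ ^ 2) (δ / (4 * (a + b))) with hε₂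
  have hε₂pos : 0 < ε₂ := lt_min (by positivity) (by positivity)
  have hε₂δ : ε₂ ≤ δ ^ 2 := min_le_left _ _
  have hε₂δ' : ε₂ ≤ δ / (4 * (a + b)) := min_le_right _ _
  have hε₂1 : ε₂ ≤ 1 := hε₂δ.trans (by nlinarith)
  obtain ⟨K, hKpos, hreg⟩ := reg ε₂ hε₂pos hε₂1
  have hKR : (0 : ℝ) < K := by exact_mod_cast hKpos
  set v := Fintype.card V with hv
  have hvpos : 0 < v := Fintype.card_pos
  set T : ℕ := v * (⌈8 * (b : ℝ) * K / ε₂⌉₊ + 1) with hT
  have hTpos : 0 < T := Nat.mul_pos hvpos (Nat.succ_pos _)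
  have hTbig : 8 * (b : ℝ) * K / ε₂ < T := by
    have h1 : 8 * (b : ℝ) * K / ε₂ ≤ ⌈8 * (b : ℝ) * K / ε₂⌉₊ := Nat.le_ceil _
    have h2 : (⌈8 * (b : ℝ) * K / ε₂⌉₊ : ℝ) + 1 ≤ T := by
      have : ⌈8 * (b : ℝ) * K / ε₂⌉₊ + 1 ≤ T := Nat.le_mul_of_pos_left _ hvpos
      exact_mod_cast this
    linarith
  obtain ⟨N0, hN0⟩ := block R T
  obtain ⟨M0, hM0⟩ := exists_nat_ge ((K : ℝ) + 1 + (T : ℝ) * 2 ^ T * a * K / ε₂ + 4 * N0 / δ +
    4 * (((a : ℝ) + b) * K + a * b * (K : ℝ) ^ 2) / δ)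
  refine ⟨M0, fun M hM => ?_⟩
  have hMR : (M0 : ℝ) ≤ M := by exact_mod_cast hM
  have p1 : (0 : ℝ) ≤ (T : ℝ) * 2 ^ T * a * K / ε₂ := by positivity
  have p2 : (0 : ℝ) ≤ 4 * N0 / δ := by positivity
  have p3 : (0 : ℝ) ≤ 4 * (((a : ℝ) + b) * K + a * b * (K : ℝ) ^ 2) / δ := by positivity
  have hMK : (K : ℝ) ≤ M := by linarith
  have hMK' : K ≤ M := by exact_mod_cast hMK
  have hM1 : (1 : ℝ) ≤ M := by linarith
  have hMT : (T : ℝ) * 2 ^ T * a * K / ε₂ ≤ M := by linarith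
  have hMN : 4 * (N0 : ℝ) / δ ≤ M := by linarith
  have hML : 4 * (((a : ℝ) + b) * K + a * b * (K : ℝ) ^ 2) / δ ≤ M := by linarith
  rw [div_le_iff₀ hε₂pos] at hMT
  rw [div_le_iff₀ hδ] at hMN hML
  have hMpos : (0 : ℝ) < M := by linarith
  obtain ⟨ι, P, cl, rR, rB, hP0, hPK, hclP, hfew, hsR, hsB, hdR, hdB⟩ := hreg R M hMK'
  have hP0R : (0 : ℝ) < P.card := by exact_mod_cast hP0
  have hPKR : (P.card : ℝ) ≤ K := by exact_mod_cast hPK
  set σ : ℝ := ε₂ * M / P.card with hσ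
  have hσ0 : 0 < σ := by positivity
  have hPσ : P.card * σ = ε₂ * M := by rw [hσ]; field_simp
  have hKσ : ε₂ * M ≤ K * σ := by
    rw [← hPσ]; exact mul_le_mul_of_nonneg_right hPKR hσ0.le
  have hT1 : 8 * (b : ℝ) * M < T * σ := by
    rw [div_lt_iff₀ hε₂pos] at hTbig
    -- 8 b K < T ε₂
    have h1 : 8 * (b : ℝ) * K * M < T * ε₂ * M := mul_lt_mul_of_pos_right hTbig hMpos
    have h2 : (T : ℝ) * (ε₂ * M) ≤ T * (K * σ) := mul_le_mul_of_nonneg_left hKσ (Nat.cast_nonneg _)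
    have h3 : K * (8 * (b : ℝ) * M) < K * (T * σ) := by
      calc K * (8 * (b : ℝ) * M) = 8 * (b : ℝ) * K * M := by ring
        _ < T * ε₂ * M := h1
        _ = (T : ℝ) * (ε₂ * M) := by ring
        _ ≤ T * (K * σ) := h2
        _ = K * (T * σ) := by ring
    exact lt_of_mul_lt_mul_left h3 hKR.le
  have hT2 : (T : ℝ) * 2 ^ T * a ≤ b * σ := by
    have h1 : (T : ℝ) * 2 ^ T * a * K ≤ K * σ := by
      calc (T : ℝ) * 2 ^ T * a * K ≤ M * ε₂ := hMT
        _ = ε₂ * M := by ring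
        _ ≤ K * σ := hKσ
    have h2 : K * ((T : ℝ) * 2 ^ T * a) ≤ K * σ := by linarith
    have h3 : (T : ℝ) * 2 ^ T * a ≤ σ := le_of_mul_le_mul_left h2 hKR
    calc (T : ℝ) * 2 ^ T * a ≤ σ := h3
      _ = 1 * σ := (one_mul _).symm
      _ ≤ b * σ := mul_le_mul_of_nonneg_right hb1 hσ0.le
  have hloss : (N0 : ℝ) + (((a : ℝ) + b) * P.card * (σ + 1) + a * b * (P.card : ℝ) ^ 2) ≤
      δ * M := by
    have h1 : ((a : ℝ) + b) * P.card * (σ + 1) + a * b * (P.card : ℝ) ^ 2 =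
        ((a : ℝ) + b) * (P.card * σ) + (((a : ℝ) + b) * P.card + a * b * (P.card : ℝ) ^ 2) := by
      ring
    have h2 : ((a : ℝ) + b) * P.card + a * b * (P.card : ℝ) ^ 2 ≤
        ((a : ℝ) + b) * K + a * b * (K : ℝ) ^ 2 := by
      have h3 : (P.card : ℝ) ^ 2 ≤ (K : ℝ) ^ 2 := pow_le_pow_left₀ hP0R.le hPKR 2
      have h4 : ((a : ℝ) + b) * P.card ≤ ((a : ℝ) + b) * K :=
        mul_le_mul_of_nonneg_left hPKR (by positivity)
      have h5 : (a : ℝ) * b * (P.card : ℝ) ^ 2 ≤ a * b * (K : ℝ) ^ 2 :=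
        mul_le_mul_of_nonneg_left h3 (by positivity)
      linarith
    have h6 : ((a : ℝ) + b) * (P.card * σ) ≤ δ * M / 4 := by
      rw [hPσ]
      have h7 : ((a : ℝ) + b) * ε₂ ≤ δ / 4 := by
        have := mul_le_mul_of_nonneg_left hε₂δ' (show (0 : ℝ) ≤ a + b by positivity)
        calc ((a : ℝ) + b) * ε₂ ≤ (a + b) * (δ / (4 * (a + b))) := this
          _ = δ / 4 := by field_simp
      calc ((a : ℝ) + b) * (ε₂ * M) = ((a : ℝ) + b) * ε₂ * M := by ring
        _ ≤ δ / 4 * M := mul_le_mul_of_nonneg_right h7 hMpos.le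
        _ = δ * M / 4 := by ring
    rw [h1]
    linarith
  -- the blocks
  obtain ⟨𝓑, hB1, hB2, hB3⟩ := decompose (fun S : Finset ℕ => (R.IsClique (S : Set ℕ) ∨
    Rᶜ.IsClique (S : Set ℕ)) ∧ (Rich R S ∨ Rich Rᶜ S)) T N0 hTpos hN0 M (range M)
    (by rw [Finset.card_range])
  set H1 := 𝓑.filter (fun S : Finset ℕ => R.IsClique (S : Set ℕ) ∧ Rich R S) with hH1
  set H2 := 𝓑.filter (fun S : Finset ℕ => ¬ (R.IsClique (S : Set ℕ) ∧ Rich R S) ∧
    (Rᶜ.IsClique (S : Set ℕ) ∧ Rich Rᶜ S)) with hH2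
  set H3 := 𝓑.filter (fun S : Finset ℕ => ¬ (R.IsClique (S : Set ℕ) ∧ Rich R S) ∧
    ¬ (Rᶜ.IsClique (S : Set ℕ) ∧ Rich Rᶜ S)) with hH3
  have hH1B : H1 ⊆ 𝓑 := Finset.filter_subset _ _
  have hH2B : H2 ⊆ 𝓑 := Finset.filter_subset _ _
  have hH3B : H3 ⊆ 𝓑 := Finset.filter_subset _ _
  have hdisj : ∀ (A A' : Finset (Finset ℕ)), A ⊆ 𝓑 → A' ⊆ 𝓑 → Disjoint A A' →
      Disjoint (A.biUnion id) (A'.biUnion id) := by
    intro A A' hA hA' hAA'
    rw [Finset.disjoint_biUnion_left]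
    intro S hS
    rw [Finset.disjoint_biUnion_right]
    intro S' hS'
    refine hB1 (hA hS) (hA' hS') ?_
    rintro rfl
    exact Finset.disjoint_left.1 hAA' hS hS'
  have h12 : Disjoint H1 H2 := by
    rw [Finset.disjoint_left]
    intro S h1 h2
    rw [hH1, Finset.mem_filter] at h1
    rw [hH2, Finset.mem_filter] at h2
    exact h2.2.1 h1.2
  have h13 : Disjoint H1 H3 := by
    rw [Finset.disjoint_left]
    intro S h1 h2
    rw [hH1, Finset.mem_filter] at h1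
    rw [hH3, Finset.mem_filter] at h2
    exact h2.2.1 h1.2
  have h23 : Disjoint H2 H3 := by
    rw [Finset.disjoint_left]
    intro S h1 h2
    rw [hH2, Finset.mem_filter] at h1
    rw [hH3, Finset.mem_filter] at h2
    exact h2.2.2 h1.2.2
  set X1 := H1.biUnion id with hX1
  set X2 := H2.biUnion id with hX2
  set C := H3.biUnion id with hC
  have hX12 : Disjoint X1 X2 := hdisj H1 H2 hH1B hH2B h12
  have hX13 : Disjoint X1 C := hdisj H1 H3 hH1B hH3B h13
  have hX23 : Disjoint X2 C := hdisj H2 H3 hH2B hH3B h23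
  have hsubM : ∀ A ⊆ 𝓑, A.biUnion id ⊆ range M := by
    intro A hA u hu
    rw [Finset.mem_biUnion] at hu
    obtain ⟨S, hS, hu⟩ := hu
    exact (hB2 S (hA hS)).1 hu
  have hvT : Fintype.card V ∣ T := ⟨_, hT⟩
  have hfree : ∀ S ∈ H3, (R.IsClique (S : Set ℕ) ∨ Rich R S) ∧
      (Rᶜ.IsClique (S : Set ℕ) ∨ Rich Rᶜ S) := by
    intro S hS
    rw [hH3, Finset.mem_filter] at hS
    obtain ⟨hSB, h1, h2⟩ := hS
    obtain ⟨_, _, h3, h4⟩ := hB2 S hSB
    tauto
  have hCR : Cov F R C := by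
    refine cov_biUnion H3 id ?_ ?_
    · intro S hS
      refine cov_free (hfree S hS).1 ?_
      show Fintype.card V ∣ S.card
      rw [(hB2 S (hH3B hS)).2.1]; exact hvT
    · intro S hS S' hS' hne
      exact hB1 (hH3B hS) (hH3B hS') hne
  have hCB : Cov F Rᶜ C := by
    refine cov_biUnion H3 id ?_ ?_
    · intro S hS
      refine cov_free (hfree S hS).2 ?_
      show Fintype.card V ∣ S.card
      rw [(hB2 S (hH3B hS)).2.1]; exact hvT
    · intro S hS S' hS' hne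
      exact hB1 (hH3B hS) (hH3B hS') hne
  have hrest : ∀ n ≤ M, (n : ℝ) - N0 ≤ (((X1 ∪ X2 ∪ C) ∩ range n).card : ℝ) := by
    intro n hn
    have h1 : range n ⊆ ((X1 ∪ X2 ∪ C) ∩ range n) ∪ (range M \ 𝓑.biUnion id) := by
      intro u hu
      rw [Finset.mem_union]
      by_cases h : u ∈ 𝓑.biUnion id
      · left
        rw [Finset.mem_inter]
        refine ⟨?_, hu⟩
        rw [Finset.mem_biUnion] at h
        obtain ⟨S, hS, huS⟩ := h
        rw [Finset.mem_union, Finset.mem_union]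
        by_cases c1 : R.IsClique (S : Set ℕ) ∧ Rich R S
        · left; left
          exact Finset.mem_biUnion.2 ⟨S, Finset.mem_filter.2 ⟨hS, c1⟩, huS⟩
        · by_cases c2 : Rᶜ.IsClique (S : Set ℕ) ∧ Rich Rᶜ S
          · left; right
            exact Finset.mem_biUnion.2 ⟨S, Finset.mem_filter.2 ⟨hS, c1, c2⟩, huS⟩
          · right
            exact Finset.mem_biUnion.2 ⟨S, Finset.mem_filter.2 ⟨hS, c1, c2⟩, huS⟩
      · right
        rw [Finset.mem_sdiff, Finset.mem_range]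
        exact ⟨lt_of_lt_of_le (Finset.mem_range.1 hu) hn, h⟩
    have h2 := (Finset.card_le_card h1).trans (Finset.card_union_le _ _)
    rw [Finset.card_range] at h2
    have h3 : n ≤ ((X1 ∪ X2 ∪ C) ∩ range n).card + N0 := by omega
    have h4 : (n : ℝ) ≤ (((X1 ∪ X2 ∪ C) ∩ range n).card : ℝ) + N0 := by exact_mod_cast h3
    linarith
  have hcR := fun n => cover_colour F R I N hIN hI hIpos hNpos P cl rR M T σ hclP hdR hσ0 hT1 hT2
    H1 (hB1.subset (by exact_mod_cast hH1B)) (fun S hS => (hB2 S (hH1B hS)).2.1)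
    (fun S hS => (hB2 S (hH1B hS)).1) (fun S hS => (Finset.mem_filter.1 hS).2.1)
    (fun S hS => (Finset.mem_filter.1 hS).2.2) X2 C (hsubM H2 hH2B) hX12 hCR hX13 hX23 n
  have hcB := fun n => cover_colour F Rᶜ I N hIN hI hIpos hNpos P cl rB M T σ hclP hdB hσ0 hT1 hT2
    H2 (hB1.subset (by exact_mod_cast hH2B)) (fun S hS => (hB2 S (hH2B hS)).2.1)
    (fun S hS => (hB2 S (hH2B hS)).1) (fun S hS => (Finset.mem_filter.1 hS).2.2.1)
    (fun S hS => (Finset.mem_filter.1 hS).2.2.2) X1 C (hsubM H1 hH1B) hX12.symm hCB hX23 hX13 n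
  choose Sp hSp 𝒲p hp1 hp2 hp3 using hcR
  choose Sm hSm 𝒲m hm1 hm2 hm3 using hcB
  refine ⟨fun n => ((Sp n).card : ℝ),
    fun n => ((X1.filter (fun u => ∃ v ∈ Sp n, rR (cl u) (cl v))).card : ℝ),
    fun n => ((Sm n).card : ℝ),
    fun n => ((X2.filter (fun u => ∃ v ∈ Sm n, rB (cl u) (cl v))).card : ℝ), ?_, ?_, ?_, ?_, ?_⟩
  · intro n
    exact ⟨Nat.cast_nonneg _, Nat.cast_nonneg _, Nat.cast_nonneg _, Nat.cast_nonneg _⟩
  · intro n
    have h1 : Disjoint (Sp n) (Sm n) :=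
      Finset.disjoint_of_subset_left ((hSp n).trans Finset.inter_subset_left)
        (Finset.disjoint_of_subset_right ((hSm n).trans Finset.inter_subset_left) hX12.symm)
    have h2 : (Sp n).card + (Sm n).card ≤ n := by
      rw [← Finset.card_union_of_disjoint h1]
      calc (Sp n ∪ Sm n).card ≤ (range n).card := by
            refine Finset.card_le_card (Finset.union_subset ?_ ?_)
            · exact (hSp n).trans Finset.inter_subset_right
            · exact (hSm n).trans Finset.inter_subset_right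
        _ = n := Finset.card_range n
    show ((Sp n).card : ℝ) + ((Sm n).card : ℝ) ≤ n
    exact_mod_cast h2
  · intro n n'
    set N1 := X1.filter (fun u => ∃ v ∈ Sp n, rR (cl u) (cl v)) with hN1
    set N2 := X2.filter (fun u => ∃ v ∈ Sm n', rB (cl u) (cl v)) with hN2
    have hSm1 : Sm n' ⊆ X1 := (hSm n').trans Finset.inter_subset_left
    have hSp1 : Sp n ⊆ X2 := (hSp n).trans Finset.inter_subset_left
    have hprod := hfew (Sm n' \ N1) (Sp n \ N2)
      (Finset.sdiff_subset.trans (hSm1.trans (hsubM H1 hH1B)))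
      (Finset.sdiff_subset.trans (hSp1.trans (hsubM H2 hH2B))) (by
        intro u hu w hw
        rw [Finset.mem_sdiff] at hu hw
        refine ⟨?_, ?_⟩
        · intro hr
          apply hu.2
          rw [hN1, Finset.mem_filter]
          exact ⟨hSm1 hu.1, w, hw.1, hr⟩
        · intro hr
          apply hw.2
          rw [hN2, Finset.mem_filter]
          exact ⟨hSp1 hw.1, u, hu.1, hsB _ _ hr⟩)
    have hδM : 0 ≤ δ * M := by positivity
    have hprod2 : ((Sm n' \ N1).card : ℝ) * (Sp n \ N2).card ≤ (δ * M) ^ 2 := by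
      refine hprod.trans ?_
      rw [mul_pow]
      exact mul_le_mul_of_nonneg_right hε₂δ (by positivity)
    have hcase : ((Sm n' \ N1).card : ℝ) ≤ δ * M ∨ ((Sp n \ N2).card : ℝ) ≤ δ * M := by
      by_contra hcon
      push Not at hcon
      have := mul_lt_mul'' hcon.1 hcon.2 hδM hδM
      rw [← sq] at this
      linarith
    rcases hcase with h | h
    · left
      have h1 : (Sm n').card ≤ (Sm n' \ N1).card + N1.card := by
        have := Finset.le_card_sdiff N1 (Sm n')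
        omega
      have h2 : ((Sm n').card : ℝ) ≤ ((Sm n' \ N1).card : ℝ) + N1.card := by exact_mod_cast h1
      linarith
    · right
      have h1 : (Sp n).card ≤ (Sp n \ N2).card + N2.card := by
        have := Finset.le_card_sdiff N2 (Sp n)
        omega
      have h2 : ((Sp n).card : ℝ) ≤ ((Sp n \ N2).card : ℝ) + N2.card := by exact_mod_cast h1
      linarith
  · intro n hn
    refine ⟨𝒲p n, hp1 n, hp2 n, ?_⟩
    have h1 := hp3 n
    have h2 := hrest n hn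
    linarith
  · intro n hn
    refine ⟨𝒲m n, hm1 n, hm2 n, ?_⟩
    have h1 := hm3 n
    have h2 := hrest n hn
    rw [Finset.union_comm X1 X2] at h2
    linarith

end Pool.Agent.R66.RD
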