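import Mathlib
import Pool.Agent.R66.RD.Key
import Pool.Agent.R66.RD.Compact
import Pool.Agent.R66.RD.Assemble

/-!
The lower bound for the Ramsey upper density of infinite factors.
-/

namespace Pool.Agent.R66.RD

open Finset

/-- One-sided interpolation by a 1-Lipschitz function. -/
theorem interp (Pts : Finset (ℝ × ℝ)) (h0 : ((0, 0) : ℝ × ℝ) ∈ Pts) (hd : ∀ p ∈ Pts, p.2 ≤ |p.1|) :
    ∃ g : ℝ → ℝ, LipschitzOnWith 1 g (Set.Ici 0) ∧ g 0 = 0 ∧ (∀ p ∈ Pts, p.2 ≤ g p.1) ∧
      (∀ q : ℝ × ℝ, (∀ p ∈ Pts, p.2 - q.2 ≤ |q.1 - p.1|) → g q.1 ≤ q.2) := by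
  have hne : Pts.Nonempty := ⟨_, h0⟩
  set g : ℝ → ℝ := fun x => Pts.sup' hne (fun p => p.2 - |x - p.1|) with hg
  have hle : ∀ x, ∀ p ∈ Pts, p.2 - |x - p.1| ≤ g x := fun x p hp =>
    Finset.le_sup' (fun p : ℝ × ℝ => p.2 - |x - p.1|) hp
  have hsup : ∀ x z, (∀ p ∈ Pts, p.2 - |x - p.1| ≤ z) → g x ≤ z := fun x z h =>
    Finset.sup'_le hne _ h
  refine ⟨g, ?_, ?_, ?_, ?_⟩
  · refine LipschitzOnWith.of_dist_le_mul ?_
    intro x _ y _
    rw [NNReal.coe_one, one_mul, Real.dist_eq, Real.dist_eq]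
    have key : ∀ x y : ℝ, g x ≤ g y + |x - y| := by
      intro x y
      refine hsup x _ fun p hp => ?_
      have h1 := hle y p hp
      have h2 : |y - p.1| ≤ |x - p.1| + |x - y| := by
        have h3 : y - p.1 = (x - p.1) + (y - x) := by ring
        rw [h3]
        refine (abs_add_le _ _).trans ?_
        rw [abs_sub_comm y x]
      linarith
    rw [abs_le]
    have h1 := key x y
    have h2 := key y x
    rw [abs_sub_comm y x] at h2
    constructor <;> linarith
  · refine le_antisymm ?_ ?_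
    · refine hsup 0 _ fun p hp => ?_
      have := hd p hp
      rw [zero_sub, abs_neg]
      linarith
    · have := hle 0 (0, 0) h0
      simpa using this
  · intro p hp
    have := hle p.1 p hp
    simpa using this
  · intro q hq
    refine hsup _ _ fun p hp => ?_
    have := hq p hp
    linarith

variable {V : Type*}

theorem Covers.mono [Fintype V] {F : SimpleGraph V} {G : SimpleGraph ℕ} {n : ℕ} {x y : ℝ}
    (h : Covers F G n x) (hxy : y ≤ x) : Covers F G n y := by
  obtain ⟨𝒲, h1, h2, h3⟩ := h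
  exact ⟨𝒲, h1, h2, hxy.trans h3⟩

open Classical in
theorem main_cover [Fintype V] [Nonempty V] (F : SimpleGraph V) (R : SimpleGraph ℕ)
    (I N : Finset V) (hIN : Disjoint I N) (hI : ∀ x ∈ I, ∀ y, F.Adj x y → y ∈ N)
    (hIpos : 0 < I.card) (hNpos : 0 < N.card) (l : ℝ) (hl : l = (N.card : ℝ) / I.card)
    (ε η : ℝ) (hε0 : 0 < ε) (hη0 : 0 ≤ η)
    (hη : ENNReal.ofReal η < hFun ((l - 1) / (l + 1)))
    (hC : (1 + l) ^ 2 / (2 * l * ε) - (1 + l) < η) (c0 : ℕ) :
    ∃ n ≥ c0, Covers F R n ((1 - ε) * n) ∨ Covers F Rᶜ n ((1 - ε) * n) := by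
  have hIR : (0 : ℝ) < I.card := by exact_mod_cast hIpos
  have hNR : (0 : ℝ) < N.card := by exact_mod_cast hNpos
  have hl0 : 0 < l := by rw [hl]; positivity
  have hlinv : (I.card : ℝ) / N.card = 1 / l := by rw [hl]; field_simp
  obtain ⟨𝒯, h𝒯pos, h𝒯⟩ := compactness _ η hη0 hη
  have h𝒯ne : 𝒯.Nonempty := by
    obtain ⟨t, ht, _⟩ := h𝒯 (fun _ => 0) (LipschitzOnWith.of_dist_le_mul (by
      intro x _ y _; simp)) rfl
    exact ⟨t, ht⟩
  set t0 := 𝒯.min' h𝒯ne with ht0
  set t1 := 𝒯.max' h𝒯ne with ht1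
  have ht0pos : 0 < t0 := h𝒯pos _ (𝒯.min'_mem h𝒯ne)
  have ht01 : t0 ≤ t1 := 𝒯.min'_le _ (𝒯.max'_mem h𝒯ne)
  have ht1pos : 0 < t1 := lt_of_lt_of_le ht0pos ht01
  set C1 : ℝ := (1 + l) ^ 2 / (2 * l * ε) - (1 + l) with hC1
  set κ : ℝ := (η - C1) / (2 * (|C1| + 1)) with hκ
  have hηC : 0 < η - C1 := by linarith
  have hκpos : 0 < κ := by positivity
  have hκC : κ * C1 ≤ (η - C1) / 2 := by
    have h1 : κ * C1 ≤ κ * (|C1| + 1) :=
      mul_le_mul_of_nonneg_left (by linarith [le_abs_self C1]) hκpos.le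
    have h2 : κ * (|C1| + 1) = (η - C1) / 2 := by
      rw [hκ]; field_simp
    linarith
  set θ0 : ℝ := (1 + l) / (2 * l * ε) with hθ0
  have hθ0pos : 0 < θ0 := by positivity
  have hC1θ : (1 + l - 2 * l * ε) * θ0 = C1 := by
    rw [hθ0, hC1]; field_simp
  have hεθ : ε * θ0 = (1 + l) / (2 * l) := by
    rw [hθ0]; field_simp
  set θ : ℝ := (1 + κ) * θ0 with hθ
  have hθpos : 0 < θ := by positivity
  set δ : ℝ := min 1 (min (κ * t0 / (4 * θ * t1)) ((η - C1) * t0 / (16 * (1 + l) * θ * t1)))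
    with hδ
  have hδpos : 0 < δ := lt_min one_pos (lt_min (by positivity) (by positivity))
  have hδ1 : δ ≤ 1 := min_le_left _ _
  have hδ2 : δ * (4 * θ * t1) ≤ κ * t0 := by
    have h1 : δ ≤ κ * t0 / (4 * θ * t1) := (min_le_right _ _).trans (min_le_left _ _)
    rwa [le_div_iff₀ (by positivity)] at h1
  have hδ3 : δ * (16 * (1 + l) * θ * t1) ≤ (η - C1) * t0 := by
    have h1 : δ ≤ (η - C1) * t0 / (16 * (1 + l) * θ * t1) :=
      (min_le_right _ _).trans (min_le_right _ _)
    rwa [le_div_iff₀ (by positivity)] at h1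
  obtain ⟨M0, hM0⟩ := key F R I N hIN hI hIpos hNpos δ hδpos hδ1
  -- the scale
  obtain ⟨c, hc⟩ := exists_nat_ge (1 + 1 / (θ * t1) + 4 * (1 + l + 2 * l * ε) / ((η - C1) * t0) +
    c0 / (θ * t0) + M0 / (θ * t1))
  have q1 : 0 ≤ 1 / (θ * t1) := by positivity
  have q2 : 0 ≤ 4 * (1 + l + 2 * l * ε) / ((η - C1) * t0) := by positivity
  have q3 : 0 ≤ c0 / (θ * t0) := by positivity
  have q4 : 0 ≤ M0 / (θ * t1) := by positivity
  have hc1 : (1 : ℝ) ≤ c := by linarith
  have hcpos : (0 : ℝ) < c := by linarith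
  have hc2 : 1 ≤ c * (θ * t1) := by
    have : 1 / (θ * t1) ≤ c := by linarith
    rwa [div_le_iff₀ (by positivity)] at this
  have hc3 : 4 * (1 + l + 2 * l * ε) ≤ c * ((η - C1) * t0) := by
    have : 4 * (1 + l + 2 * l * ε) / ((η - C1) * t0) ≤ c := by linarith
    rwa [div_le_iff₀ (by positivity)] at this
  have hc4 : (c0 : ℝ) ≤ c * (θ * t0) := by
    have : c0 / (θ * t0) ≤ c := by linarith
    rwa [div_le_iff₀ (by positivity)] at this
  have hc5 : (M0 : ℝ) ≤ c * (θ * t1) := by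
    have : M0 / (θ * t1) ≤ c := by linarith
    rwa [div_le_iff₀ (by positivity)] at this
  set M : ℕ := ⌈(c : ℝ) * θ * t1⌉₊ with hM
  have hMge : (c : ℝ) * θ * t1 ≤ M := Nat.le_ceil _
  have hMle : (M : ℝ) ≤ 2 * (c * θ * t1) := by
    have h1 : (M : ℝ) < c * θ * t1 + 1 := Nat.ceil_lt_add_one (by positivity)
    have h2 : (c : ℝ) * (θ * t1) = c * θ * t1 := by ring
    rw [h2] at hc2
    linarith
  have hMM0 : M0 ≤ M := by
    have : (M0 : ℝ) ≤ M := by
      calc (M0 : ℝ) ≤ c * (θ * t1) := hc5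
        _ = c * θ * t1 := by ring
        _ ≤ M := hMge
    exact_mod_cast this
  obtain ⟨jp, ip, im, jm, hnn, hdisj, hcorr, hcovR, hcovB⟩ := hM0 M hMM0
  by_contra hcon
  push Not at hcon
  set nn : ℝ → ℕ := fun t => ⌈(c : ℝ) * θ * t⌉₊ with hnnd
  set D : ℝ := δ * M with hD
  have hD0 : 0 ≤ D := by positivity
  have hD1 : D ≤ δ * (2 * (c * θ * t1)) := mul_le_mul_of_nonneg_left hMle hδpos.le
  have hn1 : ∀ t ∈ 𝒯, (c : ℝ) * θ * t ≤ nn t := fun t _ => Nat.le_ceil _
  have hn2 : ∀ t ∈ 𝒯, (nn t : ℝ) ≤ c * θ * t + 1 := fun t ht =>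
    (Nat.ceil_lt_add_one (by have := h𝒯pos t ht; positivity)).le
  have hn3 : ∀ t ∈ 𝒯, nn t ≤ M := by
    intro t ht
    refine Nat.ceil_le_ceil ?_
    exact mul_le_mul_of_nonneg_left (𝒯.le_max' t ht) (by positivity)
  have hn4 : ∀ t ∈ 𝒯, c0 ≤ nn t := by
    intro t ht
    have h1 : (c : ℝ) * θ * t0 ≤ c * θ * t :=
      mul_le_mul_of_nonneg_left (𝒯.min'_le t ht) (by positivity)
    have h2 : (c0 : ℝ) ≤ nn t := by
      calc (c0 : ℝ) ≤ c * (θ * t0) := hc4
        _ = c * θ * t0 := by ring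
        _ ≤ c * θ * t := h1
        _ ≤ nn t := hn1 t ht
    exact_mod_cast h2
  have hfR : ∀ t ∈ 𝒯, ε * nn t - D < jp (nn t) - 1 / l * ip (nn t) := by
    intro t ht
    by_contra hcc
    push Not at hcc
    have h1 := hcovR (nn t) (hn3 t ht)
    rw [hlinv] at h1
    exact (hcon (nn t) (hn4 t ht)).1 (h1.mono (by linarith))
  have hfB : ∀ t ∈ 𝒯, ε * nn t - D < im (nn t) - 1 / l * jm (nn t) := by
    intro t ht
    by_contra hcc
    push Not at hcc
    have h1 := hcovB (nn t) (hn3 t ht)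
    rw [hlinv] at h1
    exact (hcon (nn t) (hn4 t ht)).2 (h1.mono (by linarith))
  -- the points
  set xx : ℝ → ℝ := fun t => (ip (nn t) + jp (nn t) + D) / c with hxx
  set dd : ℝ → ℝ := fun t => (jp (nn t) - ip (nn t) - D) / c with hdd
  set yy : ℝ → ℝ := fun t => (im (nn t) + jm (nn t) + D) / c with hyy
  set ee : ℝ → ℝ := fun t => (jm (nn t) + D - im (nn t)) / c with hee
  have hxx0 : ∀ t, 0 ≤ xx t := fun t => by
    obtain ⟨h1, h2, h3, h4⟩ := hnn (nn t)
    simp only [hxx]; positivity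
  have hyy0 : ∀ t, 0 ≤ yy t := fun t => by
    obtain ⟨h1, h2, h3, h4⟩ := hnn (nn t)
    simp only [hyy]; positivity
  set Pts : Finset (ℝ × ℝ) := insert (0, 0) (𝒯.image (fun t => (xx t, dd t))) with hPts
  obtain ⟨g, hgL, hg0, hg1, hg2⟩ := interp Pts (Finset.mem_insert_self _ _) (by
    intro p hp
    rcases Finset.mem_insert.1 hp with rfl | hp
    · simp
    · rw [Finset.mem_image] at hp
      obtain ⟨t, _, rfl⟩ := hp
      simp only
      rw [abs_of_nonneg (hxx0 t)]
      obtain ⟨h1, h2, h3, h4⟩ := hnn (nn t)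
      simp only [hxx, hdd]
      exact div_le_div_of_nonneg_right (by linarith) hcpos.le)
  obtain ⟨t, ht, hcontra⟩ := h𝒯 g hgL hg0
  have htpos := h𝒯pos t ht
  have ht0t : t0 ≤ t := 𝒯.min'_le t ht
  have hgx : dd t ≤ g (xx t) :=
    hg1 (xx t, dd t) (Finset.mem_insert_of_mem (Finset.mem_image_of_mem _ ht))
  have hgy : g (yy t) ≤ ee t := by
    refine hg2 (yy t, ee t) ?_
    intro p hp
    rcases Finset.mem_insert.1 hp with rfl | hp
    · simp only [sub_zero, zero_sub]
      rw [abs_of_nonneg (hyy0 t)]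
      obtain ⟨h1, h2, h3, h4⟩ := hnn (nn t)
      simp only [hyy, hee]
      rw [← neg_div]
      exact div_le_div_of_nonneg_right (by linarith) hcpos.le
    · rw [Finset.mem_image] at hp
      obtain ⟨t', _, rfl⟩ := hp
      simp only
      rcases hcorr (nn t') (nn t) with h | h
      · -- im ≤ ip + D
        have h5 : dd t' - ee t ≤ xx t' - yy t := by
          simp only [hdd, hee, hxx, hyy]
          rw [← sub_div, ← sub_div]
          refine div_le_div_of_nonneg_right ?_ hcpos.le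
          linarith
        calc dd t' - ee t ≤ xx t' - yy t := h5
          _ ≤ |xx t' - yy t| := le_abs_self _
          _ = |yy t - xx t'| := abs_sub_comm _ _
      · have h5 : dd t' - ee t ≤ yy t - xx t' := by
          simp only [hdd, hee, hxx, hyy]
          rw [← sub_div, ← sub_div]
          refine div_le_div_of_nonneg_right ?_ hcpos.le
          linarith
        exact h5.trans (le_abs_self _)
  -- lower estimates at the points
  have hDc : 2 * D / c ≤ κ * t := by
    rw [div_le_iff₀ hcpos]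
    calc 2 * D ≤ 2 * (δ * (2 * (c * θ * t1))) := by linarith
      _ = c * (δ * (4 * θ * t1)) := by ring
      _ ≤ c * (κ * t0) := mul_le_mul_of_nonneg_left hδ2 hcpos.le
      _ ≤ c * (κ * t) := mul_le_mul_of_nonneg_left (mul_le_mul_of_nonneg_left ht0t hκpos.le) hcpos.le
      _ = κ * t * c := by ring
  have hlow : ∀ u v : ℝ, ε * nn t - D < u - 1 / l * v →
      t ≤ (2 * l / (l + 1)) * ((u - 1 / l * v - D / l) / c) := by
    intro u v huv
    have h1 : (ε * (c * θ * t) - D - D / l) / c ≤ (u - 1 / l * v - D / l) / c := by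
      refine div_le_div_of_nonneg_right ?_ hcpos.le
      have h2 : ε * (c * θ * t) ≤ ε * nn t := mul_le_mul_of_nonneg_left (hn1 t ht) hε0.le
      linarith
    have h2 : (2 * l / (l + 1)) * ((ε * (c * θ * t) - D - D / l) / c) =
        (1 + κ) * t - 2 * D / c := by
      have h3 : ε * (c * θ * t) = c * (1 + κ) * t * ((1 + l) / (2 * l)) := by
        rw [← hεθ, hθ]; ring
      rw [h3]
      field_simp
      ring
    have h4 := mul_le_mul_of_nonneg_left h1 (show 0 ≤ 2 * l / (l + 1) by positivity)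
    rw [h2] at h4
    linarith
  have hx1 : t ≤ (l - 1) / (l + 1) * xx t + g (xx t) := by
    have h1 := hlow _ _ (hfR t ht)
    have h2 : (l - 1) / (l + 1) * xx t + dd t =
        (2 * l / (l + 1)) * ((jp (nn t) - 1 / l * ip (nn t) - D / l) / c) := by
      simp only [hxx, hdd]
      field_simp
      ring
    linarith
  have hy1 : t ≤ (l - 1) / (l + 1) * yy t - g (yy t) := by
    have h1 := hlow _ _ (hfB t ht)
    have h2 : (l - 1) / (l + 1) * yy t - ee t =
        (2 * l / (l + 1)) * ((im (nn t) - 1 / l * jm (nn t) - D / l) / c) := by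
      simp only [hyy, hee]
      field_simp
      ring
    linarith
  have hfinal := hcontra (xx t) (yy t) (hxx0 t) (hyy0 t) hx1 hy1
  -- upper estimate
  have hip : ip (nn t) ≤ l * (jp (nn t) - ε * nn t + D) := by
    have h1 := hfR t ht
    have h2 : 1 / l * ip (nn t) ≤ jp (nn t) - ε * nn t + D := by linarith
    have h3 := mul_le_mul_of_nonneg_left h2 hl0.le
    have h4 : l * (1 / l * ip (nn t)) = ip (nn t) := by field_simp
    linarith
  have hjm : jm (nn t) ≤ l * (im (nn t) - ε * nn t + D) := by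
    have h1 := hfB t ht
    have h2 : 1 / l * jm (nn t) ≤ im (nn t) - ε * nn t + D := by linarith
    have h3 := mul_le_mul_of_nonneg_left h2 hl0.le
    have h4 : l * (1 / l * jm (nn t)) = jm (nn t) := by field_simp
    linarith
  have hsum := hdisj (nn t)
  have hupper : xx t + yy t ≤ η * t := by
    have h1 : xx t + yy t = (ip (nn t) + jp (nn t) + im (nn t) + jm (nn t) + 2 * D) / c := by
      simp only [hxx, hyy]
      rw [← add_div]
      congr 1
      ring
    rw [h1, div_le_iff₀ hcpos]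
    have h2 : ip (nn t) + jp (nn t) + im (nn t) + jm (nn t) + 2 * D ≤
        (1 + l) * (nn t : ℝ) - 2 * l * ε * nn t + 2 * (1 + l) * D := by
      have h3 : (1 + l) * (jp (nn t) + im (nn t)) ≤ (1 + l) * (nn t : ℝ) :=
        mul_le_mul_of_nonneg_left hsum (by positivity)
      linarith
    have h3 : (1 + l) * (nn t : ℝ) - 2 * l * ε * nn t ≤
        (1 + l - 2 * l * ε) * (c * θ * t) + (1 + l + 2 * l * ε) := by
      have h4 := hn1 t ht
      have h5 := hn2 t ht
      have h6 : (1 + l) * (nn t : ℝ) ≤ (1 + l) * (c * θ * t + 1) :=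
        mul_le_mul_of_nonneg_left h5 (by positivity)
      have h7 : 2 * l * ε * (c * θ * t) ≤ 2 * l * ε * nn t :=
        mul_le_mul_of_nonneg_left h4 (by positivity)
      have h8 : 0 ≤ 2 * l * ε := by positivity
      linarith
    have h4 : (1 + l - 2 * l * ε) * (c * θ * t) = c * ((1 + κ) * C1 * t) := by
      rw [hθ, ← hC1θ]; ring
    have h5 : (1 + κ) * C1 * t ≤ C1 * t + (η - C1) / 2 * t := by
      have := mul_le_mul_of_nonneg_right hκC htpos.le
      linarith
    have h6 : c * ((1 + κ) * C1 * t) ≤ c * (C1 * t + (η - C1) / 2 * t) :=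
      mul_le_mul_of_nonneg_left h5 hcpos.le
    have h7 : 2 * (1 + l) * D ≤ c * ((η - C1) * t) / 4 := by
      calc 2 * (1 + l) * D ≤ 2 * (1 + l) * (δ * (2 * (c * θ * t1))) :=
            mul_le_mul_of_nonneg_left hD1 (by positivity)
        _ = c * (δ * (16 * (1 + l) * θ * t1)) / 4 := by ring
        _ ≤ c * ((η - C1) * t0) / 4 := by
            have := mul_le_mul_of_nonneg_left hδ3 hcpos.le
            linarith
        _ ≤ c * ((η - C1) * t) / 4 := by
            have h8 : (η - C1) * t0 ≤ (η - C1) * t := mul_le_mul_of_nonneg_left ht0t hηC.le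
            have := mul_le_mul_of_nonneg_left h8 hcpos.le
            linarith
    have h8 : 1 + l + 2 * l * ε ≤ c * ((η - C1) * t) / 4 := by
      have h9 : (η - C1) * t0 ≤ (η - C1) * t := mul_le_mul_of_nonneg_left ht0t hηC.le
      have := mul_le_mul_of_nonneg_left h9 hcpos.le
      linarith
    have h9 : c * (C1 * t + (η - C1) / 2 * t) + c * ((η - C1) * t) / 4 +
        c * ((η - C1) * t) / 4 = η * t * c := by ring
    linarith
  linarith

end Pool.Agent.R66.RD
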