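import Mathlib
import Pool.Agent.R66.RD.Main

/-!
The lower bound `f(m(F)) ≤ ρ(ω·F)` for every finite graph `F`.
-/

namespace Pool.Agent.R66.RD

open Filter

theorem hFun_ge (l : ℝ) (hl : 0 < l) :
    ENNReal.ofReal ((l + 1) / l) ≤ hFun ((l - 1) / (l + 1)) := by
  unfold hFun
  refine le_iInf ?_
  rintro ⟨g, hgL, hg0⟩
  have hg : ∀ x, 0 ≤ x → |g x| ≤ x := by
    intro x hx
    have h1 := hgL.dist_le_mul x hx 0 (Set.mem_Ici.2 le_rfl)
    rw [NNReal.coe_one, one_mul, Real.dist_eq, Real.dist_eq, hg0, sub_zero, sub_zero,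
      abs_of_nonneg hx] at h1
    exact h1
  refine le_limsup_of_le (by isBoundedDefault) ?_
  intro b hb
  obtain ⟨t, ht, htb⟩ := ((Filter.eventually_gt_atTop (0 : ℝ)).and hb).exists
  refine le_trans ?_ htb
  have hkey : ∀ x, 0 ≤ x → t ≤ (l - 1) / (l + 1) * x + x → (l + 1) / (2 * l) * t ≤ x := by
    intro x hx h
    have h1 : (l - 1) / (l + 1) * x + x = (2 * l / (l + 1)) * x := by field_simp; ring
    rw [h1] at h
    have h2 := mul_le_mul_of_nonneg_left h (show 0 ≤ (l + 1) / (2 * l) by positivity)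
    have h3 : (l + 1) / (2 * l) * (2 * l / (l + 1) * x) = x := by field_simp
    rwa [h3] at h2
  have e1 : ENNReal.ofReal ((l + 1) / (2 * l) * t) ≤ gammaPlus ((l - 1) / (l + 1)) g t := by
    unfold gammaPlus
    refine le_iInf ?_
    rintro ⟨x, hx, hxt⟩
    refine ENNReal.ofReal_le_ofReal (hkey x hx ?_)
    have := (abs_le.1 (hg x hx)).2
    linarith
  have e2 : ENNReal.ofReal ((l + 1) / (2 * l) * t) ≤ gammaMinus ((l - 1) / (l + 1)) g t := by
    unfold gammaMinus
    refine le_iInf ?_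
    rintro ⟨x, hx, hxt⟩
    refine ENNReal.ofReal_le_ofReal (hkey x hx ?_)
    have := (abs_le.1 (hg x hx)).1
    linarith
  have ht' : ENNReal.ofReal t ≠ 0 := by
    rw [Ne, ENNReal.ofReal_eq_zero, not_le]; exact ht
  rw [ENNReal.le_div_iff_mul_le (Or.inl ht') (Or.inl ENNReal.ofReal_ne_top),
    ← ENNReal.ofReal_mul (by positivity)]
  calc ENNReal.ofReal ((l + 1) / l * t) =
        ENNReal.ofReal ((l + 1) / (2 * l) * t) + ENNReal.ofReal ((l + 1) / (2 * l) * t) := by
        rw [← ENNReal.ofReal_add (by positivity) (by positivity)]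
        congr 1
        field_simp
        ring
    _ ≤ _ := add_le_add e1 e2

/-- The expression inside the definition of `f`. -/
noncomputable def eFun (l : ℝ) : ENNReal :=
  ENNReal.ofReal (2 * l / (1 + l) ^ 2) * hFun ((l - 1) / (l + 1)) + ENNReal.ofReal (2 * l / (1 + l))

theorem fFun_pos_eq (l : ℝ) (hl : 0 < l) : fFun l = 1 - ((eFun l)⁻¹).toReal := by
  unfold fFun eFun
  rw [if_neg hl.ne']

theorem eFun_ge_two (l : ℝ) (hl : 0 < l) : 2 ≤ eFun l := by
  unfold eFun
  have h1 : ENNReal.ofReal (2 * l / (1 + l) ^ 2) * ENNReal.ofReal ((l + 1) / l) +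
      ENNReal.ofReal (2 * l / (1 + l)) = 2 := by
    rw [← ENNReal.ofReal_mul (by positivity), ← ENNReal.ofReal_add (by positivity) (by positivity)]
    have : 2 * l / (1 + l) ^ 2 * ((l + 1) / l) + 2 * l / (1 + l) = 2 := by
      field_simp
      ring
    rw [this]
    simp
  rw [← h1]
  gcongr
  exact hFun_ge l hl

theorem ramsey_bddAbove {W : Type*} (H : SimpleGraph W) :
    BddAbove {l : ℝ | ∀ R : SimpleGraph ℕ, ∃ φ : W → ℕ, IsMonoCopy H R φ ∧
      l ≤ upperDensity (Set.range φ)} := by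
  refine ⟨1, ?_⟩
  intro l hl
  obtain ⟨φ, _, h⟩ := hl ⊥
  exact h.trans (upperDensity_le_one _)

theorem le_ramsey {W : Type*} (H : SimpleGraph W) (y : ℝ)
    (h : ∀ μ < y, ∃ μ' ≥ μ, ∀ R : SimpleGraph ℕ, ∃ φ : W → ℕ, IsMonoCopy H R φ ∧
      μ' ≤ upperDensity (Set.range φ)) : y ≤ ramseyUpperDensity H := by
  refine le_of_forall_lt ?_
  intro μ hμ
  obtain ⟨μ1, hμ1, hμ1y⟩ := exists_between hμ
  obtain ⟨μ', hμ', hR⟩ := h μ1 hμ1y
  have : μ' ≤ ramseyUpperDensity H := le_csSup (ramsey_bddAbove H) hR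
  linarith

variable {V : Type*}

theorem mono_of_covers [Fintype V] [Nonempty V] (F : SimpleGraph V) (R : SimpleGraph ℕ)
    (μ μ' : ℝ) (hμ0 : 0 < μ') (hμ : μ' < μ)
    (h : ∀ c0 : ℕ, ∃ n ≥ c0, Covers F R n (μ * n) ∨ Covers F Rᶜ n (μ * n)) :
    ∃ φ : ℕ × V → ℕ, IsMonoCopy (omegaFactor F) R φ ∧ μ' ≤ upperDensity (Set.range φ) := by
  have hconv : ∀ G : SimpleGraph ℕ, (∀ c0 : ℕ, ∃ n ≥ c0, Covers F G n (μ * n)) →
      ∃ φ : ℕ × V → ℕ, Function.Injective φ ∧
      (∀ x y, (omegaFactor F).Adj x y → G.Adj (φ x) (φ y)) ∧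
      μ' ≤ upperDensity (Set.range φ) := by
    intro G hG
    refine assemble F G μ μ' hμ0 hμ ?_
    intro c
    obtain ⟨n, hn, 𝒲, h1, h2, h3⟩ := hG c
    exact ⟨n, hn, 𝒲, h1, h2, h3⟩
  by_cases hR : ∀ c0 : ℕ, ∃ n ≥ c0, Covers F R n (μ * n)
  · obtain ⟨φ, h1, h2, h3⟩ := hconv R hR
    exact ⟨φ, ⟨h1, Or.inl h2⟩, h3⟩
  · push Not at hR
    obtain ⟨c1, hc1⟩ := hR
    obtain ⟨φ, h1, h2, h3⟩ := hconv Rᶜ (by
      intro c0
      obtain ⟨n, hn, hn'⟩ := h (max c0 c1)
      refine ⟨n, (le_max_left _ _).trans hn, ?_⟩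
      rcases hn' with hn' | hn'
      · exact absurd hn' (hc1 n ((le_max_right _ _).trans hn))
      · exact hn')
    exact ⟨φ, ⟨h1, Or.inr h2⟩, h3⟩

theorem minRatio_mem [Finite V] [Nonempty V] (F : SimpleGraph V) :
    ∃ I : Finset V, I.Nonempty ∧ (∀ u ∈ I, ∀ v ∈ I, ¬ F.Adj u v) ∧
    minRatio F = ((nbhd F I).ncard : ℝ) / (I.card : ℝ) := by
  have hfin : {q : ℝ | ∃ I : Finset V, I.Nonempty ∧ (∀ u ∈ I, ∀ v ∈ I, ¬ F.Adj u v) ∧
      q = ((nbhd F I).ncard : ℝ) / (I.card : ℝ)}.Finite := by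
    have : Finite (Finset V) := inferInstance
    refine (Set.finite_range (fun I : Finset V => ((nbhd F I).ncard : ℝ) / (I.card : ℝ))).subset ?_
    rintro q ⟨I, _, _, rfl⟩
    exact ⟨I, rfl⟩
  have hne : {q : ℝ | ∃ I : Finset V, I.Nonempty ∧ (∀ u ∈ I, ∀ v ∈ I, ¬ F.Adj u v) ∧
      q = ((nbhd F I).ncard : ℝ) / (I.card : ℝ)}.Nonempty := by
    obtain ⟨x⟩ := ‹Nonempty V›
    refine ⟨_, {x}, Finset.singleton_nonempty x, ?_, rfl⟩
    intro u hu v hv
    rw [Finset.mem_singleton] at hu hv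
    subst hu; subst hv
    exact F.loopless.irrefl _
  exact hne.csInf_mem hfin

/-- The lower bound. -/
theorem lower_bound [Fintype V] [Nonempty V] (F : SimpleGraph V) :
    fFun (minRatio F) ≤ ramseyUpperDensity (omegaFactor F) := by
  classical
  obtain ⟨I, hIne, hIind, hm⟩ := minRatio_mem F
  set N : Finset V := (nbhd F I).toFinset with hN
  have hNmem : ∀ y, y ∈ N ↔ ∃ x ∈ I, F.Adj x y := fun y => by
    rw [hN, Set.mem_toFinset]; rfl
  have hNc : (nbhd F I).ncard = N.card := by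
    rw [hN, Set.ncard_eq_toFinset_card']
  rw [hNc] at hm
  have hIN : Disjoint I N := by
    rw [Finset.disjoint_left]
    intro x hx hxN
    obtain ⟨y, hy, hyx⟩ := (hNmem x).1 hxN
    exact hIind y hy x hx hyx
  have hI : ∀ x ∈ I, ∀ y, F.Adj x y → y ∈ N := fun x hx y hxy => (hNmem y).2 ⟨x, hx, hxy⟩
  have hIpos : 0 < I.card := hIne.card_pos
  refine le_ramsey _ _ ?_
  intro μ0 hμ0
  rcases Nat.eq_zero_or_pos N.card with hN0 | hNpos
  · -- an isolated vertex
    have hl0 : minRatio F = 0 := by rw [hm, hN0]; simp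
    have hf : fFun (minRatio F) = 1 := by rw [hl0]; simp [fFun]
    rw [hf] at hμ0
    obtain ⟨x0, hx0⟩ := hIne
    have hiso : ∀ y, ¬ F.Adj x0 y := by
      intro y hy
      have := hI x0 hx0 y hy
      rw [Finset.card_eq_zero] at hN0
      rw [hN0] at this
      simp at this
    refine ⟨max μ0 (1 / 2), le_max_left _ _, fun R => ?_⟩
    refine mono_of_covers F R 1 _ (by positivity) (max_lt hμ0 (by norm_num)) ?_
    intro c0
    refine ⟨c0, le_rfl, ?_⟩
    obtain ⟨N0, hN0'⟩ := block R 0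
    obtain ⟨S, _, _, _, hS⟩ := hN0' (Finset.range N0) (by simp)
    have hcov : ∀ G : SimpleGraph ℕ, Rich G S → Covers F G c0 (1 * c0) := by
      intro G hG
      have hlarge : Large G Set.univ := Large.mono hG (Set.subset_univ _)
      obtain ⟨𝒲, h1, h2, h3⟩ := cov_singles (F := F) (G := G) (Finset.range c0)
        (fun v _ => doable_isolated F G hlarge x0 hiso v)
      refine ⟨𝒲, h1, h2, ?_⟩
      rw [h3, Finset.inter_self, Finset.card_range, one_mul]
    rcases hS with hS | hS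
    · exact Or.inl (hcov R hS)
    · exact Or.inr (hcov Rᶜ hS)
  · -- the main case
    set l := minRatio F with hl
    have hIR : (0 : ℝ) < I.card := by exact_mod_cast hIpos
    have hNR : (0 : ℝ) < N.card := by exact_mod_cast hNpos
    have hlpos : 0 < l := by rw [hm]; positivity
    have hE2 := eFun_ge_two l hlpos
    have hEinv : ((eFun l)⁻¹).toReal ≤ 1 / 2 := by
      have h1 : (eFun l)⁻¹ ≤ 2⁻¹ := ENNReal.inv_le_inv.2 hE2
      have h2 := ENNReal.toReal_mono (by simp) h1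
      simpa using h2
    have hf := fFun_pos_eq l hlpos
    have hf1 : fFun l ≤ 1 := by
      rw [hf]
      have : 0 ≤ ((eFun l)⁻¹).toReal := ENNReal.toReal_nonneg
      linarith
    have hmax : max μ0 (1 / 4) < fFun l := by
      refine max_lt hμ0 ?_
      rw [hf]; linarith
    obtain ⟨μ, hμ1, hμ2⟩ := exists_between hmax
    refine ⟨max μ0 (1 / 4), le_max_left _ _, fun R => ?_⟩
    refine mono_of_covers F R μ _ (by positivity) hμ1 ?_
    set ε := 1 - μ with hε
    have hεpos : 0 < ε := by linarith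
    have hεE : ((eFun l)⁻¹).toReal < ε := by
      rw [hf] at hμ2
      linarith
    have hEne0 : eFun l ≠ 0 := by
      intro h
      rw [h] at hE2
      simp at hE2
    have h1 : (eFun l)⁻¹ < ENNReal.ofReal ε := by
      rw [ENNReal.lt_ofReal_iff_toReal_lt (by simpa using hEne0)]
      exact hεE
    have h2 : ENNReal.ofReal (1 / ε) < eFun l := by
      rw [one_div, ENNReal.ofReal_inv_of_pos hεpos, ENNReal.inv_lt_iff_inv_lt]
      exact h1
    set C1 : ℝ := (1 + l) ^ 2 / (2 * l * ε) - (1 + l) with hC1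
    have hhpos : 0 < hFun ((l - 1) / (l + 1)) := by
      refine lt_of_lt_of_le ?_ (hFun_ge l hlpos)
      rw [ENNReal.ofReal_pos]
      positivity
    have hC1h : ENNReal.ofReal C1 < hFun ((l - 1) / (l + 1)) := by
      by_contra hcon
      push Not at hcon
      rcases le_or_gt C1 0 with h | h
      · rw [ENNReal.ofReal_of_nonpos h] at hcon
        exact absurd hhpos (not_lt.2 hcon)
      · have h3 : eFun l ≤ ENNReal.ofReal (1 / ε) := by
          unfold eFun
          calc ENNReal.ofReal (2 * l / (1 + l) ^ 2) * hFun ((l - 1) / (l + 1)) +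
                ENNReal.ofReal (2 * l / (1 + l)) ≤
                ENNReal.ofReal (2 * l / (1 + l) ^ 2) * ENNReal.ofReal C1 +
                ENNReal.ofReal (2 * l / (1 + l)) := by
                  gcongr
            _ = ENNReal.ofReal (1 / ε) := by
                  rw [← ENNReal.ofReal_mul (by positivity),
                    ← ENNReal.ofReal_add (by positivity) (by positivity)]
                  congr 1
                  rw [hC1]
                  field_simp
                  ring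
        exact absurd h2 (not_lt.2 h3)
    obtain ⟨η, hη0, hη1, hη2⟩ := (ENNReal.lt_iff_exists_real_btwn).1 hC1h
    have hC1η : C1 < η := by
      have := (ENNReal.ofReal_lt_ofReal_iff').1 hη1
      exact this.1
    intro c0
    obtain ⟨n, hn, hcov⟩ := main_cover F R I N hIN hI hIpos hNpos l hm ε η hεpos hη0 hη2 hC1η c0
    refine ⟨n, hn, ?_⟩
    have : 1 - ε = μ := by rw [hε]; ring
    rwa [this] at hcov

end Pool.Agent.R66.RD
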