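import Mathlib
import Pool.Agent.R66.RD.Defs
import Pool.Agent.R66.RD.Assemble

/-!
Combinatorial part of the upper bound: interleaving two monotone demands, and counting the vertices
of a copy inside a set without edges.
-/

namespace Pool.Agent.R66.RD

open Finset

theorem exists_interleave (J I : ℕ → ℕ) (hJ : Monotone J) (hI : Monotone I)
    (h : ∀ n, J n + I n ≤ n) : ∃ β : ℕ → ℕ, β 0 = 0 ∧
    (∀ n, β (n + 1) = β n ∨ β (n + 1) = β n + 1) ∧ (∀ n, J n ≤ β n) ∧ (∀ n, β n + I n ≤ n) := by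
  have hb : ∀ n m, (J (n + m) - m) + I n ≤ n := by
    intro n m
    have h1 := h (n + m)
    have h2 : I n ≤ I (n + m) := hI (Nat.le_add_right _ _)
    have h3 := h n
    omega
  have hbdd : ∀ n, BddAbove (Set.range (fun m => J (n + m) - m)) := by
    intro n
    refine ⟨n, ?_⟩
    rintro _ ⟨m, rfl⟩
    have := hb n m
    simp only
    omega
  set β : ℕ → ℕ := fun n => ⨆ m, (J (n + m) - m) with hβ
  have hle : ∀ n m, J (n + m) - m ≤ β n := fun n m => le_ciSup (hbdd n) m
  have hsup : ∀ n c, (∀ m, J (n + m) - m ≤ c) → β n ≤ c := fun n c hc => ciSup_le hc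
  have hbI : ∀ n, β n + I n ≤ n := by
    intro n
    have h1 : β n ≤ n - I n := by
      refine hsup n _ fun m => ?_
      have := hb n m
      omega
    have h2 := hb n 0
    omega
  have hJβ : ∀ n, J n ≤ β n := by
    intro n
    have := hle n 0
    simpa using this
  have hup : ∀ n, β (n + 1) ≤ β n + 1 := by
    intro n
    refine hsup _ _ fun m => ?_
    have h1 := hle n (m + 1)
    have h2 : n + (m + 1) = n + 1 + m := by ring
    rw [h2] at h1
    omega
  have hmono : ∀ n, β n ≤ β (n + 1) := by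
    intro n
    refine hsup _ _ fun m => ?_
    cases m with
    | zero =>
      have h1 : J n ≤ J (n + 1) := hJ (Nat.le_succ _)
      have h2 := hJβ (n + 1)
      simp only [Nat.add_zero, Nat.sub_zero]
      omega
    | succ m =>
      have h1 := hle (n + 1) m
      have h2 : n + (m + 1) = n + 1 + m := by ring
      rw [h2]
      omega
  refine ⟨β, ?_, ?_, hJβ, hbI⟩
  · have := hbI 0
    omega
  · intro n
    have h1 := hup n
    have h2 := hmono n
    omega

theorem card_rank (r : ℕ → ℕ) (h0 : r 0 = 0) (hs : ∀ n, r (n + 1) = r n ∨ r (n + 1) = r n + 1)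
    (J n : ℕ) : ((range n).filter (fun m => r (m + 1) = r m + 1 ∧ r m < J)).card =
      min (r n) J := by
  induction n with
  | zero => simp [h0]
  | succ n ih =>
    rw [Finset.range_add_one, Finset.filter_insert]
    split_ifs with h
    · rw [Finset.card_insert_of_notMem (by simp), ih, h.1]
      omega
    · rw [ih]
      rcases hs n with h1 | h1
      · rw [h1]
      · have : ¬ r n < J := fun h2 => h ⟨h1, h2⟩
        omega

theorem rank_mono (r : ℕ → ℕ) (hs : ∀ n, r (n + 1) = r n ∨ r (n + 1) = r n + 1) : Monotone r := by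
  refine monotone_nat_of_le_succ fun n => ?_
  rcases hs n with h | h <;> omega

theorem rank_injOn (r : ℕ → ℕ) (hs : ∀ n, r (n + 1) = r n ∨ r (n + 1) = r n + 1) :
    Set.InjOn r {m | r (m + 1) = r m + 1} := by
  have hm := rank_mono r hs
  have key : ∀ a b, r (a + 1) = r a + 1 → a < b → r a < r b := by
    intro a b ha hab
    have := hm (show a + 1 ≤ b from hab)
    omega
  intro a ha b hb hab
  rcases lt_trichotomy a b with h | h | h
  · have := key a b ha h
    omega
  · exact h
  · have := key b a hb h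
    omega

theorem rank_finite (r : ℕ → ℕ) (hs : ∀ n, r (n + 1) = r n ∨ r (n + 1) = r n + 1) (c : ℕ) :
    ∃ T : Finset ℕ, T.card ≤ c ∧ ∀ m, r (m + 1) = r m + 1 → r m < c → m ∈ T := by
  have hfin : ({m | r (m + 1) = r m + 1} ∩ r ⁻¹' (Set.Iio c)).Finite := by
    refine Set.Finite.of_finite_image (f := r) ?_ ((rank_injOn r hs).mono Set.inter_subset_left)
    exact (Set.finite_Iio c).subset (by rintro _ ⟨m, hm, rfl⟩; exact hm.2)
  refine ⟨hfin.toFinset, ?_, ?_⟩
  · have h1 : (hfin.toFinset).card ≤ (Finset.range c).card := by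
      refine Finset.card_le_card_of_injOn r ?_ ?_
      · intro m hm
        rw [Finset.mem_coe, Set.Finite.mem_toFinset] at hm
        rw [Finset.mem_coe, Finset.mem_range]
        exact hm.2
      · intro m hm m' hm' heq
        rw [Finset.mem_coe, Set.Finite.mem_toFinset] at hm hm'
        exact rank_injOn r hs hm.1 hm'.1 heq
    rwa [Finset.card_range] at h1
  · intro m h1 h2
    rw [Set.Finite.mem_toFinset]
    exact ⟨h1, h2⟩

open Classical in
theorem count_bound {V : Type*} [Fintype V] (F : SimpleGraph V) (G : SimpleGraph ℕ)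
    (φ : ℕ × V → ℕ) (hinj : Function.Injective φ)
    (hhom : ∀ x y, (omegaFactor F).Adj x y → G.Adj (φ x) (φ y)) (l : ℝ)
    (hl : ∀ W : Finset V, (∀ u ∈ W, ∀ v ∈ W, ¬ F.Adj u v) → l * W.card ≤ (nbhd F W).ncard)
    (S T : Finset ℕ) (h1 : ∀ x ∈ S, ∀ y ∈ S, ¬ G.Adj x y)
    (h2 : ∀ x ∈ S, ∀ z, G.Adj x z → z ∈ T) :
    l * ((Set.range φ ∩ S).ncard : ℝ) ≤ T.card := by
  set P : Finset (ℕ × V) := S.preimage φ hinj.injOn with hP
  have hPmem : ∀ p, p ∈ P ↔ φ p ∈ S := fun p => by rw [hP, Finset.mem_preimage]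
  have hcard : (Set.range φ ∩ S).ncard = P.card := by
    have h3 : Set.range φ ∩ S = ((P.image φ : Finset ℕ) : Set ℕ) := by
      ext m
      rw [Finset.coe_image]
      constructor
      · rintro ⟨⟨p, rfl⟩, hm⟩
        exact ⟨p, (hPmem p).2 hm, rfl⟩
      · rintro ⟨p, hp, rfl⟩
        exact ⟨⟨p, rfl⟩, (hPmem p).1 hp⟩
    rw [h3, Set.ncard_coe_finset, Finset.card_image_of_injective _ hinj]
  rw [hcard]
  set K : Finset ℕ := P.image Prod.fst with hK
  set W : ℕ → Finset V := fun k => univ.filter (fun y => (k, y) ∈ P) with hW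
  set N : ℕ → Finset V := fun k => univ.filter (fun z => ∃ y ∈ W k, F.Adj y z) with hN
  have hWmem : ∀ k y, y ∈ W k ↔ φ (k, y) ∈ S := fun k y => by
    rw [hW, Finset.mem_filter, hPmem]; simp
  have e1 : P.card = ∑ k ∈ K, (W k).card := by
    rw [Finset.card_eq_sum_card_fiberwise (f := Prod.fst) (t := K)
      (fun p hp => Finset.mem_image_of_mem _ hp)]
    refine Finset.sum_congr rfl fun k _ => ?_
    refine Finset.card_bij (fun p _ => p.2) ?_ ?_ ?_
    · rintro ⟨k', y⟩ hp
      rw [Finset.mem_filter] at hp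
      obtain ⟨hp, hk⟩ := hp
      simp only at hk
      subst hk
      rw [hWmem]
      exact (hPmem _).1 hp
    · rintro ⟨k1, y1⟩ hp1 ⟨k2, y2⟩ hp2 heq
      rw [Finset.mem_filter] at hp1 hp2
      simp only at heq hp1 hp2
      rw [heq, hp1.2, hp2.2]
    · intro y hy
      rw [hWmem] at hy
      exact ⟨(k, y), by rw [Finset.mem_filter]; exact ⟨(hPmem _).2 hy, rfl⟩, rfl⟩
  have hWind : ∀ k, ∀ u ∈ W k, ∀ v ∈ W k, ¬ F.Adj u v := by
    intro k u hu v hv huv
    rw [hWmem] at hu hv
    exact h1 _ hu _ hv (hhom (k, u) (k, v) ⟨rfl, huv⟩)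
  have e2 : ∀ k, l * (W k).card ≤ (N k).card := by
    intro k
    have h3 := hl (W k) (hWind k)
    have h4 : nbhd F (W k) = (N k : Set V) := by
      ext z
      rw [hN]
      simp only [nbhd, Set.mem_ofPred_eq, Finset.coe_filter, Finset.mem_univ, true_and]
    rwa [h4, Set.ncard_coe_finset] at h3
  have e3 : ∑ k ∈ K, (N k).card ≤ T.card := by
    rw [← Finset.card_sigma]
    refine Finset.card_le_card_of_injOn (fun p => φ (p.1, p.2)) ?_ ?_
    · rintro ⟨k, z⟩ hp
      rw [Finset.mem_coe, Finset.mem_sigma] at hp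
      obtain ⟨_, hz⟩ := hp
      simp only at hz
      rw [hN, Finset.mem_filter] at hz
      obtain ⟨_, y, hy, hyz⟩ := hz
      rw [hWmem] at hy
      exact h2 _ hy _ (hhom (k, y) (k, z) ⟨rfl, hyz⟩)
    · rintro ⟨k1, z1⟩ _ ⟨k2, z2⟩ _ heq
      have h3 := hinj heq
      simp only [Prod.mk.injEq] at h3
      obtain ⟨h4, h5⟩ := h3
      subst h4; subst h5
      rfl
  calc l * (P.card : ℝ) = ∑ k ∈ K, l * (W k).card := by
        rw [e1]; push_cast; rw [Finset.mul_sum]
    _ ≤ ∑ k ∈ K, ((N k).card : ℝ) := Finset.sum_le_sum fun k _ => e2 k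
    _ ≤ T.card := by exact_mod_cast e3

/-- Bounding the density of a copy from one family of sets. -/
theorem density_bound {V : Type*} [Fintype V] (F : SimpleGraph V) (G : SimpleGraph ℕ)
    (φ : ℕ × V → ℕ) (hinj : Function.Injective φ)
    (hhom : ∀ x y, (omegaFactor F).Adj x y → G.Adj (φ x) (φ y)) (l : ℝ) (hl0 : 0 < l)
    (hl : ∀ W : Finset V, (∀ u ∈ W, ∀ v ∈ W, ¬ F.Adj u v) → l * W.card ≤ (nbhd F W).ncard)
    (ε C : ℝ) (n0 : ℕ)
    (h : ∀ n ≥ n0, ∃ S T : Finset ℕ, S ⊆ range n ∧ (∀ x ∈ S, ∀ y ∈ S, ¬ G.Adj x y) ∧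
      (∀ x ∈ S, ∀ z, G.Adj x z → z ∈ T) ∧ ε * n - C ≤ (S.card : ℝ) - T.card / l) :
    upperDensity (Set.range φ) ≤ 1 - ε := by
  refine le_of_forall_pos_le_add fun δ hδ => ?_
  unfold upperDensity
  refine Filter.limsup_le_of_le ?_ ?_
  · refine ⟨0, fun a ha => ?_⟩
    rw [Filter.eventually_map] at ha
    obtain ⟨t, ht⟩ := ha.exists
    exact le_trans (by positivity) ht
  · obtain ⟨n1, hn1⟩ := exists_nat_ge (C / δ)
    filter_upwards [Filter.eventually_ge_atTop (max (max n0 n1) 1)] with n hn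
    have hn0 : n0 ≤ n := (le_max_left _ _).trans ((le_max_left _ _).trans hn)
    have hnn1 : n1 ≤ n := (le_max_right _ _).trans ((le_max_left _ _).trans hn)
    have hnpos : 0 < n := lt_of_lt_of_le one_pos ((le_max_right _ _).trans hn)
    have hnR : (0 : ℝ) < n := by exact_mod_cast hnpos
    obtain ⟨S, T, hS, h1, h2, h3⟩ := h n hn0
    have hc := count_bound F G φ hinj hhom l hl S T h1 h2
    have hcount : (Set.range φ ∩ Set.Iio n).ncard + S.card ≤ n + (Set.range φ ∩ S).ncard := by
      have h4 : Set.range φ ∩ Set.Iio n ⊆ (((range n \ S : Finset ℕ) : Set ℕ)) ∪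
          (Set.range φ ∩ S) := by
        rintro m ⟨hm1, hm2⟩
        by_cases hmS : m ∈ S
        · right; exact ⟨hm1, hmS⟩
        · left
          rw [Finset.mem_coe, Finset.mem_sdiff, Finset.mem_range]
          exact ⟨hm2, hmS⟩
      have h5 := (Set.ncard_le_ncard h4 ((Finset.finite_toSet _).union
        ((Finset.finite_toSet S).subset Set.inter_subset_right))).trans (Set.ncard_union_le _ _)
      rw [Set.ncard_coe_finset, Finset.card_sdiff_of_subset hS, Finset.card_range] at h5
      have h6 := Finset.card_le_card hS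
      rw [Finset.card_range] at h6
      omega
    have hcountR : ((Set.range φ ∩ Set.Iio n).ncard : ℝ) + S.card ≤
        n + ((Set.range φ ∩ S).ncard : ℝ) := by exact_mod_cast hcount
    have h7 : ((Set.range φ ∩ S).ncard : ℝ) ≤ T.card / l := by
      rw [le_div_iff₀ hl0, mul_comm]
      exact hc
    have h8 : C ≤ δ * n := by
      rw [div_le_iff₀ hδ] at hn1
      have : (n1 : ℝ) ≤ n := by exact_mod_cast hnn1
      nlinarith
    rw [div_le_iff₀ hnR]
    linarith

end Pool.Agent.R66.RD
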