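import Mathlib
import Pool.Agent.R66.RD.UpperComb

/-!
The colouring built from a walk, and the upper bound it gives.
-/

namespace Pool.Agent.R66.RD

open Finset

/-- The red graph built from an interleaving `β` and a precedence relation. A vertex `m` is of the
second kind when `β` increases at `m`; the two kinds are enumerated by `m - β m` and `β m`. -/
def walkGraph (β : ℕ → ℕ) (pre : ℕ → ℕ → Prop) : SimpleGraph ℕ where
  Adj m n := m ≠ n ∧ ((β (m + 1) = β m ∧ β (n + 1) = β n) ∨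
    (β (m + 1) = β m ∧ β (n + 1) = β n + 1 ∧ pre (m - β m) (β n)) ∨
    (β (n + 1) = β n ∧ β (m + 1) = β m + 1 ∧ pre (n - β n) (β m)))
  symm := ⟨fun m n h => ⟨h.1.symm, by
    rcases h.2 with h | h | h
    · exact Or.inl ⟨h.2, h.1⟩
    · exact Or.inr (Or.inr h)
    · exact Or.inr (Or.inl h)⟩⟩
  loopless := ⟨fun m h => h.1 rfl⟩

theorem upper_core {V : Type*} [Fintype V] (F : SimpleGraph V) (l : ℝ) (hl0 : 0 < l)
    (hl : ∀ W : Finset V, (∀ u ∈ W, ∀ v ∈ W, ¬ F.Adj u v) → l * W.card ≤ (nbhd F W).ncard)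
    (ε : ℝ) (u v : ℝ → ℝ) (hu : ∀ x y, 0 ≤ x → x ≤ y → u x ≤ u y)
    (hv : ∀ x y, 0 ≤ x → x ≤ y → v x ≤ v y) (hu0 : ∀ x, 0 ≤ x → 0 ≤ u x)
    (hv0 : ∀ x, 0 ≤ x → 0 ≤ v x) (X Y : ℕ → ℝ) (n0 : ℕ) (hX : ∀ n ≥ n0, 0 ≤ X n)
    (hY : ∀ n ≥ n0, 0 ≤ Y n) (hXm : ∀ n m, n0 ≤ n → n ≤ m → X n ≤ X m)
    (hYm : ∀ n m, n0 ≤ n → n ≤ m → Y n ≤ Y m) (hsum : ∀ n ≥ n0, v (X n) + u (Y n) ≤ n)
    (h1 : ∀ n ≥ n0, ε * n ≤ v (X n) - u (X n) / l)
    (h2 : ∀ n ≥ n0, ε * n ≤ u (Y n) - v (Y n) / l) :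
    ∃ R : SimpleGraph ℕ, ∀ φ : ℕ × V → ℕ, IsMonoCopy (omegaFactor F) R φ →
      upperDensity (Set.range φ) ≤ 1 - ε := by
  classical
  set J : ℕ → ℕ := fun n => if n < n0 then 0 else ⌊v (X n)⌋₊ with hJ
  set I : ℕ → ℕ := fun n => if n < n0 then 0 else ⌊u (Y n)⌋₊ with hI
  have hJn : ∀ n ≥ n0, J n = ⌊v (X n)⌋₊ := fun n hn => by
    simp only [hJ, if_neg (not_lt.2 hn)]
  have hIn : ∀ n ≥ n0, I n = ⌊u (Y n)⌋₊ := fun n hn => by
    simp only [hI, if_neg (not_lt.2 hn)]
  have hJm : Monotone J := by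
    intro n m hnm
    by_cases hn : n < n0
    · simp only [hJ, if_pos hn]; exact Nat.zero_le _
    · have hn' := not_lt.1 hn
      rw [hJn n hn', hJn m (hn'.trans hnm)]
      exact Nat.floor_le_floor (hv _ _ (hX n hn') (hXm n m hn' hnm))
  have hIm : Monotone I := by
    intro n m hnm
    by_cases hn : n < n0
    · simp only [hI, if_pos hn]; exact Nat.zero_le _
    · have hn' := not_lt.1 hn
      rw [hIn n hn', hIn m (hn'.trans hnm)]
      exact Nat.floor_le_floor (hu _ _ (hY n hn') (hYm n m hn' hnm))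
  have hJI : ∀ n, J n + I n ≤ n := by
    intro n
    by_cases hn : n < n0
    · simp only [hJ, hI, if_pos hn]; omega
    · have hn' := not_lt.1 hn
      rw [hJn n hn', hIn n hn']
      have e1 := Nat.floor_le (hv0 _ (hX n hn'))
      have e2 := Nat.floor_le (hu0 _ (hY n hn'))
      have e3 := hsum n hn'
      have e4 : ((⌊v (X n)⌋₊ + ⌊u (Y n)⌋₊ : ℕ) : ℝ) ≤ n := by
        push_cast; linarith
      exact_mod_cast e4
  obtain ⟨β, hβ0, hβs, hβJ, hβI⟩ := exists_interleave J I hJm hIm hJI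
  set pre : ℕ → ℕ → Prop := fun i j => ∃ τ : ℝ, 0 ≤ τ ∧ (i : ℝ) < u τ ∧ v τ ≤ j with hpre
  set R := walkGraph β pre with hR
  set α : ℕ → ℕ := fun m => m - β m with hα
  have hβle : ∀ n, β n ≤ n := fun n => by have := hβI n; omega
  have hα0 : α 0 = 0 := by simp [hα]
  have hαs : ∀ n, α (n + 1) = α n ∨ α (n + 1) = α n + 1 := by
    intro n
    have := hβle n
    simp only [hα]
    rcases hβs n with h | h <;> rw [h] <;> omega
  have hαA : ∀ n, β (n + 1) = β n ↔ α (n + 1) = α n + 1 := by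
    intro n
    have h3 := hβle n
    simp only [hα]
    rcases hβs n with h | h
    · rw [h]
      constructor
      · intro _; omega
      · intro _; rfl
    · rw [h]
      constructor
      · intro h4; omega
      · intro h4; omega
  have hnotAB : ∀ n, β (n + 1) = β n → β (n + 1) = β n + 1 → False := by
    intro n h3 h4; omega
  refine ⟨R, ?_⟩
  rintro φ ⟨hinj, hcase⟩
  rcases hcase with hhom | hhom
  · -- red copy
    refine density_bound F R φ hinj hhom l hl0 hl ε (1 + 1 / l) n0 ?_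
    intro n hn
    obtain ⟨T, hTc, hT⟩ := rank_finite α hαs ⌈u (X n)⌉₊
    refine ⟨(range n).filter (fun m => β (m + 1) = β m + 1 ∧ β m < J n), T,
      Finset.filter_subset _ _, ?_, ?_, ?_⟩
    · intro x hx y hy hxy
      rw [Finset.mem_filter] at hx hy
      rcases hxy.2 with h | h | h
      · exact hnotAB _ h.1 hx.2.1
      · exact hnotAB _ h.1 hx.2.1
      · exact hnotAB _ h.1 hy.2.1
    · intro x hx z hxz
      rw [Finset.mem_filter] at hx
      rcases hxz.2 with h | h | h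
      · exact absurd hx.2.1 (fun h' => hnotAB _ h.1 h')
      · exact absurd hx.2.1 (fun h' => hnotAB _ h.1 h')
      · obtain ⟨hzA, _, τ, hτ0, hτ1, hτ2⟩ := h
        refine hT z ((hαA z).1 hzA) ?_
        have e1 : (β x : ℝ) + 1 ≤ v (X n) := by
          have e2 : β x + 1 ≤ J n := hx.2.2
          have e3 : ((β x + 1 : ℕ) : ℝ) ≤ J n := by exact_mod_cast e2
          rw [hJn n hn] at e3
          have e4 := Nat.floor_le (hv0 _ (hX n hn))
          push_cast at e3
          linarith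
        have e5 : τ ≤ X n := by
          by_contra hlt
          push Not at hlt
          have := hv (X n) τ (hX n hn) hlt.le
          linarith
        have e6 : u τ ≤ u (X n) := hu _ _ hτ0 e5
        have e7 : (α z : ℝ) < ⌈u (X n)⌉₊ := by
          calc (α z : ℝ) < u τ := hτ1
            _ ≤ u (X n) := e6
            _ ≤ ⌈u (X n)⌉₊ := Nat.le_ceil _
        exact_mod_cast e7
    · rw [card_rank β hβ0 hβs, min_eq_right (hβJ n), hJn n hn]
      have e1 : v (X n) < (⌊v (X n)⌋₊ : ℝ) + 1 := Nat.lt_floor_add_one _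
      have e2 : (T.card : ℝ) ≤ u (X n) + 1 := by
        have e3 : (T.card : ℝ) ≤ ⌈u (X n)⌉₊ := by exact_mod_cast hTc
        have e4 := (Nat.ceil_lt_add_one (hu0 _ (hX n hn))).le
        linarith
      have e5 : (T.card : ℝ) / l ≤ u (X n) / l + 1 / l := by
        rw [← add_div]
        exact div_le_div_of_nonneg_right e2 hl0.le
      have e6 := h1 n hn
      linarith
  · -- blue copy
    refine density_bound F Rᶜ φ hinj hhom l hl0 hl ε (1 + 1 / l) n0 ?_
    intro n hn
    obtain ⟨T, hTc, hT⟩ := rank_finite β hβs ⌈v (Y n)⌉₊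
    refine ⟨(range n).filter (fun m => α (m + 1) = α m + 1 ∧ α m < I n), T,
      Finset.filter_subset _ _, ?_, ?_, ?_⟩
    · intro x hx y hy hxy
      rw [Finset.mem_filter] at hx hy
      rw [SimpleGraph.compl_adj] at hxy
      exact hxy.2 ⟨hxy.1, Or.inl ⟨(hαA x).2 hx.2.1, (hαA y).2 hy.2.1⟩⟩
    · intro x hx z hxz
      rw [Finset.mem_filter] at hx
      rw [SimpleGraph.compl_adj] at hxz
      have hxA := (hαA x).2 hx.2.1
      rcases hβs z with hz | hz
      · exact absurd ⟨hxz.1, Or.inl ⟨hxA, hz⟩⟩ hxz.2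
      · refine hT z hz ?_
        have hnpre : ¬ pre (α x) (β z) := fun h =>
          hxz.2 ⟨hxz.1, Or.inr (Or.inl ⟨hxA, hz, h⟩)⟩
        have e1 : (α x : ℝ) + 1 ≤ u (Y n) := by
          have e2 : α x + 1 ≤ I n := hx.2.2
          have e3 : ((α x + 1 : ℕ) : ℝ) ≤ I n := by exact_mod_cast e2
          rw [hIn n hn] at e3
          have e4 := Nat.floor_le (hu0 _ (hY n hn))
          push_cast at e3
          linarith
        have e5 : (β z : ℝ) < v (Y n) := by
          by_contra hlt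
          push Not at hlt
          exact hnpre ⟨Y n, hY n hn, by linarith, hlt⟩
        have e7 : (β z : ℝ) < ⌈v (Y n)⌉₊ := lt_of_lt_of_le e5 (Nat.le_ceil _)
        exact_mod_cast e7
    · have hαI : I n ≤ α n := by
        have := hβI n
        simp only [hα]
        omega
      rw [card_rank α hα0 hαs, min_eq_right hαI, hIn n hn]
      have e1 : u (Y n) < (⌊u (Y n)⌋₊ : ℝ) + 1 := Nat.lt_floor_add_one _
      have e2 : (T.card : ℝ) ≤ v (Y n) + 1 := by
        have e3 : (T.card : ℝ) ≤ ⌈v (Y n)⌉₊ := by exact_mod_cast hTc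
        have e4 := (Nat.ceil_lt_add_one (hv0 _ (hY n hn))).le
        linarith
      have e5 : (T.card : ℝ) / l ≤ v (Y n) / l + 1 / l := by
        rw [← add_div]
        exact div_le_div_of_nonneg_right e2 hl0.le
      have e6 := h2 n hn
      linarith

end Pool.Agent.R66.RD
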