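import Mathlib
import Pool.Agent.R66.RD.Lower
import Pool.Agent.R66.RD.UpperMain

/-!
The upper bound `ρ(ω·F) ≤ f(m(F))` for every finite graph `F`, and the equality.
-/

namespace Pool.Agent.R66.RD

open Filter

/-- The first point where `γ x + g x` reaches the level `t`. -/
theorem first_point (γ : ℝ) (g : ℝ → ℝ) (hg : ContinuousOn g (Set.Ici 0)) (hg0 : g 0 = 0)
    (t : ℝ) (ht : 0 < t) (hne : ∃ x, 0 ≤ x ∧ t ≤ γ * x + g x) :
    0 ≤ sInf {x : ℝ | 0 ≤ x ∧ t ≤ γ * x + g x} ∧
    γ * sInf {x : ℝ | 0 ≤ x ∧ t ≤ γ * x + g x} + g (sInf {x : ℝ | 0 ≤ x ∧ t ≤ γ * x + g x}) = t ∧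
    ∀ x, 0 ≤ x → t ≤ γ * x + g x → sInf {x : ℝ | 0 ≤ x ∧ t ≤ γ * x + g x} ≤ x := by
  set A : Set ℝ := {x : ℝ | 0 ≤ x ∧ t ≤ γ * x + g x} with hA
  have hF : ContinuousOn (fun x => γ * x + g x) (Set.Ici 0) :=
    (continuousOn_const.mul continuousOn_id).add hg
  have hbdd : BddBelow A := ⟨0, fun x hx => hx.1⟩
  have hclosed : IsClosed A := by
    have h1 : A = Set.Ici 0 ∩ (fun x => γ * x + g x) ⁻¹' (Set.Ici t) := by
      ext x; rfl
    rw [h1]
    exact hF.preimage_isClosed_of_isClosed isClosed_Ici isClosed_Ici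
  obtain ⟨x0, hx0, hx0t⟩ := hne
  have hmem : sInf A ∈ A := hclosed.csInf_mem ⟨x0, hx0, hx0t⟩ hbdd
  have hmin : ∀ x, 0 ≤ x → t ≤ γ * x + g x → sInf A ≤ x := fun x h1 h2 =>
    csInf_le hbdd ⟨h1, h2⟩
  refine ⟨hmem.1, le_antisymm ?_ hmem.2, hmin⟩
  by_contra hlt
  push Not at hlt
  have hIVT := intermediate_value_Icc hmem.1
    (hF.mono (fun x (hx : x ∈ Set.Icc 0 (sInf A)) => hx.1))
  have h0 : (fun x => γ * x + g x) 0 = 0 := by simp [hg0]
  have htmem : t ∈ Set.Icc ((fun x => γ * x + g x) 0) ((fun x => γ * x + g x) (sInf A)) := by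
    rw [h0]
    exact ⟨ht.le, hlt.le⟩
  obtain ⟨x', hx', hx't⟩ := hIVT htmem
  simp only at hx't
  have h1 := hmin x' hx'.1 hx't.ge
  have h2 : x' = sInf A := le_antisymm hx'.2 h1
  rw [h2] at hx't
  linarith

theorem upper_bound {V : Type*} [Fintype V] [Nonempty V] (F : SimpleGraph V) :
    ramseyUpperDensity (omegaFactor F) ≤ fFun (minRatio F) := by
  classical
  set l := minRatio F with hldef
  have hratio : ∀ W : Finset V, (∀ u ∈ W, ∀ v ∈ W, ¬ F.Adj u v) →
      l * W.card ≤ (nbhd F W).ncard := by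
    intro W hW
    rcases W.eq_empty_or_nonempty with h | h
    · subst h; simp
    · have hpos : (0 : ℝ) < W.card := by exact_mod_cast h.card_pos
      rw [← le_div_iff₀ hpos]
      refine csInf_le ⟨0, ?_⟩ ⟨W, h, hW, rfl⟩
      rintro q ⟨I, _, _, rfl⟩
      positivity
  have hlnn : 0 ≤ l := by
    obtain ⟨I, _, _, h⟩ := minRatio_mem F
    rw [hldef, h]
    positivity
  rcases hlnn.eq_or_lt with hl0 | hlpos
  · -- `f 0 = 1`
    have hf : fFun l = 1 := by rw [← hl0]; simp [fFun]
    rw [hf]
    refine Real.sSup_le ?_ zero_le_one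
    intro x hx
    obtain ⟨φ, _, h⟩ := hx ⊥
    exact h.trans (upperDensity_le_one _)
  · have hf := fFun_pos_eq l hlpos
    have hE2 := eFun_ge_two l hlpos
    have hEinv : ((eFun l)⁻¹).toReal ≤ 1 / 2 := by
      have h1 : (eFun l)⁻¹ ≤ 2⁻¹ := ENNReal.inv_le_inv.2 hE2
      have h2 := ENNReal.toReal_mono (by simp) h1
      simpa using h2
    refine Real.sSup_le ?_ (by rw [hf]; linarith)
    intro x hx
    by_contra hlt
    push Not at hlt
    have hx1 : x ≤ 1 := by
      obtain ⟨φ, _, h⟩ := hx ⊥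
      exact h.trans (upperDensity_le_one _)
    have h1 : 1 - x < ((eFun l)⁻¹).toReal := by rw [hf] at hlt; linarith
    obtain ⟨ε, hε1, hε2⟩ := exists_between h1
    have hεpos : 0 < ε := by linarith
    have hεhalf : ε < 1 / 2 := by linarith
    -- `E < 1 / ε`
    have hEtop : (eFun l)⁻¹ ≠ ⊤ := by
      intro h
      rw [ENNReal.inv_eq_top] at h
      rw [h] at hE2
      simp at hE2
    have h2 : ENNReal.ofReal ε < (eFun l)⁻¹ := by
      rw [ENNReal.ofReal_lt_iff_lt_toReal hεpos.le hEtop]
      exact hε2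
    have h3 : eFun l < ENNReal.ofReal (1 / ε) := by
      rw [one_div, ENNReal.ofReal_inv_of_pos hεpos, ENNReal.lt_inv_iff_lt_inv]
      exact h2
    set C1 : ℝ := (1 + l) ^ 2 / (2 * l * ε) - (1 + l) with hC1
    have hC1pos : 0 < C1 := by
      have h4 : 1 + l < (1 + l) ^ 2 / (2 * l * ε) := by
        rw [lt_div_iff₀ (by positivity)]
        nlinarith
      linarith
    have hh : hFun ((l - 1) / (l + 1)) < ENNReal.ofReal C1 := by
      by_contra hcon
      push Not at hcon
      have h4 : ENNReal.ofReal (1 / ε) ≤ eFun l := by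
        unfold eFun
        calc ENNReal.ofReal (1 / ε) = ENNReal.ofReal (2 * l / (1 + l) ^ 2) * ENNReal.ofReal C1 +
              ENNReal.ofReal (2 * l / (1 + l)) := by
                rw [← ENNReal.ofReal_mul (by positivity),
                  ← ENNReal.ofReal_add (by positivity) (by positivity)]
                congr 1
                rw [hC1]
                field_simp
                ring
          _ ≤ _ := by gcongr
      exact absurd h3 (not_lt.2 h4)
    unfold hFun at hh
    rw [iInf_lt_iff] at hh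
    obtain ⟨⟨g, hgL, hg0⟩, hlim⟩ := hh
    have hev := Filter.eventually_lt_of_limsup_lt hlim (by isBoundedDefault)
    obtain ⟨t0, ht0⟩ := Filter.eventually_atTop.1 hev
    set γ : ℝ := (l - 1) / (l + 1) with hγ
    have hgc : ContinuousOn g (Set.Ici 0) := hgL.continuousOn
    have hgLip : ∀ x y : ℝ, 0 ≤ x → 0 ≤ y → |g x - g y| ≤ |x - y| := by
      intro x y hx hy
      have := hgL.dist_le_mul x hx y hy
      simpa [Real.dist_eq] using this
    -- the two first points
    set XX : ℝ → ℝ := fun t => sInf {x : ℝ | 0 ≤ x ∧ t ≤ γ * x + g x} with hXX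
    set YY : ℝ → ℝ := fun t => sInf {x : ℝ | 0 ≤ x ∧ t ≤ γ * x + (-g x)} with hYY
    have hlev : ∀ t ≥ max t0 1, (∃ x, 0 ≤ x ∧ t ≤ γ * x + g x) ∧
        (∃ x, 0 ≤ x ∧ t ≤ γ * x + (-g x)) ∧ XX t + YY t ≤ C1 * t := by
      intro t ht
      have htt0 : t0 ≤ t := (le_max_left _ _).trans ht
      have htpos : 0 < t := lt_of_lt_of_le one_pos ((le_max_right _ _).trans ht)
      have h4 := ht0 t htt0
      have ht' : ENNReal.ofReal t ≠ 0 := by
        rw [Ne, ENNReal.ofReal_eq_zero, not_le]; exact htpos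
      rw [ENNReal.div_lt_iff (Or.inl ht') (Or.inl ENNReal.ofReal_ne_top),
        ← ENNReal.ofReal_mul hC1pos.le] at h4
      have hp : gammaPlus γ g t ≠ ⊤ := ne_top_of_le_ne_top ENNReal.ofReal_ne_top
        ((le_add_right le_rfl).trans h4.le)
      have hm : gammaMinus γ g t ≠ ⊤ := ne_top_of_le_ne_top ENNReal.ofReal_ne_top
        ((le_add_left le_rfl).trans h4.le)
      have hpe : ∃ x, 0 ≤ x ∧ t ≤ γ * x + g x := by
        by_contra hno
        apply hp
        unfold gammaPlus
        rw [iInf_eq_top]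
        rintro ⟨x, hx⟩
        exact absurd ⟨x, hx⟩ hno
      have hme : ∃ x, 0 ≤ x ∧ t ≤ γ * x + (-g x) := by
        by_contra hno
        apply hm
        unfold gammaMinus
        rw [iInf_eq_top]
        rintro ⟨x, hx⟩
        exact absurd ⟨x, hx.1, by linarith [hx.2]⟩ hno
      refine ⟨hpe, hme, ?_⟩
      obtain ⟨a1, _, a3⟩ := first_point γ g hgc hg0 t htpos hpe
      obtain ⟨b1, _, b3⟩ := first_point γ (fun x => -g x) hgc.neg (by simp [hg0]) t htpos hme
      have e1 : ENNReal.ofReal (XX t) ≤ gammaPlus γ g t := by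
        unfold gammaPlus
        refine le_iInf ?_
        rintro ⟨x, hx⟩
        exact ENNReal.ofReal_le_ofReal (a3 x hx.1 hx.2)
      have e2 : ENNReal.ofReal (YY t) ≤ gammaMinus γ g t := by
        unfold gammaMinus
        refine le_iInf ?_
        rintro ⟨x, hx⟩
        exact ENNReal.ofReal_le_ofReal (b3 x hx.1 (by linarith [hx.2]))
      have e3 : ENNReal.ofReal (XX t + YY t) < ENNReal.ofReal (C1 * t) := by
        rw [ENNReal.ofReal_add a1 b1]
        exact lt_of_le_of_lt (add_le_add e1 e2) h4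
      exact ((ENNReal.ofReal_lt_ofReal_iff').1 e3).1.le
    have hXmono : ∀ t t', max t0 1 ≤ t → t ≤ t' → XX t ≤ XX t' := by
      intro t t' ht htt'
      obtain ⟨⟨x, hx⟩, _, _⟩ := hlev t' (ht.trans htt')
      refine csInf_le_csInf ⟨0, fun x hx => hx.1⟩ ⟨x, hx⟩ ?_
      intro z hz
      exact ⟨hz.1, htt'.trans hz.2⟩
    have hYmono : ∀ t t', max t0 1 ≤ t → t ≤ t' → YY t ≤ YY t' := by
      intro t t' ht htt'
      obtain ⟨_, ⟨x, hx⟩, _⟩ := hlev t' (ht.trans htt')
      refine csInf_le_csInf ⟨0, fun x hx => hx.1⟩ ⟨x, hx⟩ ?_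
      intro z hz
      exact ⟨hz.1, htt'.trans hz.2⟩
    -- the levels attached to places
    set s : ℝ := 2 * l * ε / (1 + l) with hs
    have hspos : 0 < s := by positivity
    obtain ⟨n0, hn0⟩ := exists_nat_ge (max t0 1 / s)
    have hlevn : ∀ n : ℕ, n0 ≤ n → max t0 1 ≤ s * n := by
      intro n hn
      rw [div_le_iff₀ hspos] at hn0
      have : (n0 : ℝ) ≤ n := by exact_mod_cast hn
      nlinarith
    have hpt : ∀ n : ℕ, n0 ≤ n → (0 ≤ XX (s * n) ∧ γ * XX (s * n) + g (XX (s * n)) = s * n) ∧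
        (0 ≤ YY (s * n) ∧ γ * YY (s * n) - g (YY (s * n)) = s * n) := by
      intro n hn
      have h4 := hlevn n hn
      have h5 : 0 < s * n := lt_of_lt_of_le one_pos ((le_max_right _ _).trans h4)
      obtain ⟨hpe, hme, _⟩ := hlev _ h4
      obtain ⟨a1, a2, _⟩ := first_point γ g hgc hg0 _ h5 hpe
      obtain ⟨b1, b2, _⟩ := first_point γ (fun x => -g x) hgc.neg (by simp [hg0]) _ h5 hme
      refine ⟨⟨a1, a2⟩, b1, ?_⟩
      have b3 : γ * YY (s * n) + (-g (YY (s * n))) = s * n := b2
      linarith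
    obtain ⟨R, hR⟩ := upper_core F l hlpos hratio ε (fun x => (x - g x) / 2)
      (fun x => (x + g x) / 2) (by
        intro x y hx hxy
        have h4 := (abs_le.1 (hgLip y x (hx.trans hxy) hx)).2
        rw [abs_of_nonneg (sub_nonneg.2 hxy)] at h4
        linarith) (by
        intro x y hx hxy
        have h4 := (abs_le.1 (hgLip y x (hx.trans hxy) hx)).1
        rw [abs_of_nonneg (sub_nonneg.2 hxy)] at h4
        linarith) (by
        intro x hx
        have h4 := (abs_le.1 (hgLip x 0 hx le_rfl)).2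
        rw [hg0, sub_zero, sub_zero, abs_of_nonneg hx] at h4
        linarith) (by
        intro x hx
        have h4 := (abs_le.1 (hgLip x 0 hx le_rfl)).1
        rw [hg0, sub_zero, sub_zero, abs_of_nonneg hx] at h4
        linarith) (fun n => XX (s * n)) (fun n => YY (s * n)) n0
      (fun n hn => (hpt n hn).1.1) (fun n hn => (hpt n hn).2.1)
      (fun n m hn hnm => hXmono _ _ (hlevn n hn) (mul_le_mul_of_nonneg_left
        (by exact_mod_cast hnm) hspos.le))
      (fun n m hn hnm => hYmono _ _ (hlevn n hn) (mul_le_mul_of_nonneg_left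
        (by exact_mod_cast hnm) hspos.le))
      (by
        intro n hn
        obtain ⟨⟨_, a2⟩, ⟨_, b2⟩⟩ := hpt n hn
        obtain ⟨_, _, h6⟩ := hlev _ (hlevn n hn)
        have e1 : (XX (s * n) + g (XX (s * n))) / 2 = s * n / 2 + XX (s * n) / (l + 1) := by
          have e2 : g (XX (s * n)) = s * n - γ * XX (s * n) := by linarith
          rw [e2, hγ]
          field_simp
          ring
        have e3 : (YY (s * n) - g (YY (s * n))) / 2 = s * n / 2 + YY (s * n) / (l + 1) := by
          have e2 : g (YY (s * n)) = γ * YY (s * n) - s * n := by linarith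
          rw [e2, hγ]
          field_simp
          ring
        rw [e1, e3]
        have e4 : XX (s * n) / (l + 1) + YY (s * n) / (l + 1) ≤ C1 * (s * n) / (l + 1) := by
          rw [← add_div]
          exact div_le_div_of_nonneg_right h6 (by positivity)
        have e5 : s * n + C1 * (s * n) / (l + 1) = n := by
          rw [hC1, hs]
          field_simp
          ring
        linarith)
      (by
        intro n hn
        obtain ⟨⟨_, a2⟩, _⟩ := hpt n hn
        have e1 : (XX (s * n) + g (XX (s * n))) / 2 - (XX (s * n) - g (XX (s * n))) / 2 / l =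
            (l + 1) / (2 * l) * (γ * XX (s * n) + g (XX (s * n))) := by
          rw [hγ]
          field_simp
          ring
        rw [e1, a2, hs]
        apply le_of_eq
        field_simp
        ring)
      (by
        intro n hn
        obtain ⟨_, ⟨_, b2⟩⟩ := hpt n hn
        have e1 : (YY (s * n) - g (YY (s * n))) / 2 - (YY (s * n) + g (YY (s * n))) / 2 / l =
            (l + 1) / (2 * l) * (γ * YY (s * n) - g (YY (s * n))) := by
          rw [hγ]
          field_simp
          ring
        rw [e1, b2, hs]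
        apply le_of_eq
        field_simp
        ring)
    obtain ⟨φ, hφ, hxφ⟩ := hx R
    have := hR φ hφ
    linarith

/-- The Ramsey upper density of `ω·F`. -/
theorem density_eq {V : Type*} [Fintype V] [Nonempty V] (F : SimpleGraph V) :
    ramseyUpperDensity (omegaFactor F) = fFun (minRatio F) :=
  le_antisymm (upper_bound F) (lower_bound F)

end Pool.Agent.R66.RD
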